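import Pool.Agent.Q55.Nil.Conv

/-!
# The final theorem
-/

open CategoryTheory AlgebraicGeometry

universe u v w

namespace Pool.Agent.Q55.Nil

open Pool.Agent.H914 Pool.Agent.H914.VarClass Pool.Agent.H914.VarClass.Obj Pool.Agent.W492.BB
  Pool.Agent.W550.Corr Pool.Agent.TH133 Pool.Agent.TH829.Prime Pool.Agent.TH829.Kim
open Pool.Agent.Y110 (GradedCommutative)

variable {k : Type u} [Field k] {𝒱 : VarClass k} {C : TheoryData.{u, v, 0} 𝒱 ℚ} {K : Type w}
  [Field K]

theorem final [IsChowProj C] {H : WeilTheoryData.{u, v, w} C K} [IsWeilProj H]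
    (hg : GradedCommutative H) (hfin : ∀ Y : 𝒱.Obj, Module.Finite K (H.A Y)) (X : 𝒱.Obj) :
    (∃ p q : ℕ, p ≤ S.bet H Even X ∧ p + S.bet H Odd X = q + S.bet H Even X ∧
      S.HasType C (S.num C) X p q ∧ S.TracesBetween C X q p ∧
      (S.SignAt H X → p = S.bet H Even X ∧ q = S.bet H Odd X) ∧
      ∀ I : Family C, IsAdequate C I → (∀ Z : 𝒱.Obj, ¬ S.rel C I Z 0 1) →
        ((∀ n, ¬ S.Dep C (S.rel C I) X n) ∨ ∃ j, S.HasType C (S.rel C I) X (p + j) (q + j)) ∧
        [S.NoPhantoms C (S.rel C I) (powObj X (S.bN H X)),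
          ∃ n < (p + 2) * (q + 2), S.Dep C (S.rel C I) X n,
          ∀ (n : ℕ) (c : Equiv.Perm (Fin n) → ℚ),
            S.Relation C (S.num C) X c → S.Relation C (S.rel C I) X c,
          ∀ (m : ℕ) (Y : 𝒱.Obj), S.IsSummand C Y (powObj X m) →
            S.NilpotentWith C (S.rel C I) Y (S.bN H (powObj X m))].TFAE) ∧
    (S.NoPhantoms C (S.rat C) (powObj X (S.bN H X)) → S.KunnethAt H X → S.HasCK H X) ∧
    ∀ F : Filtration C, IsBounded H F → IsMultiplicative F →
      S.NumEqHomAt H (powObj X (S.bN H X)) → S.NoPhantoms C (S.rat C) (powObj X (S.bN H X)) := by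
  have hne := one_ne H
  have hnum := isAdequate_numFam (C := C) hne
  have hnum1 := (isPrime_numFam (C := C) hne).one_notMem
  obtain ⟨p, q, hp, hpq, htype, hmain⟩ := main hg hfin X
  have htr : ∀ e : C.A (X.prod X), C.Deg X.dim e → NumTrivial C X.dim (C.comp e e - e) →
      ∀ t : ℚ, HasDegree C (ev e (𝟙 X) (𝟙 X)) t → ∃ z : ℤ, t = z ∧ -(q : ℤ) ≤ z ∧ z ≤ p := by
    intro e he hee t ht
    have hfX := hfin X
    have hchi : chi hne X = (bE H X : ℚ) - bO H X := chi_eq hg
    have hpq' : (p : ℚ) + bO H X = q + bE H X := by exact_mod_cast hpq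
    have h1 := hasType_iff.1 htype
    exact trace_bound hnum hnum1 ((famI hne (numFam C) hnum X).exists_rc
      (by rw [hchi]; linarith) h1.1 h1.2) he
      ⟨Submodule.sub_mem _ (comp_mem0 C he he) he, hee⟩ ht
  have hrat : IsAdequate C (ratFam C) := isAdequate_bot
  have hrat1 : ∀ Z : 𝒱.Obj, (1 : C.A Z) ∉ ratFam C Z 0 := by
    intro Z h
    exact hne Z ((Submodule.mem_bot ℚ).1 h)
  refine ⟨⟨p, q, hp, hpq, (hasType_num hne).2 htype, ?_, ?_, ?_⟩, ?_, ?_⟩
  · intro e he hee
    obtain ⟨t, ht⟩ := exists_tr (ofA e he)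
    have hee' : NumTrivial C X.dim (C.comp e e - e) :=
      (numTriv_iff hne (Submodule.sub_mem _ (comp_mem0 C he he) he)).1 hee
    obtain ⟨z, rfl, h1, h2⟩ := htr e he hee' t ht
    exact ⟨z, degreeIs_of ht, h1, h2⟩
  · intro hs
    obtain ⟨e, he, h1, h2⟩ := signAt_imp hs
    have hfX := hfin X
    obtain ⟨t, ht⟩ := exists_tr (ofA e he)
    obtain ⟨h3, h4⟩ := trace_even hg he h1 h2 ht
    obtain ⟨z, h5, -, h6⟩ := htr e he h3.2 t ht
    have h7 : (bE H X : ℚ) ≤ p := by
      rw [← h4, h5]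
      exact_mod_cast h6
    have h8 : bE H X ≤ p := by exact_mod_cast h7
    change p = bE H X ∧ q = bO H X
    omega
  · intro I hI h1
    have h2 := hmain I hI h1
    simp only [noPhantoms_rel hne, nilpotentWith_rel hne, relation_num hne]
    exact h2
  · intro h hK
    rw [noPhantoms_rat hne] at h
    obtain ⟨π, hπ⟩ : ∃ π : ℕ → C.A (X.prod X), IsCK H X π := by
      apply exists_ck ?_ (kunnethAt_imp hK)
      intro f hf
      have h1 := ((hmain (ratFam C) hrat hrat1).2.out 0 3 rfl rfl).1 h 0 X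
        ⟨0, dg C X, dg C X, by rw [add_zero]; exact dg_mem C X,
          by rw [sub_zero]; exact dg_mem C X, comp_dg C _⟩
      have h2 := h1.1 (toA f) (toA_mem f) hf.2
      have h3 := compList_toA (C := C) (List.replicate (bN H X) f)
      rw [List.map_replicate, List.reverse_replicate, List.prod_replicate] at h3
      refine ⟨bN H X, toA_inj ?_⟩
      rw [map_zero, ← h3]
      exact (Submodule.mem_bot ℚ).1 h2
    exact hasCK_of hπ
  · intro F hb hF hD
    rw [noPhantoms_rat hne]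
    exact noPhantoms_of_fil hb hF (numEqHomAt_imp hD)

end Pool.Agent.Q55.Nil
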