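import Pool.Agent.Q55.Nil.Final

/-!
# Varieties with a decomposed diagonal
-/

open CategoryTheory AlgebraicGeometry

universe u v w

namespace Pool.Agent.Q55.Nil

open Pool.Agent.H914 Pool.Agent.H914.VarClass Pool.Agent.H914.VarClass.Obj Pool.Agent.W492.BB
  Pool.Agent.W550.Corr Pool.Agent.TH133 Pool.Agent.TH829.Prime Pool.Agent.TH829.Kim
open Pool.Agent.Y110 (GradedCommutative)

set_option linter.unusedSectionVars false

variable {k : Type u} [Field k] {𝒱 : VarClass k}

section chow

/-- The span of the external products on `Z × X`. -/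
noncomputable def Spl (C : TheoryData.{u, v, 0} 𝒱 ℚ) (Z X : 𝒱.Obj) : Submodule ℚ (C.A (Z.prod X)) :=
  Submodule.span ℚ {z | ∃ (a : C.A Z) (b : C.A X), z = C.ext a b}

variable {C : TheoryData.{u, v, 0} 𝒱 ℚ} [hC : IsChowProj C] {X Y Z W V P : 𝒱.Obj}

lemma ext_mem_spl (a : C.A Z) (b : C.A X) : C.ext a b ∈ Spl C Z X :=
  Submodule.subset_span ⟨a, b, rfl⟩

include hC

lemma comp_ext_right (z : C.A (Z.prod X)) (a : C.A X) (b : C.A Y) :
    C.comp z (C.ext a b) = C.ext (C.push (fst Z X) (C.pull (snd Z X) a * z)) b := by
  have e1 : t23 Z X Y ≫ fst X Y = fst (Z.prod X) Y ≫ snd Z X := t23_fst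
  have e3 : t23 Z X Y ≫ snd X Y = t13 Z X Y ≫ snd Z Y := by rw [t23_snd, t13_snd]
  have h2 : C.pull (t23 Z X Y) (C.ext a b) * C.pull (fst (Z.prod X) Y) z =
      C.pull (fst (Z.prod X) Y) (C.pull (snd Z X) a * z) *
        C.pull (t13 Z X Y) (C.pull (snd Z Y) b) := by
    rw [TheoryData.ext, map_mul, map_mul, ← C.pull_comp (t23 Z X Y), ← C.pull_comp (t23 Z X Y),
      ← C.pull_comp (t13 Z X Y), e1, e3, C.pull_comp (fst (Z.prod X) Y) (snd Z X), mul_assoc,
      mul_assoc, ch_comm C (C.pull (t13 Z X Y ≫ snd Z Y) b)]
  rw [TheoryData.comp, h2, C.proj_right]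
  change C.push (prodMap (fst Z X) (𝟙 Y)) _ * _ = _
  rw [← C.base_fst]
  rfl

lemma comp_ext_left (a : C.A Z) (b : C.A X) (f : C.A (X.prod Y)) :
    C.comp (C.ext a b) f = C.ext a (C.act f b) := by
  rw [comp_eq_extR, C.extR_ext]
  intro c
  exact ch_comm C _ _

lemma comp_mem_spl (z : C.A (Z.prod X)) {w : C.A (X.prod Y)} (hw : w ∈ Spl C X Y) :
    C.comp z w ∈ Spl C Z Y := by
  induction hw using Submodule.span_induction with
  | mem w hw =>
    obtain ⟨a, b, rfl⟩ := hw
    rw [comp_ext_right]
    exact ext_mem_spl _ _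
  | zero => rw [comp_zero]; exact Submodule.zero_mem _
  | add a b _ _ ha hb => rw [comp_add]; exact Submodule.add_mem _ ha hb
  | smul q a _ ha =>
    have : C.comp z (q • a) = q • C.comp z a := map_smul (compL C z) q a
    rw [this]
    exact Submodule.smul_mem _ _ ha

lemma act_ext_eq (v x : C.A X) (α : C.A Y) :
    C.act (C.ext v α) x = C.push (snd X Y) (C.pull (fst X Y) (v * x)) * α := by
  rw [TheoryData.act_apply, TheoryData.ext, map_mul (C.pull (fst X Y)), ← C.proj_right]
  congr 1
  rw [mul_assoc, ch_comm C (C.pull (snd X Y) α), mul_assoc]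

lemma span_grC (X : 𝒱.Obj) (a : C.A X) : a ∈ ⨆ i, C.gr X i := by
  rw [(C.isInternal X).submodule_iSup_eq_top]; trivial

/-- Linear maps agreeing on homogeneous classes agree. -/
lemma ext_grC {V : Type*} [AddCommGroup V] [Module ℚ V] (f g : C.A X →ₗ[ℚ] V)
    (h : ∀ i, ∀ a ∈ C.gr X i, f a = g a) : f = g := by
  apply LinearMap.ext
  intro a
  have h1 : ⨆ i, C.gr X i ≤ LinearMap.eqLocus f g := iSup_le fun i x hx => h i x hx
  exact h1 (span_grC X a)

/-- The degree of a homogeneous class. -/
lemma hasDegree_hom {i : ℤ} {z : C.A X} (hz : z ∈ C.gr X i) (hi : i ≠ X.dim) :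
    HasDegree C z 0 := by
  intro Y
  rcases lt_or_gt_of_ne hi with h | h
  · have h2 := C.push_mem (snd X Y) (C.pull_mem (fst X Y) hz)
    rw [C.gr_neg Y _ (by rw [dim_prod]; push_cast; omega)] at h2
    have h3 := C.push_mem (fst Y X) (C.pull_mem (snd Y X) hz)
    rw [C.gr_neg Y _ (by rw [dim_prod]; push_cast; omega)] at h3
    rw [zero_smul]
    exact ⟨(Submodule.mem_bot _).1 h2, (Submodule.mem_bot _).1 h3⟩
  · rw [hC.gr_top X i _ hz h, map_zero, map_zero, map_zero, map_zero, zero_smul]
    exact ⟨rfl, rfl⟩

lemma exists_hasDegree' {i : ℤ} {z : C.A X} (hz : z ∈ C.gr X i) : ∃ q, HasDegree C z q := by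
  by_cases hi : i = X.dim
  · subst hi
    exact exists_hasDegree hz
  · exact ⟨0, hasDegree_hom hz hi⟩

/-- Numerically trivial classes are zero if the diagonal splits. -/
lemma eq_zero_of_spl (h : dg C X ∈ Spl C X X) {i : ℤ} {z : C.A X} (hz : z ∈ numFam C X i) :
    z = 0 := by
  have key : ∀ w ∈ Spl C X X, C.act w z = 0 := by
    intro w hw
    induction hw using Submodule.span_induction with
    | mem w hw =>
      obtain ⟨a, b, rfl⟩ := hw
      rw [act_ext_eq]
      have h1 : C.push (snd X X) (C.pull (fst X X) (a * z)) = 0 := by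
        have h2 : C.push (snd X X) ∘ₗ (C.pull (fst X X)).toLinearMap ∘ₗ
            LinearMap.mulRight ℚ z = 0 := by
          apply ext_grC
          intro j a ha
          rw [LinearMap.zero_apply]
          change C.push (snd X X) (C.pull (fst X X) (a * z)) = 0
          have h3 : HasDegree C (a * z) 0 := by
            by_cases hj : j = X.dim - i
            · subst hj
              have h4 := hz.2 a ha
              rw [TheoryData.mul, ch_comm C] at h4
              exact h4
            · have h4 := C.mul_mem ha hz.1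
              exact hasDegree_hom h4 (by omega)
          rw [(h3 X).1, zero_smul]
        exact LinearMap.congr_fun h2 a
      rw [h1, zero_mul]
    | zero => exact C.act_zero z
    | add a b _ _ ha hb => rw [C.act_add, ha, hb, add_zero]
    | smul q a _ ha =>
      have : C.act (q • a) z = q • C.act a z := by
        have := LinearMap.congr_fun (map_smul (actB C (X := X) (Y := X)) q a) z
        exact this
      rw [this, ha, smul_zero]
  have h1 := key _ h
  rwa [act_dg] at h1

/-- Numerically trivial correspondences are zero if the diagonal splits. -/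
lemma corr_eq_zero_of_spl (hne : ∀ X : 𝒱.Obj, (1 : C.A X) ≠ 0) (h : dg C X ∈ Spl C X X)
    {f : C.A (X.prod X)} (hf : f ∈ numFam C (X.prod X) X.dim) : f = 0 := by
  have hnum := isAdequate_numFam (C := C) hne
  have hact : ∀ b, C.act f b = 0 := by
    have h2 : C.actL f = 0 := by
      apply ext_grC
      intro j b hb
      rw [LinearMap.zero_apply]
      change C.act f b = 0
      have h3 : C.act f b ∈ numFam C X j := by
        rw [TheoryData.act_apply]
        have h4 := hnum.push_mem (snd X X) (hnum.mul_mem hf (C.pull_mem (fst X X) hb))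
        refine hnum.congr ?_ h4
        rw [dim_prod]; push_cast; ring
      exact eq_zero_of_spl h h3
    intro b
    exact LinearMap.congr_fun h2 b
  have key : ∀ w ∈ Spl C X X, C.comp w f = 0 := by
    intro w hw
    induction hw using Submodule.span_induction with
    | mem w hw =>
      obtain ⟨a, b, rfl⟩ := hw
      rw [comp_ext_left, hact, TheoryData.ext_zero_right]
    | zero => exact zero_comp C f
    | add a b _ _ ha hb => rw [add_comp, ha, hb, add_zero]
    | smul q a _ ha =>
      have : C.comp (q • a) f = q • C.comp a f := by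
        have := LinearMap.congr_fun (map_smul (compL C (X := X) (Y := X) (Z := X)) q a) f
        exact this
      rw [this, ha, smul_zero]
  have h1 := key _ h
  rwa [dg_comp] at h1

/-- The products of varieties with a split diagonal. -/
lemma spl_prod (hX : dg C X ∈ Spl C X X) (hY : dg C Y ∈ Spl C Y Y) :
    dg C (X.prod Y) ∈ Spl C (X.prod Y) (X.prod Y) := by
  have key : ∀ z ∈ Spl C X X, ∀ w ∈ Spl C Y Y, tens C z w ∈ Spl C (X.prod Y) (X.prod Y) := by
    intro z hz w hw
    induction hz using Submodule.span_induction with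
    | mem z hz =>
      obtain ⟨a, b, rfl⟩ := hz
      induction hw using Submodule.span_induction with
      | mem w hw =>
        obtain ⟨c, d, rfl⟩ := hw
        have h1 : tens C (C.ext a b) (C.ext c d) = C.ext (C.ext a c) (C.ext b d) := by
          have e1 : prodMap (fst X Y) (fst X Y) ≫ fst X X =
              fst (X.prod Y) (X.prod Y) ≫ fst X Y := prodMap_fst _ _
          have e2 : prodMap (fst X Y) (fst X Y) ≫ snd X X =
              snd (X.prod Y) (X.prod Y) ≫ fst X Y := prodMap_snd _ _
          have e3 : prodMap (snd X Y) (snd X Y) ≫ fst Y Y =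
              fst (X.prod Y) (X.prod Y) ≫ snd X Y := prodMap_fst _ _
          have e4 : prodMap (snd X Y) (snd X Y) ≫ snd Y Y =
              snd (X.prod Y) (X.prod Y) ≫ snd X Y := prodMap_snd _ _
          rw [tens]
          simp only [TheoryData.ext, map_mul, ← C.pull_comp]
          rw [e1, e2, e3, e4]
          generalize C.pull (fst (X.prod Y) (X.prod Y) ≫ fst X Y) a = p
          generalize C.pull (snd (X.prod Y) (X.prod Y) ≫ fst X Y) b = q
          generalize C.pull (fst (X.prod Y) (X.prod Y) ≫ snd X Y) c = r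
          generalize C.pull (snd (X.prod Y) (X.prod Y) ≫ snd X Y) d = s
          rw [mul_assoc, mul_assoc, ← mul_assoc q, ← mul_assoc r, ch_comm C q r]
        rw [h1]
        exact ext_mem_spl _ _
      | zero => rw [tens_zero_right]; exact Submodule.zero_mem _
      | add c d _ _ hc hd =>
        have : tens C (C.ext a b) (c + d) = tens C (C.ext a b) c + tens C (C.ext a b) d :=
          map_add (tensL (C.ext a b)) c d
        rw [this]
        exact Submodule.add_mem _ hc hd
      | smul q c _ hc =>
        have : tens C (C.ext a b) (q • c) = q • tens C (C.ext a b) c :=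
          map_smul (tensL (C.ext a b)) q c
        rw [this]
        exact Submodule.smul_mem _ _ hc
    | zero => rw [tens_zero_left]; exact Submodule.zero_mem _
    | add a b _ _ ha hb =>
      have : tens C (a + b) w = tens C a w + tens C b w :=
        LinearMap.congr_fun (map_add (tensL (C := C) (X := X) (Y := X) (Z := Y) (W := Y)) a b) w
      rw [this]
      exact Submodule.add_mem _ ha hb
    | smul q a _ ha =>
      have : tens C (q • a) w = q • tens C a w :=
        LinearMap.congr_fun (map_smul (tensL (C := C) (X := X) (Y := X) (Z := Y) (W := Y)) q a) w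
      rw [this]
      exact Submodule.smul_mem _ _ ha
  rw [← tens_dg C]
  exact key _ hX _ hY

lemma spl_pow (hX : dg C X ∈ Spl C X X) (m : ℕ) :
    dg C (powObj X m) ∈ Spl C (powObj X m) (powObj X m) := by
  induction m with
  | zero => exact hX
  | succ m ih => exact spl_prod hX ih

end chow

end Pool.Agent.Q55.Nil
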