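import Pool.Agent.Q55.Nil.TF

/-!
# The function of a rectangle and colourings with even and odd colours
-/

set_option linter.unusedSectionVars false

namespace Pool.Agent.Q55.Nil

open Finset Equiv

section grid

variable {L : Type*} [Fintype L] [DecidableEq L]

omit [Fintype L] [DecidableEq L] in
lemma ais (ρ : Perm L) (x : L) : ρ (ρ⁻¹ x) = x := by
  rw [Perm.inv_def, Equiv.apply_symm_apply]

/-- Row permutations. -/
def RowP {A B : Type*} (e : L ≃ A × B) (ρ : Perm L) : Prop := ∀ x, (e (ρ x)).1 = (e x).1

/-- Column permutations. -/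
def ColP {A B : Type*} (e : L ≃ A × B) (κ : Perm L) : Prop := ∀ x, (e (κ x)).2 = (e x).2

lemma RowP.mul {A B : Type*} {e : L ≃ A × B} {ρ ρ' : Perm L} (h : RowP e ρ) (h' : RowP e ρ') :
    RowP e (ρ * ρ') := fun x => by rw [Perm.mul_apply, h, h']

lemma RowP.inv {A B : Type*} {e : L ≃ A × B} {ρ : Perm L} (h : RowP e ρ) : RowP e ρ⁻¹ := by
  intro x
  have := h (ρ⁻¹ x)
  rw [ais] at this
  exact this.symm

lemma ColP.mul {A B : Type*} {e : L ≃ A × B} {ρ ρ' : Perm L} (h : ColP e ρ) (h' : ColP e ρ') :
    ColP e (ρ * ρ') := fun x => by rw [Perm.mul_apply, h, h']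

lemma ColP.inv {A B : Type*} {e : L ≃ A × B} {ρ : Perm L} (h : ColP e ρ) : ColP e ρ⁻¹ := by
  intro x
  have := h (ρ⁻¹ x)
  rw [ais] at this
  exact this.symm

open Classical in
/-- The function of a grid: the sum of the signs of `κ` over the factorizations `σ = ρ κ` with a
row permutation `ρ` and a column permutation `κ`. -/
noncomputable def yG {A B : Type*} (e : L ≃ A × B) : Perm L → ℚ :=
  fun σ => ∑ κ : Perm L, if ColP e κ ∧ RowP e (σ * κ⁻¹) then ((Perm.sign κ : ℤ) : ℚ) else 0

lemma yG_one {A B : Type*} (e : L ≃ A × B) : yG e 1 = 1 := by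
  classical
  unfold yG
  rw [sum_eq_single 1]
  · rw [if_pos]
    · simp
    · refine ⟨fun x => rfl, fun x => ?_⟩
      simp
  · intro κ _ hκ
    rw [if_neg]
    rintro ⟨h1, h2⟩
    apply hκ
    rw [one_mul] at h2
    have h3 := h2.inv
    rw [inv_inv] at h3
    ext x
    exact e.injective (Prod.ext (h3 x) (h1 x))
  · intro h; exact absurd (mem_univ _) h

lemma yG_RC {A B : Type*} (e : L ≃ A × B) : RC e (yG e) := by
  classical
  constructor
  · intro ρ hρ σ
    have hρ' : RowP e ρ := hρ
    unfold yG
    apply sum_congr rfl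
    intro κ _
    have : (ColP e κ ∧ RowP e (ρ * σ * κ⁻¹)) ↔ (ColP e κ ∧ RowP e (σ * κ⁻¹)) := by
      constructor
      · rintro ⟨h1, h2⟩
        refine ⟨h1, ?_⟩
        have := hρ'.inv.mul h2
        simpa [mul_assoc] using this
      · rintro ⟨h1, h2⟩
        refine ⟨h1, ?_⟩
        rw [mul_assoc]
        exact hρ'.mul h2
    simp only [this]
  · intro κ' hκ' σ
    have hκ : ColP e κ' := hκ'
    unfold yG
    rw [← Equiv.sum_comp (Equiv.mulRight κ'), mul_sum]
    apply sum_congr rfl
    intro κ _
    rw [Equiv.coe_mulRight]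
    have e1 : σ * κ' * (κ * κ')⁻¹ = σ * κ⁻¹ := by
      rw [mul_inv_rev]
      group
    have e2 : ColP e (κ * κ') ↔ ColP e κ := by
      constructor
      · intro h
        have := h.mul hκ.inv
        simpa [mul_assoc] using this
      · intro h; exact h.mul hκ
    rw [e1]
    simp only [e2]
    split_ifs
    · rw [Perm.sign_mul]
      push_cast
      ring
    · rw [mul_zero]

end grid

section low

variable {L : Type*} [Fintype L] [DecidableEq L] {a b : ℕ} {e : L ≃ Fin a × Fin b}

/-- The colouring by rows. -/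
def rowc (e : L ≃ Fin a × Fin b) (x : L) : ℕ := (e x).1

lemma RC.rv {y : Perm L → ℚ} (h : RC e y) : RV Lt (fun _ => 1) (rowc e) y := by
  intro x z hxz hr
  funext σ
  rw [Lt_apply, Pi.smul_apply, one_smul, swap_inv]
  apply h.row
  exact swap_inv' (fun x => (e x).1) x z (Fin.ext hr)

/-- Pigeonhole: letters of `T` in more than `b` places. -/
lemma alt_zero {y : Perm L → ℚ} {T : Finset L} (hT : b < T.card)
    (hsym : ∀ u ∈ T, ∀ v ∈ T, u ≠ v → Lt (swap u v) y = y)
    (hcol : ∀ κ : Perm L, (∀ x, (e (κ x)).2 = (e x).2) → ∀ σ,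
      y (σ * κ) = ((Perm.sign κ : ℤ) : ℚ) * y σ) : y = 0 := by
  funext σ
  obtain ⟨u, hu, v, hv, huv, hc⟩ := Finset.exists_ne_map_eq_of_card_lt_of_maps_to
    (s := T) (t := (univ : Finset (Fin b))) (by rw [card_univ, Fintype.card_fin]; exact hT)
    (f := fun x => (e (σ⁻¹ x)).2) (fun x _ => mem_univ _)
  have h1 := congrFun (hsym u hu v hv huv) σ
  rw [Lt_apply, swap_inv] at h1
  have h2 : swap u v * σ = σ * swap (σ⁻¹ u) (σ⁻¹ v) := by
    have := swap_apply_apply σ (σ⁻¹ u) (σ⁻¹ v)
    rw [ais, ais] at this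
    rw [this]
    simp [mul_assoc]
  have hne : σ⁻¹ u ≠ σ⁻¹ v := fun h => huv (σ⁻¹.injective h)
  rw [h2, hcol _ (swap_inv' (fun x => (e x).2) _ _ hc), Perm.sign_swap hne] at h1
  push_cast at h1
  rw [Pi.zero_apply]
  linarith

lemma card_row (i : Fin a) : (univ.filter fun x => rowc e x = i).card = b := by
  have h3 : univ.filter (fun x => rowc e x = i) = univ.image (fun j : Fin b => e.symm (i, j)) := by
    ext x
    rw [mem_filter, mem_image]
    constructor
    · rintro ⟨-, hx⟩
      refine ⟨(e x).2, mem_univ _, ?_⟩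
      rw [Equiv.symm_apply_eq]
      exact Prod.ext (Fin.ext hx.symm) rfl
    · rintro ⟨j, -, rfl⟩
      refine ⟨mem_univ _, ?_⟩
      rw [rowc, Equiv.apply_symm_apply]
  rw [h3, card_image_of_injective, card_univ, Fintype.card_fin]
  intro j j' hj
  exact (Prod.mk.inj (e.symm.injective hj)).2

lemma RC.low {y : Perm L → ℚ} (h : RC e y) (z : L) (j : Fin a) (hj : (e z).1 ≠ j) :
    bs Lt (rowc e) j z y = -y := by
  have hne : rowc e z ≠ j := fun h => hj (Fin.ext h)
  have h1 := lower Lt (s := fun _ => 1) (by intro; norm_num) h.rv z j hne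
  rw [one_smul] at h1
  set y' := y + bs Lt (rowc e) j z y with hy'
  have h2 : y' = 0 := by
    apply alt_zero (e := e) (T := insert z (univ.filter fun x => rowc e x = j))
    · rw [card_insert_of_notMem (by simp [hne]), card_row]
      exact Nat.lt_succ_self b
    · intro u hu v hv huv
      have hc : ∀ w ∈ insert z (univ.filter fun x => rowc e x = j),
          Function.update (rowc e) z j w = j := by
        intro w hw
        by_cases hwz : w = z
        · rw [hwz, Function.update_self]
        · rw [Function.update_of_ne hwz]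
          rw [mem_insert, mem_filter] at hw
          rcases hw with hw | hw
          · exact absurd hw hwz
          · exact hw.2
      have := h1 u v huv (by rw [hc u hu, hc v hv])
      rwa [one_smul] at this
    · intro κ hκ σ
      rw [hy']
      simp only [bs, Pi.add_apply, Finset.sum_apply, Lt_apply]
      rw [h.col κ hκ, mul_add, mul_sum]
      congr 1
      apply sum_congr rfl
      intro x _
      rw [← mul_assoc, h.col κ hκ]
  rw [← add_eq_zero_iff_eq_neg', ← hy', h2]

lemma RC.jm {y : Perm L → ℚ} (h : RC e y) (z : L) : jm Lt z y = ((b : ℚ) - a) • y := by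
  have h0 : (univ.erase z : Finset L) =
      ((univ.filter fun x => rowc e x = (e z).1).erase z) ∪
        (univ.erase (e z).1).biUnion (fun j : Fin a => univ.filter fun x => rowc e x = j) := by
    ext x
    simp only [mem_erase, mem_univ, and_true, mem_union, mem_filter, true_and, mem_biUnion]
    constructor
    · intro hx
      by_cases hr : rowc e x = (e z).1
      · exact Or.inl ⟨hx, hr⟩
      · refine Or.inr ⟨(e x).1, ?_, rfl⟩
        intro h
        exact hr (congrArg Fin.val h)
    · rintro (⟨h1, _⟩ | ⟨j, h1, h2⟩)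
      · exact h1
      · rintro rfl
        apply h1
        exact Fin.ext h2.symm
  unfold Nil.jm
  rw [h0, sum_union, sum_biUnion]
  · have h1 : ∀ x ∈ (univ.filter fun x => rowc e x = (e z).1).erase z,
        Lt (swap x z) y = y := by
      intro x hx
      rw [mem_erase, mem_filter] at hx
      have := h.rv x z hx.1 hx.2.2
      rwa [one_smul] at this
    have h2 : ∀ j ∈ (univ.erase (e z).1 : Finset (Fin a)),
        ∑ x ∈ univ.filter (fun x => rowc e x = j), Lt (swap x z) y = -y := by
      intro j hj
      exact h.low z j (Ne.symm (mem_erase.1 hj).1)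
    rw [sum_congr rfl h1, sum_congr rfl h2, sum_const, sum_const, card_erase_of_mem
      (show z ∈ univ.filter (fun x => rowc e x = (e z).1) from mem_filter.2 ⟨mem_univ _, rfl⟩),
      card_row, card_erase_of_mem (mem_univ _), card_univ, Fintype.card_fin,
      ← Nat.cast_smul_eq_nsmul ℚ, ← Nat.cast_smul_eq_nsmul ℚ, smul_neg, ← sub_eq_add_neg,
      ← sub_smul]
    congr 1
    have hb : 1 ≤ b := by have := (e z).2.2; omega
    have ha : 1 ≤ a := by have := (e z).1.2; omega
    rw [Nat.cast_sub hb, Nat.cast_sub ha]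
    push_cast
    ring
  · intro j _ j' _ hjj'
    rw [Function.onFun, disjoint_left]
    intro x hx hx'
    simp only [mem_filter, mem_univ, true_and] at hx hx'
    exact hjj' (Fin.ext (hx.symm.trans hx'))
  · rw [disjoint_left]
    intro x hx hx'
    simp only [mem_erase, mem_filter, mem_univ, true_and, mem_biUnion, and_true] at hx hx'
    obtain ⟨j, h1, h2⟩ := hx'
    exact h1 (Fin.ext (h2.symm.trans hx.2))

/-- The two-sided invariant subspace generated by a function. -/
def gen (y : Perm L → ℚ) : Submodule ℚ (Perm L → ℚ) :=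
  Submodule.span ℚ (Set.range fun g : Perm L × Perm L => Lt g.1 (Rt g.2 y))

lemma mem_gen (y : Perm L → ℚ) : y ∈ gen y := by
  apply Submodule.subset_span
  refine ⟨(1, 1), ?_⟩
  simp only [map_one, Module.End.one_apply]

lemma Lt_Rt (g h : Perm L) (w : Perm L → ℚ) : Lt h (Rt g w) = Rt g (Lt h w) := by
  funext σ
  rw [Lt_apply, Rt_apply, Rt_apply, Lt_apply, mul_assoc]

lemma twoSided_gen (y : Perm L → ℚ) : TwoSided (gen y) := by
  constructor
  · intro g c hc
    induction hc using Submodule.span_induction with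
    | mem w hw =>
      obtain ⟨⟨g1, g2⟩, rfl⟩ := hw
      apply Submodule.subset_span
      exact ⟨(g * g1, g2), by simp only [map_mul, Module.End.mul_apply]⟩
    | zero => rw [map_zero]; exact Submodule.zero_mem _
    | add u v _ _ hu hv => rw [map_add]; exact Submodule.add_mem _ hu hv
    | smul q u _ hu => rw [map_smul]; exact Submodule.smul_mem _ _ hu
  · intro g c hc
    induction hc using Submodule.span_induction with
    | mem w hw =>
      obtain ⟨⟨g1, g2⟩, rfl⟩ := hw
      apply Submodule.subset_span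
      refine ⟨(g1, g * g2), ?_⟩
      simp only
      rw [← Lt_Rt, map_mul, Module.End.mul_apply]
    | zero => rw [map_zero]; exact Submodule.zero_mem _
    | add u v _ _ hu hv => rw [map_add]; exact Submodule.add_mem _ hu hv
    | smul q u _ hu => rw [map_smul]; exact Submodule.smul_mem _ _ hu

lemma jm_add {M : Type*} [AddCommGroup M] [Module ℚ M] (ρ : Perm L →* Module.End ℚ M) (z : L)
    (u v : M) : jm ρ z (u + v) = jm ρ z u + jm ρ z v := by
  unfold jm
  simp only [map_add, sum_add_distrib]

lemma jm_smul {M : Type*} [AddCommGroup M] [Module ℚ M] (ρ : Perm L →* Module.End ℚ M) (z : L)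
    (q : ℚ) (u : M) : jm ρ z (q • u) = q • jm ρ z u := by
  unfold jm
  simp only [map_smul, smul_sum]

lemma jm_gen {y : Perm L → ℚ} {κ : ℚ} (h : ∀ z, jm Lt z y = κ • y) :
    ∀ w ∈ gen y, ∀ z, jm Lt z w = κ • w := by
  intro w hw
  induction hw using Submodule.span_induction with
  | mem w hw =>
    obtain ⟨⟨g1, g2⟩, rfl⟩ := hw
    intro z
    simp only
    have h1 := jm_perm Lt g1 (g1⁻¹ z) (Rt g2 y)
    rw [ais] at h1
    rw [← h1]
    have h2 : jm Lt (g1⁻¹ z) (Rt g2 y) = Rt g2 (jm Lt (g1⁻¹ z) y) := by
      unfold jm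
      rw [map_sum]
      exact sum_congr rfl fun x _ => Lt_Rt _ _ _
    rw [h2, h, map_smul, map_smul]
  | zero => intro z; unfold jm; simp
  | add u v _ _ hu hv => intro z; rw [jm_add, hu, hv, smul_add]
  | smul q u _ hu => intro z; rw [jm_smul, hu, smul_comm]

/-- The signs of the colours: `p` even colours followed by odd colours. -/
def sg (p : ℕ) (i : ℕ) : ℚ := if i < p then 1 else -1

lemma sg_mul (p i : ℕ) : sg p i * sg p i = 1 := by
  unfold sg; split_ifs <;> norm_num

lemma sum_sg {p m : ℕ} (h : p ≤ m) : ∑ j ∈ range m, sg p j = 2 * p - m := by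
  induction m, h using Nat.le_induction with
  | base =>
    have : ∀ j ∈ range p, sg p j = 1 := fun j hj => if_pos (mem_range.1 hj)
    rw [sum_congr rfl this, sum_const, card_range, nsmul_eq_mul]
    ring
  | succ m hm ih =>
    rw [sum_range_succ, ih]
    have : sg p m = -1 := if_neg (by omega)
    rw [this]
    push_cast
    ring

/-- No vector of the subspace of the rectangle with `p + 1` rows and `q + 1` columns behaves like
a colouring with `p` even and `q` odd colours. -/
theorem no_hook {p q : ℕ} (e : L ≃ Fin (p + 1) × Fin (q + 1)) {y : Perm L → ℚ} (h : RC e y)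
    {r : L → ℕ} (hr : ∀ x, r x < p + q) {w : Perm L → ℚ} (hw : w ∈ gen y)
    (hv : RV Lt (sg p) r w) : w = 0 := by
  by_contra hne
  have hjm := jm_gen (κ := (q : ℚ) - p) (y := y) (fun z => by
    rw [h.jm z]
    congr 1
    push_cast
    ring)
  have hcard : Fintype.card L = (p + 1) * (q + 1) := by
    rw [Fintype.card_congr e, Fintype.card_prod, Fintype.card_fin, Fintype.card_fin]
  have : Nonempty L := ⟨e.symm (0, 0)⟩
  obtain ⟨r', w', hP, hw', hext⟩ := exists_extremal Lt (sg_mul p) (fun r => ∀ x, r x < p + q)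
    (by
      intro r y i hr hi x
      by_cases hx : x = y
      · rw [hx, Function.update_self]
        have := hr y
        omega
      · rw [Function.update_of_ne hx]; exact hr x) (gen y) (twoSided_gen y).lt hr hw hne hv
  obtain ⟨x0, hx0⟩ := Finite.exists_max r'
  set m := r' x0 with hm
  have hab : above r' m = 0 := by
    unfold above
    rw [card_eq_zero, filter_eq_empty_iff]
    intro x _
    have := hx0 x
    omega
  have hn : 0 < num r' m := card_pos.2 ⟨x0, by simp [hm]⟩
  have hmlt := hP x0
  by_cases hmp : p ≤ m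
  · have heq := hext.eq (hjm w' hw') m
    rw [hab, sum_sg hmp] at heq
    have hs : sg p m = -1 := if_neg (by omega)
    rw [hs] at heq
    push_cast at heq
    have hn' : (num r' m : ℚ) ≠ 0 := by positivity
    have h1 : ((q : ℚ) - p) = -((num r' m : ℚ) - 1) - (2 * p - m) := by
      have : ((q : ℚ) - p) * num r' m = (-((num r' m : ℚ) - 1) - (2 * p - m)) * num r' m := by
        linarith
      exact mul_right_cancel₀ hn' this
    have h2 : (1 : ℚ) ≤ num r' m := by exact_mod_cast hn
    have h3 : (m : ℚ) + 1 ≤ p + q := by exact_mod_cast hmlt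
    linarith
  · have hlt : ∀ x, r' x < p := fun x => by have := hx0 x; omega
    have hext' : Extremal Lt (fun _ => 1) r' w' := by
      constructor
      · intro x z hxz hrr
        have := hext.rv x z hxz hrr
        rwa [show sg p (r' x) = 1 from if_pos (hlt x)] at this
      · exact hext.ne
      · intro z i hi
        have := hext.low z i hi
        have h1 := hlt z
        rwa [show sg p i = 1 from if_pos (by omega)] at this
    obtain ⟨a', b', ha', hb', hab', hcard', hlt', hnum'⟩ := hext'.rect (by norm_num) (hjm w' hw')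
    have h1 : a' ≤ p := by
      have h2 := hnum' (a' - 1) (by omega)
      obtain ⟨x, hx⟩ := card_pos.1 (show 0 < num r' (a' - 1) by omega)
      have h3 : r' x = a' - 1 := by simpa using hx
      have h4 := hlt x
      omega
    have h5 : b' ≤ q := by
      have h6 : (a' : ℚ) ≤ p := by exact_mod_cast h1
      have h7 : (b' : ℚ) ≤ q := by rw [hab']; linarith
      exact_mod_cast h7
    have h8 : a' * b' ≤ p * q := Nat.mul_le_mul h1 h5
    rw [hcard] at hcard'
    nlinarith

/-- Orthogonal decomposition of a function. -/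
lemma exists_decomp (V : Submodule ℚ (Perm L → ℚ)) (F : Perm L → ℚ) :
    ∃ u ∈ V, ∃ v ∈ perp V, F = u + v := by
  have h : (⊤ : Submodule ℚ (Perm L → ℚ)) ≤ V ⊔ perp V := by
    apply le_of_inf_perp le_top
    rw [Submodule.eq_bot_iff]
    rintro w ⟨-, hw⟩
    have hwV : w ∈ perp V := fun c hc => hw c (Submodule.mem_sup_left hc)
    by_contra hne
    exact absurd (hw w (Submodule.mem_sup_right hwV)) (pr_self_pos hne).ne'
  obtain ⟨u, hu, v, hv, huv⟩ := Submodule.mem_sup.1 (h (Submodule.mem_top (x := F)))
  exact ⟨u, hu, v, hv, huv.symm⟩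

lemma inf_perp_eq_bot (V : Submodule ℚ (Perm L → ℚ)) {w : Perm L → ℚ} (h1 : w ∈ V)
    (h2 : w ∈ perp V) : w = 0 := by
  by_contra hne
  exact absurd (h2 w h1) (pr_self_pos hne).ne'

/-- The function of the rectangle with `p + 1` rows and `q + 1` columns is orthogonal to all
functions with the behaviour of a colouring with `p` even and `q` odd colours. -/
theorem sum_eq_zero_of_hook {M : Type*} [AddCommGroup M] [Module ℚ M] {p q : ℕ}
    (e : L ≃ Fin (p + 1) × Fin (q + 1)) {y : Perm L → ℚ} (h : RC e y)
    {r : L → ℕ} (hr : ∀ x, r x < p + q) (F : Perm L → M)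
    (hF : ∀ x z, x ≠ z → r x = r z → ∀ σ, F (swap x z * σ) = sg p (r x) • F σ) :
    ∑ σ, y σ • F σ = 0 := by
  -- the case of rational values
  have key : ∀ G : Perm L → ℚ, (∀ x z, x ≠ z → r x = r z → ∀ σ,
      G (swap x z * σ) = sg p (r x) * G σ) → pr y G = 0 := by
    intro G hG
    obtain ⟨u, hu, v, hv, huv⟩ := exists_decomp (gen y) G
    have hRV : RV Lt (sg p) r u := by
      intro x z hxz hrr
      have h1 : Lt (swap x z) G = sg p (r x) • G := by
        funext σ
        rw [Lt_apply, swap_inv, Pi.smul_apply, smul_eq_mul]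
        exact hG x z hxz hrr σ
      rw [huv, map_add, smul_add] at h1
      have h2 : Lt (swap x z) u - sg p (r x) • u = sg p (r x) • v - Lt (swap x z) v := by
        rw [sub_eq_sub_iff_add_eq_add, h1]
        abel
      have h3 : Lt (swap x z) u - sg p (r x) • u = 0 := by
        apply inf_perp_eq_bot (gen y)
        · exact Submodule.sub_mem _ ((twoSided_gen y).lt _ _ hu) (Submodule.smul_mem _ _ hu)
        · rw [h2]
          exact Submodule.sub_mem _ (Submodule.smul_mem _ _ hv)
            ((twoSided_perp (twoSided_gen y)).lt _ _ hv)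
      exact sub_eq_zero.1 h3
    have hu0 := no_hook e h hr hu hRV
    rw [hu0, zero_add] at huv
    rw [huv]
    exact hv y (mem_gen y)
  rw [← Module.forall_dual_apply_eq_zero_iff ℚ]
  intro φ
  rw [map_sum]
  have h1 := key (fun σ => φ (F σ)) (fun x z hxz hrr σ => by
    rw [hF x z hxz hrr, map_smul, smul_eq_mul])
  unfold pr at h1
  rw [← h1]
  apply sum_congr rfl
  intro σ _
  rw [map_smul, smul_eq_mul]

/-- A nonzero two-sided invariant subspace contains a nonzero idempotent of the group algebra. -/
theorem exists_idem {W : Submodule ℚ (Perm L → ℚ)} (hW : TwoSided W) (hne : W ≠ ⊥) :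
    ∃ c ∈ W, c ≠ 0 ∧ ∀ ρ, ∑ τ, c (ρ * τ⁻¹) * c τ = c ρ := by
  classical
  let δ : Perm L → ℚ := fun σ => if σ = 1 then 1 else 0
  obtain ⟨c, hc, c', hc', hδ⟩ := exists_decomp W δ
  refine ⟨c, hc, ?_, ?_⟩
  · rintro rfl
    rw [zero_add] at hδ
    apply hne
    rw [Submodule.eq_bot_iff]
    intro w hw
    funext σ
    have h1 := (twoSided_perp hW).lt σ _ hc' w hw
    rw [← hδ] at h1
    unfold pr at h1
    rw [sum_eq_single σ] at h1
    · rw [Lt_apply, inv_mul_cancel] at h1
      simpa [δ] using h1
    · intro τ _ hτ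
      rw [Lt_apply]
      have : σ⁻¹ * τ ≠ 1 := by
        intro h
        apply hτ
        rw [inv_mul_eq_one] at h
        exact h.symm
      simp [δ, this]
    · intro h; exact absurd (mem_univ _) h
  · intro ρ
    have e1 : (fun ρ => ∑ τ, c' (ρ * τ⁻¹) * c τ) = 0 := by
      apply inf_perp_eq_bot W
      · have h1 : (fun ρ => ∑ τ, c' (ρ * τ⁻¹) * c τ) = ∑ τ, c' τ • Lt τ c := by
          funext ρ
          rw [Finset.sum_apply]
          symm
          rw [← Equiv.sum_comp ((Equiv.inv (Perm L)).trans (Equiv.mulLeft ρ))]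
          apply sum_congr rfl
          intro τ _
          rw [Pi.smul_apply, smul_eq_mul, Lt_apply, Equiv.trans_apply, Equiv.coe_mulLeft,
            Equiv.inv_apply, mul_inv_rev, inv_inv, inv_mul_cancel_right]
        rw [h1]
        exact W.sum_mem fun τ _ => W.smul_mem _ (hW.lt _ _ hc)
      · have h1 : (fun ρ => ∑ τ, c' (ρ * τ⁻¹) * c τ) = ∑ τ, c τ • Rt τ⁻¹ c' := by
          funext ρ
          rw [Finset.sum_apply]
          apply sum_congr rfl
          intro τ _
          rw [Pi.smul_apply, smul_eq_mul, Rt_apply, mul_comm]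
        rw [h1]
        exact Submodule.sum_mem _ fun τ _ => Submodule.smul_mem _ _
          ((twoSided_perp hW).rt _ _ hc')
    have e2 : ∑ τ, δ (ρ * τ⁻¹) * c τ = c ρ := by
      rw [sum_eq_single ρ]
      · simp [δ]
      · intro τ _ hτ
        have : ρ * τ⁻¹ ≠ 1 := by
          intro h
          apply hτ
          rw [mul_inv_eq_one] at h
          exact h.symm
        simp [δ, this]
      · intro h; exact absurd (mem_univ _) h
    have e3 : ∑ τ, c' (ρ * τ⁻¹) * c τ = 0 := congrFun e1 ρ
    rw [← e2, hδ]
    simp only [Pi.add_apply, add_mul, sum_add_distrib]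
    rw [e3, add_zero]

end low

end Pool.Agent.Q55.Nil
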