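import Pool.Agent.Q55.Nil.Nilp
import Pool.Agent.Q55.Nil.Hook
import Pool.Agent.Y110.Pow

/-!
# Powers of a variety and blocks of permutations
-/

open CategoryTheory AlgebraicGeometry

universe u v w

namespace Pool.Agent.Q55.Nil

open Pool.Agent.H914 Pool.Agent.H914.VarClass Pool.Agent.H914.VarClass.Obj Pool.Agent.W492.BB
  Pool.Agent.W550.Corr Pool.Agent.TH133 Pool.Agent.TH829.Prime Pool.Agent.TH829.Kim
  Pool.Agent.Y110

set_option linter.unusedSectionVars false

variable {k : Type u} [Field k] {𝒱 : VarClass k}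

section blk

variable {ι J : Type} [Fintype ι] [DecidableEq ι] [Fintype J] [DecidableEq J]

/-- The permutation of the blocks. -/
def blkE (J : Type) (σ : Equiv.Perm ι) : Equiv.Perm (ι × J) := Equiv.prodCongr σ (Equiv.refl J)

lemma blkE_apply (σ : Equiv.Perm ι) (x : ι × J) : blkE J σ x = (σ x.1, x.2) := rfl

/-- The combination of permutations of the blocks. -/
def blk (J : Type) [Fintype J] [DecidableEq J] (c : Equiv.Perm ι → ℚ) : Equiv.Perm (ι × J) → ℚ :=
  fun ρ => ∑ σ, if blkE J σ = ρ then c σ else 0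

lemma sum_blk {M : Type*} [AddCommGroup M] [Module ℚ M] (c : Equiv.Perm ι → ℚ)
    (G : Equiv.Perm (ι × J) → M) : ∑ ρ, blk J c ρ • G ρ = ∑ σ, c σ • G (blkE J σ) := by
  simp only [blk, Finset.sum_smul]
  rw [Finset.sum_comm]
  apply Finset.sum_congr rfl
  intro σ _
  rw [Finset.sum_eq_single (blkE J σ)]
  · rw [if_pos rfl]
  · intro ρ _ hρ
    rw [if_neg (Ne.symm hρ), zero_smul]
  · intro h; exact absurd (Finset.mem_univ _) h

end blk

section chow

variable {C : TheoryData.{u, v, 0} 𝒱 ℚ} [hC : IsChowProj C] {X Y Z W V P : 𝒱.Obj}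
  {ι : Type} [Fintype ι] [DecidableEq ι] {κ : Type} [Fintype κ] [DecidableEq κ]

/-- The projections of the power `X^(m + 1)`. -/
noncomputable def powPr (X : 𝒱.Obj) : ∀ m : ℕ, Fin (m + 1) → (powObj X m ⟶ X)
  | 0 => fun _ => 𝟙 X
  | m + 1 => consPr (powPr X m)

lemma isPow_powPr (X : 𝒱.Obj) (m : ℕ) : IsPow (powPr X m) := by
  induction m with
  | zero => exact isPow_one X
  | succ m ih => exact ih.succ

lemma dim_powObj (X : 𝒱.Obj) (m : ℕ) : (powObj X m).dim = (m + 1) * X.dim := by
  induction m with
  | zero => rw [zero_add, one_mul]; rfl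
  | succ m ih =>
    rw [powObj, dim_prod, ih]
    ring

include hC

lemma ev_tens (a : C.A (X.prod X)) (b : C.A (P.prod P)) (x y : W ⟶ X.prod P) :
    ev (tens C a b) x y = ev a (x ≫ fst X P) (y ≫ fst X P) * ev b (x ≫ snd X P) (y ≫ snd X P) := by
  have e1 : Obj.lift x y ≫ prodMap (fst X P) (fst X P) =
      Obj.lift (x ≫ fst X P) (y ≫ fst X P) := by
    apply prod_ext <;> simp
  have e2 : Obj.lift x y ≫ prodMap (snd X P) (snd X P) =
      Obj.lift (x ≫ snd X P) (y ≫ snd X P) := by
    apply prod_ext <;> simp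
  rw [ev, tens, map_mul, ← C.pull_comp, ← C.pull_comp, e1, e2]
  rfl

/-- The diagonal of the power. -/
lemma ev_dg_pow (X : 𝒱.Obj) (m : ℕ) (x y : W ⟶ powObj X m) :
    ev (dg C (powObj X m)) x y = ∏ j, ev (dg C X) (x ≫ powPr X m j) (y ≫ powPr X m j) := by
  induction m with
  | zero =>
    have key : ∀ x y : W ⟶ X, ev (dg C X) x y =
        ∏ _j : Fin 1, ev (dg C X) (x ≫ 𝟙 X) (y ≫ 𝟙 X) := by
      intro x y
      rw [Fin.prod_univ_succ, Fin.prod_univ_zero, mul_one, Category.comp_id, Category.comp_id]
    exact key x y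
  | succ m ih =>
    have key : ∀ x y : W ⟶ X.prod (powObj X m), ev (dg C (X.prod (powObj X m))) x y =
        ∏ j, ev (dg C X) (x ≫ consPr (powPr X m) j) (y ≫ consPr (powPr X m) j) := by
      intro x y
      rw [← tens_dg C, ev_tens, ih, Fin.prod_univ_succ (n := m + 1)]
      congr 1
    exact key x y

/-- The combinations of permutations of a power of `X^(m + 1)`. -/
lemma blk_mem_iff {I : Family C} (X : 𝒱.Obj) (m : ℕ) {c : Equiv.Perm ι → ℚ} :
    blk (Fin (m + 1)) c ∈ KI I X (ι × Fin (m + 1)) ↔ c ∈ KI I (powObj X m) ι := by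
  have hcard : ((Fintype.card (ι × Fin (m + 1)) : ℕ) : ℤ) * X.dim =
      (Fintype.card ι : ℤ) * (powObj X m).dim := by
    rw [Fintype.card_prod, Fintype.card_fin, dim_powObj]
    push_cast
    ring
  have key : ∀ {W : 𝒱.Obj} (x' y' : ι → (W ⟶ powObj X m)),
      fc (blk (Fin (m + 1)) c) (fun _ => dg C X) (fun i => x' i.1 ≫ powPr X m i.2)
        (fun i => y' i.1 ≫ powPr X m i.2) = fc c (fun _ => dg C (powObj X m)) x' y' := by
    intro W x' y'
    rw [fc, sum_blk, fc]
    apply Finset.sum_congr rfl
    intro σ _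
    rw [Fintype.prod_prod_type]
    congr 1
    apply Finset.prod_congr rfl
    intro i _
    rw [ev_dg_pow]
    rfl
  constructor
  · intro h W x' y'
    have h1 := h W (fun i => x' i.1 ≫ powPr X m i.2) (fun i => y' i.1 ≫ powPr X m i.2)
    rw [key, hcard] at h1
    exact h1
  · intro h W x y
    choose x' hx' using fun i : ι => (isPow_powPr X m).exists_lift W (fun j => x (i, j))
    choose y' hy' using fun i : ι => (isPow_powPr X m).exists_lift W (fun j => y (i, j))
    have h1 := h W x' y'
    rw [← key, ← hcard] at h1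
    have e1 : (fun i : ι × Fin (m + 1) => x' i.1 ≫ powPr X m i.2) = x := by
      funext i
      exact hx' i.1 i.2
    have e2 : (fun i : ι × Fin (m + 1) => y' i.1 ≫ powPr X m i.2) = y := by
      funext i
      exact hy' i.1 i.2
    rwa [e1, e2] at h1

/-- Relations between permutations descend along lifts. -/
lemma unlift {I : Family C} (hI : IsAdequate C I) [Nonempty κ] (f : κ ↪ ι) {c : Equiv.Perm κ → ℚ}
    (h : liftE f c ∈ KI I X ι) : c ∈ KI I X κ := by
  classical
  have key : ∀ T : Finset ι, T ⊆ Finset.univ.filter (fun i => i ∉ Set.range f) →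
      ∀ (W : 𝒱.Obj) (x y : ι → (W ⟶ X)),
      (∏ i ∈ (Finset.univ.filter (fun i => i ∉ Set.range f)) \ T, ev (dg C X) (x i) (y i)) *
        fc c (fun _ => dg C X) (fun j => x (f j)) (fun j => y (f j)) ∈
      I W ((Fintype.card ι - T.card) * X.dim) := by
    intro T
    induction T using Finset.induction_on with
    | empty =>
      intro _ W x y
      have h1 := h W x y
      rw [fc_liftE] at h1
      rw [Finset.sdiff_empty]
      refine hI.congr ?_ h1
      push_cast [Finset.card_empty]
      ring
    | insert i T hiT ih =>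
      intro hT W x y
      have hiF : i ∈ Finset.univ.filter (fun i => i ∉ Set.range f) :=
        hT (Finset.mem_insert_self _ _)
      have hir : i ∉ Set.range f := (Finset.mem_filter.1 hiF).2
      have h1 := ih (fun j hj => hT (Finset.mem_insert_of_mem hj)) (W.prod X)
        (fun j => fst W X ≫ x j) (Function.update (fun j => fst W X ≫ y j) i (snd W X))
      have h2 : i ∈ (Finset.univ.filter (fun i => i ∉ Set.range f)) \ T :=
        Finset.mem_sdiff.2 ⟨hiF, hiT⟩
      have h3 : ((Finset.univ.filter (fun i => i ∉ Set.range f)) \ T).erase i =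
          (Finset.univ.filter (fun i => i ∉ Set.range f)) \ (insert i T) := by
        ext j
        simp only [Finset.mem_erase, Finset.mem_sdiff, Finset.mem_insert, not_or]
        tauto
      rw [← Finset.mul_prod_erase _ _ h2, Function.update_self, h3] at h1
      have h4 : ∏ j ∈ (Finset.univ.filter (fun i => i ∉ Set.range f)) \ (insert i T),
          ev (dg C X) (fst W X ≫ x j)
            (Function.update (fun j => fst W X ≫ y j) i (snd W X) j) =
          C.pull (fst W X) (∏ j ∈ (Finset.univ.filter (fun i => i ∉ Set.range f)) \ (insert i T),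
            ev (dg C X) (x j) (y j)) := by
        rw [map_prod]
        apply Finset.prod_congr rfl
        intro j hj
        have hji : j ≠ i := by
          rintro rfl
          exact (Finset.mem_sdiff.1 hj).2 (Finset.mem_insert_self _ _)
        rw [Function.update_of_ne hji, pull_ev]
      have h5 : (fun j => Function.update (fun j => fst W X ≫ y j) i (snd W X) (f j)) =
          fun j => fst W X ≫ y (f j) := by
        funext j
        rw [Function.update_of_ne]
        rintro rfl
        exact hir ⟨j, rfl⟩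
      rw [h4, h5, ← pull_fc, mul_assoc, ← map_mul] at h1
      have h6 := hI.push_mem (fst W X) h1
      have h7 : C.push (fst W X) (ev (dg C X) (fst W X ≫ x i) (snd W X)) = 1 := by
        have h8 := ev_comp (dg C X) (1 : C.A (X.prod X)) (x i) (x i)
        rw [dg_comp] at h8
        have h9 : ∀ {V : 𝒱.Obj} (a b : V ⟶ X), ev (1 : C.A (X.prod X)) a b = 1 :=
          fun a b => map_one _
        rw [h9, h9, mul_one] at h8
        exact h8.symm
      rw [TheoryData.down, C.proj_right, h7, one_mul] at h6
      refine hI.congr ?_ h6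
      have e0 : ((W.prod X).dim : ℤ) = W.dim + X.dim := by exact_mod_cast dim_prod W X
      rw [e0, Finset.card_insert_of_notMem hiT]
      push_cast
      ring
  intro W x' y'
  obtain ⟨j0⟩ : Nonempty κ := inferInstance
  let x : ι → (W ⟶ X) := fun i => if h : ∃ j, f j = i then x' h.choose else x' j0
  let y : ι → (W ⟶ X) := fun i => if h : ∃ j, f j = i then y' h.choose else y' j0
  have hx : (fun j => x (f j)) = x' := by
    funext j
    have h : ∃ j', f j' = f j := ⟨j, rfl⟩
    have e : x (f j) = x' h.choose := dif_pos h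
    rw [e, f.injective h.choose_spec]
  have hy : (fun j => y (f j)) = y' := by
    funext j
    have h : ∃ j', f j' = f j := ⟨j, rfl⟩
    have e : y (f j) = y' h.choose := dif_pos h
    rw [e, f.injective h.choose_spec]
  have h1 := key _ (Finset.Subset.refl _) W x y
  rw [Finset.sdiff_self, Finset.prod_empty, one_mul, hx, hy] at h1
  refine hI.congr ?_ h1
  have h2 : (Finset.univ.filter (fun i => i ∉ Set.range f)).card + Fintype.card κ =
      Fintype.card ι := by
    have e : Fintype.card κ = (Finset.univ.filter (fun i => ¬ i ∉ Set.range f)).card := by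
      have e1 : Finset.univ.filter (fun i => ¬ i ∉ Set.range f) = Finset.univ.image f := by
        ext i
        simp
      rw [e1, Finset.card_image_of_injective _ f.injective, Finset.card_univ]
    rw [e, Finset.card_filter_add_card_filter_not, Finset.card_univ]
  rw [← h2]
  push_cast
  ring

/-- If numerically trivial idempotents of the power `X^(m + 1)` are equivalent to zero then
numerically trivial idempotent combinations of permutations of lower powers are. -/
lemma mem_of_noPhantoms {I : Family C} (hI : IsAdequate C I) {m : ℕ}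
    (h : ∀ f : C.A ((powObj X m).prod (powObj X m)), C.Deg (powObj X m).dim f → C.comp f f = f →
      NumTrivial C (powObj X m).dim f → f ∈ I ((powObj X m).prod (powObj X m)) (powObj X m).dim)
    [Nonempty κ] (g : κ ↪ Fin (m + 1)) {c : Equiv.Perm κ → ℚ}
    (hne : ∀ X : 𝒱.Obj, (1 : C.A X) ≠ 0) (hc : c ∈ KI (numFam C) X κ)
    (hidem : ∀ ρ, ∑ τ, c (ρ * τ⁻¹) * c τ = c ρ) : c ∈ KI I X κ := by
  set P := powObj X m with hP
  have hpow := isPow_powPr X m
  let x : Fin (m + 1) → (P.prod P ⟶ X) := fun i => fst P P ≫ powPr X m i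
  let y : Fin (m + 1) → (P.prod P ⟶ X) := fun i => snd P P ≫ powPr X m i
  set Γ : C.A (P.prod P) := fc (liftE g c) (fun _ => dg C X) x y with hΓ
  have hdim : ((Fintype.card (Fin (m + 1)) : ℕ) : ℤ) * X.dim = P.dim := by
    rw [hP, dim_powObj, Fintype.card_fin]
    push_cast
    ring
  have hG : ∀ σ : Equiv.Perm (Fin (m + 1)), hpow.G (C := C) σ =
      ∏ i, ev (dg C X) (x i) (y (σ i)) := by
    intro σ
    have h1 := hpow.G_mul_epow (C := C) σ (dg C X)
    have h2 : epow (powPr X m) (dg C X) = dg C P := by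
      rw [← ev_univ (dg C P), ev_dg_pow]
      rfl
    rw [h2, dg_comp] at h1
    exact h1
  have hΓ2 : Γ = ∑ τ, c τ • hpow.G (C := C) (via g τ) := by
    rw [hΓ, fc, sum_liftE]
    apply Finset.sum_congr rfl
    intro τ _
    rw [hG]
  have hmem : Γ ∈ C.gr (P.prod P) P.dim := by
    have := fc_mem (liftE g c) (p := fun _ => dg C X) (fun _ => dg_mem C X) x y
    rwa [hdim] at this
  have hcomp : C.comp Γ Γ = Γ := by
    have h1 : C.comp Γ Γ = ∑ σ, ∑ τ, (c σ * c τ) • hpow.G (C := C) (via g (τ * σ)) := by
      rw [hΓ2, sum_comp]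
      apply Finset.sum_congr rfl
      intro σ _
      rw [comp_sum]
      apply Finset.sum_congr rfl
      intro τ _
      rw [via_mul, ← hpow.G_mul]
      have e1 : C.comp (c σ • hpow.G (C := C) (via g σ)) (c τ • hpow.G (via g τ)) =
          compL C (c σ • hpow.G (via g σ)) (c τ • hpow.G (via g τ)) := rfl
      rw [e1, map_smul, LinearMap.map_smul₂, smul_smul, mul_comm (c σ)]
      rfl
    rw [h1, hΓ2]
    have h2 : ∀ σ, ∑ τ, (c σ * c τ) • hpow.G (C := C) (via g (τ * σ)) =
        ∑ ρ, (c σ * c (ρ * σ⁻¹)) • hpow.G (C := C) (via g ρ) := by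
      intro σ
      rw [← Equiv.sum_comp (Equiv.mulRight σ) (fun ρ => (c σ * c (ρ * σ⁻¹)) •
        hpow.G (C := C) (via g ρ))]
      apply Finset.sum_congr rfl
      intro τ _
      rw [Equiv.coe_mulRight, mul_inv_cancel_right]
    rw [Finset.sum_congr rfl (fun σ _ => h2 σ), Finset.sum_comm]
    apply Finset.sum_congr rfl
    intro ρ _
    rw [← Finset.sum_smul, ← hidem ρ]
    congr 1
    exact Finset.sum_congr rfl fun τ _ => mul_comm _ _
  have hnum : NumTrivial C P.dim Γ := by
    have h1 := KI_lift (isAdequate_numFam hne) g hc (P.prod P) x y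
    rw [hdim] at h1
    exact h1.2
  have hΓI := h Γ hmem hcomp hnum
  apply unlift hI g
  intro W x' y'
  obtain ⟨g1, h1⟩ := hpow.exists_lift W x'
  obtain ⟨g2, h2⟩ := hpow.exists_lift W y'
  have h3 := hI.pull_mem (Obj.lift g1 g2) hΓI
  rw [TheoryData.up, hΓ, pull_fc] at h3
  have h5 : (fun i => Obj.lift g1 g2 ≫ x i) = x' := by
    funext i
    simp only [x]
    rw [lift_fst_assoc, h1]
  have h6 : (fun i => Obj.lift g1 g2 ≫ y i) = y' := by
    funext i
    simp only [y]
    rw [lift_snd_assoc, h2]
  rw [h5, h6] at h3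
  exact hI.congr hdim.symm h3

end chow

end Pool.Agent.Q55.Nil
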