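import Pool.Agent.Q55.Nil.Trans

/-!
# Long cycles and iterated partial traces
-/

set_option linter.unusedSectionVars false

namespace Pool.Agent.Q55.Nil

open Finset Equiv

/-- The permutation has no proper nonempty invariant subset. -/
def Long {L : Type*} (σ : Perm L) : Prop :=
  ∀ s : Set L, s.Nonempty → (∀ x ∈ s, σ x ∈ s) → s = Set.univ

lemma long_via {κ ι : Type} [Fintype κ] [DecidableEq κ] [Fintype ι] [DecidableEq ι] (e : κ ≃ ι)
    (σ : Perm κ) : Long (via e.toEmbedding σ) ↔ Long σ := by
  have hv : ∀ x, via e.toEmbedding σ (e x) = e (σ x) := fun x => via_img e.toEmbedding σ x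
  constructor
  · intro h s hs hinv
    have h1 := h (e '' s) (hs.image e) (by
      rintro _ ⟨x, hx, rfl⟩
      rw [hv]
      exact ⟨σ x, hinv x hx, rfl⟩)
    ext x
    simp only [Set.mem_univ, iff_true]
    have h2 : e x ∈ e '' s := by rw [h1]; trivial
    obtain ⟨y, hy, hxy⟩ := h2
    rwa [e.injective hxy] at hy
  · intro h s hs hinv
    have h1 := h (e ⁻¹' s) (by
      obtain ⟨y, hy⟩ := hs
      obtain ⟨x, rfl⟩ := e.surjective y
      exact ⟨x, hy⟩) (by
      intro x hx
      change e (σ x) ∈ s
      rw [← hv]
      exact hinv _ hx)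
    ext y
    simp only [Set.mem_univ, iff_true]
    obtain ⟨x, rfl⟩ := e.surjective y
    have h2 : x ∈ e ⁻¹' s := by rw [h1]; trivial
    exact h2

section

variable {κ : Type} [Fintype κ] [DecidableEq κ]

lemma dec_none (p : Option κ) (τ : Perm κ) : (swap none p * optionCongr τ : Perm (Option κ)) none =
    p := by
  rw [Perm.mul_apply]
  have : (optionCongr τ : Perm (Option κ)) none = none := rfl
  rw [this, swap_apply_left]

lemma dec_some (u x : κ) (τ : Perm κ) :
    (swap none (some u) * optionCongr τ : Perm (Option κ)) (some x) =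
      if τ x = u then none else some (τ x) := by
  rw [Perm.mul_apply]
  have : (optionCongr τ : Perm (Option κ)) (some x) = some (τ x) := rfl
  rw [this]
  split_ifs with h
  · rw [h, swap_apply_right]
  · rw [swap_apply_of_ne_of_ne (Option.some_ne_none _) (by
      intro h'; exact h (Option.some_injective _ h'))]

lemma long_dec (u : κ) (τ : Perm κ) :
    Long (swap none (some u) * optionCongr τ : Perm (Option κ)) ↔ Long τ := by
  constructor
  · intro h t ht hinv
    by_cases hu : u ∈ t
    · have h1 := h (insert none (some '' t)) ⟨none, Or.inl rfl⟩ (by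
        rintro x (rfl | ⟨x, hx, rfl⟩)
        · rw [dec_none]; exact Or.inr ⟨u, hu, rfl⟩
        · rw [dec_some]
          split_ifs with h2
          · exact Or.inl rfl
          · exact Or.inr ⟨_, hinv x hx, rfl⟩)
      ext x
      simp only [Set.mem_univ, iff_true]
      have h2 : some x ∈ insert none (some '' t) := by rw [h1]; trivial
      rcases h2 with h2 | ⟨y, hy, h2⟩
      · exact absurd h2 (Option.some_ne_none _)
      · rwa [Option.some_injective _ h2] at hy
    · have h1 := h (some '' t) (ht.image _) (by
        rintro _ ⟨x, hx, rfl⟩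
        rw [dec_some, if_neg]
        · exact ⟨_, hinv x hx, rfl⟩
        · intro h2
          exact hu (h2 ▸ hinv x hx))
      have h2 : (none : Option κ) ∈ some '' t := by rw [h1]; trivial
      obtain ⟨y, _, h3⟩ := h2
      exact absurd h3 (Option.some_ne_none _)
  · intro h s hs hinv
    by_cases hn : none ∈ s
    · have hu : some u ∈ s := by
        have := hinv none hn
        rwa [dec_none] at this
      have h1 := h {x | some x ∈ s} ⟨u, hu⟩ (by
        intro x hx
        have h2 := hinv (some x) hx
        rw [dec_some] at h2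
        split_ifs at h2 with h3
        · change some (τ x) ∈ s
          rw [h3]; exact hu
        · exact h2)
      ext x
      simp only [Set.mem_univ, iff_true]
      cases x with
      | none => exact hn
      | some x =>
        have h2 : x ∈ {x | some x ∈ s} := by rw [h1]; trivial
        exact h2
    · exfalso
      have hne : ({x | some x ∈ s} : Set κ).Nonempty := by
        obtain ⟨y, hy⟩ := hs
        cases y with
        | none => exact absurd hy hn
        | some y => exact ⟨y, hy⟩
      have h3 : ∀ x, some x ∈ s → τ x ≠ u ∧ some (τ x) ∈ s := by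
        intro x hx
        have h2 := hinv (some x) hx
        rw [dec_some] at h2
        split_ifs at h2 with h3
        · exact absurd h2 hn
        · exact ⟨h3, h2⟩
      have h1 := h {x | some x ∈ s} hne (fun x hx => (h3 x hx).2)
      have h4 : τ.symm u ∈ {x | some x ∈ s} := by rw [h1]; trivial
      exact (h3 _ h4).1 (τ.apply_symm_apply u)

open Classical in
/-- The sum over the long cycles. -/
noncomputable def lsum {L : Type*} [Fintype L] [DecidableEq L] (c : Perm L → ℚ) : ℚ :=
  ∑ σ, if Long σ then c σ else 0

lemma lsum_ptr [Nonempty κ] (c : Perm (Option κ) → ℚ) : lsum (ptr 0 c) = lsum c := by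
  classical
  unfold lsum
  have h0 : ∀ τ : Perm κ, ¬ Long (swap none none * optionCongr τ : Perm (Option κ)) := by
    intro τ h
    have h1 := h {none} ⟨none, rfl⟩ (by
      rintro x hx
      rw [Set.mem_singleton_iff] at hx
      rw [hx, dec_none]
      rfl)
    obtain ⟨x⟩ := ‹Nonempty κ›
    have h2 : some x ∈ ({none} : Set (Option κ)) := by rw [h1]; trivial
    exact absurd h2 (Option.some_ne_none _)
  have h1 : ∑ σ : Perm (Option κ), (if Long σ then c σ else 0) =
      ∑ τ : Perm κ, ∑ p : Option κ, (if Long (swap none p * optionCongr τ : Perm (Option κ)) then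
        c (swap none p * optionCongr τ) else 0) := by
    rw [← Equiv.sum_comp Equiv.Perm.decomposeOption.symm, Fintype.sum_prod_type_right]
    rfl
  rw [h1]
  apply sum_congr rfl
  intro τ _
  rw [Fintype.sum_option, if_neg (h0 τ), zero_add, ptr]
  have h2 : ∀ u : κ, (if Long (swap none (some u) * optionCongr τ : Perm (Option κ)) then
      c (swap none (some u) * optionCongr τ) else 0) =
      if Long τ then c (swap none (some u) * optionCongr τ) else 0 := by
    intro u
    simp only [long_dec]
  rw [sum_congr rfl (fun u _ => h2 u)]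
  split_ifs with h3
  · rw [zero_mul, zero_add]
  · rw [sum_const_zero]

lemma lsum_liftE {ι : Type} [Fintype ι] [DecidableEq ι] (e : κ ≃ ι) (c : Perm κ → ℚ) :
    lsum (liftE e.toEmbedding c) = lsum c := by
  classical
  unfold lsum
  have hb : Function.Bijective (fun σ : Perm κ => via e.toEmbedding σ) :=
    ⟨via_inj _, fun ρ => via_surj e ρ⟩
  rw [← Function.Bijective.sum_comp hb]
  apply sum_congr rfl
  intro σ _
  rw [liftE_via]
  simp only [long_via]

/-- The combination of permutations of one letter given by the sum over the long cycles. -/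
theorem PFam.long (𝒦 : PFam 0) (h0 : 𝒦.K (Fin 0) = ⊥) (n : ℕ) {c : Perm (Fin n) → ℚ}
    (hc : c ∈ 𝒦.K (Fin n)) (hl : lsum c ≠ 0) : 𝒦.K (Fin 1) ≠ ⊥ := by
  cases n with
  | zero =>
    exfalso
    rw [h0, Submodule.mem_bot] at hc
    apply hl
    rw [hc]
    unfold lsum
    simp
  | succ n =>
    induction n with
    | zero =>
      intro h
      have h2 : c ∈ 𝒦.K (Fin 1) := hc
      rw [h, Submodule.mem_bot] at h2
      apply hl
      rw [h2]
      unfold lsum
      simp
    | succ n ih =>
      let e : Fin (n + 1 + 1) ≃ Option (Fin (n + 1)) := finSuccEquiv (n + 1)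
      have h1 : Nil.ptr 0 (liftE e.toEmbedding c) ∈ 𝒦.K (Fin (n + 1)) := 𝒦.ptr (𝒦.lift _ hc)
      exact ih h1 (by rw [lsum_ptr, lsum_liftE]; exact hl)

end

end Pool.Agent.Q55.Nil
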