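import Pool.Agent.Q55.Nil.StmtE
import Pool.Agent.Q55.Nil.Long

/-!
# The phantom part of a variety with algebraic cohomology
-/

open CategoryTheory AlgebraicGeometry

universe u v w

namespace Pool.Agent.Q55.Nil

open Pool.Agent.H914 Pool.Agent.H914.VarClass Pool.Agent.H914.VarClass.Obj Pool.Agent.W492.BB
  Pool.Agent.W550.Corr Pool.Agent.TH133 Pool.Agent.TH829.Prime Pool.Agent.TH829.Kim
open Pool.Agent.Y110 (GradedCommutative)

set_option linter.unusedSectionVars false

variable {k : Type u} [Field k] {𝒱 : VarClass k}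

section chow

variable {C : TheoryData.{u, v, 0} 𝒱 ℚ} [hC : IsChowProj C] {X Y Z W V P : 𝒱.Obj}

include hC

lemma relOf_iff {e : C.A (X.prod X)} {n : ℕ} {c : Equiv.Perm (Fin n) → ℚ} :
    S.RelOf C e c ↔ c ∈ KE (ratFam C) e (Fin n) := by
  have h1 : ∀ (W : 𝒱.Obj) (x y : Fin n → (W ⟶ X)),
      ∑ σ, c σ • (List.ofFn fun i => C.up (Obj.lift (x i) (y (σ i))) e).prod =
        fc c (fun _ => e) x y := by
    intro W x y
    unfold fc
    apply Finset.sum_congr rfl
    intro σ _
    rw [List.prod_ofFn]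
    rfl
  constructor
  · intro h W x y
    rw [← h1, h W x y]
    exact Submodule.zero_mem _
  · intro h W x y
    rw [h1]
    exact (Submodule.mem_bot ℚ).1 (h W x y)

/-- If the permutation of one letter vanishes then the idempotent vanishes. -/
lemma eq_zero_of_KE {e : C.A (X.prod X)} (h : KE (ratFam C) e (Fin 1) ≠ ⊥) : e = 0 := by
  obtain ⟨c, hc, hc0⟩ := Submodule.exists_mem_ne_zero_of_ne_bot h
  have h1 := (Submodule.mem_bot ℚ).1 (hc (X.prod X) (fun _ => fst X X) (fun _ => snd X X))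
  have h2 : c 1 ≠ 0 := by
    intro h2
    apply hc0
    funext σ
    rw [Subsingleton.elim σ 1, h2]
    rfl
  rw [fc, Fintype.sum_unique] at h1
  have h3 : (default : Equiv.Perm (Fin 1)) = 1 := rfl
  rw [h3, Fin.prod_univ_succ, Fin.prod_univ_zero, mul_one, ev_univ] at h1
  rcases smul_eq_zero.1 h1 with h4 | h4
  · exact absurd h4 h2
  · exact h4

lemma KE_one_of_zero : KE (ratFam C) (0 : C.A (X.prod X)) (Fin 1) ≠ ⊥ := by
  intro h
  have h1 : (fun _ => 1 : Equiv.Perm (Fin 1) → ℚ) ∈ KE (ratFam C) (0 : C.A (X.prod X)) (Fin 1) := by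
    intro W x y
    have h2 : fc (fun _ => 1 : Equiv.Perm (Fin 1) → ℚ) (fun _ => (0 : C.A (X.prod X))) x y = 0 := by
      rw [fc]
      apply Finset.sum_eq_zero
      intro σ _
      rw [Fin.prod_univ_succ]
      have : ev (0 : C.A (X.prod X)) (x 0) (y (σ 0)) = 0 := map_zero _
      rw [this, zero_mul, smul_zero]
    rw [h2]
    exact Submodule.zero_mem _
  rw [h, Submodule.mem_bot] at h1
  exact one_ne_zero (congrFun h1 1)

lemma splits_iff {z : C.A (Z.prod X)} : S.Splits C z ↔ z ∈ Spl C Z X := Iff.rfl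

end chow

lemma lsum_eq {n : ℕ} (c : Equiv.Perm (Fin n) → ℚ) : S.longSum c = lsum c := by
  unfold S.longSum lsum
  rfl

section weil

variable {C : TheoryData.{u, v, 0} 𝒱 ℚ} [hC : IsChowProj C] {K : Type w} [Field K]
  {H : WeilTheoryData.{u, v, w} C K} [hH : IsWeilProj H] {X Y Z W V P : 𝒱.Obj}

include hC hH

/-- Phantom parts exist. -/
lemma exists_phantomPart (h : S.AlgCoh H X) [Module.Finite K (H.A X)] :
    ∃ π, S.IsPhantomPart C X π := by
  have hne := one_ne H
  have h' : AlgCoh H X := h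
  obtain ⟨e, e', h1, h2, h3⟩ := h'.exists_dual
  set w := ∑ i, C.ext (e i) (e' i) with hw
  have hdeg : C.Deg X.dim (dg C X - w) := Submodule.sub_mem _ (dg_mem C X) h1
  refine ⟨dg C X - w, hdeg, ?_, ?_, ?_⟩
  · change C.comp (dg C X - w) (dg C X - w) = dg C X - w
    rw [sub_comp, comp_sub, comp_sub, dg_comp, dg_comp, comp_dg, h2, sub_self, sub_zero]
  · rw [numTriv_iff hne hdeg]
    exact (num_of_cl_eq_zero (H := H) hdeg (by rw [map_sub, h3, sub_self])).2
  · rw [splits_iff]
    have : S.diag C X - (dg C X - w) = w := by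
      rw [diag_eq, sub_sub_cancel]
    rw [this]
    apply Submodule.sum_mem
    intro i _
    exact ext_mem_spl _ _

/-- The equivalences. -/
theorem phantom_tfae (hg : GradedCommutative H) (hfin : ∀ Y : 𝒱.Obj, Module.Finite K (H.A Y))
    {X : 𝒱.Obj} (h : S.AlgCoh H X) {π : C.A (X.prod X)} (hπ : S.IsPhantomPart C X π) :
    [π = 0,
      S.Splits C (S.diag C X),
      ∀ f : C.A (X.prod X), C.Deg X.dim f → S.NumTriv C X.dim f → f = 0,
      S.NoPhantoms C (S.rat C) X,
      ∃ (n : ℕ) (c : Equiv.Perm (Fin n) → ℚ), S.RelOf C π c ∧ S.longSum c ≠ 0,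
      ∃ n < 4, ∃ c : Equiv.Perm (Fin n) → ℚ, c ≠ 0 ∧ S.RelOf C π c,
      ∃ n < 2 * (S.bet H Even X + 2), S.Dep C (S.rat C) X n,
      ∀ (Z : 𝒱.Obj) (z : C.A (Z.prod X)), S.Splits C z].TFAE := by
  have hne := one_ne H
  have h' : AlgCoh H X := h
  have hnumπ : π ∈ numFam C (X.prod X) X.dim :=
    ⟨hπ.deg, (numTriv_iff hne hπ.deg).1 hπ.num⟩
  have hrat : IsAdequate C (ratFam C) := isAdequate_bot
  have hrat1 : ∀ Z : 𝒱.Obj, (1 : C.A Z) ∉ ratFam C Z 0 := by
    intro Z h
    exact hne Z ((Submodule.mem_bot ℚ).1 h)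
  have hidem : C.comp π π = π := hπ.idem
  have hππ : C.comp π π - π ∈ ratFam C (X.prod X) X.dim := by
    rw [hidem, sub_self]
    exact Submodule.zero_mem _
  have htr : HasDegree C (ev π (𝟙 X) (𝟙 X)) 0 := by
    have h1 := trL_spec (hne := hne) (ofA π hπ.deg)
    have h2 := trL_of_num (hne := hne) (a := ofA π hπ.deg) hnumπ
    rw [h2] at h1
    exact h1
  let 𝒦 : PFam 0 := famE (ratFam C) hrat hπ.deg hππ htr
  have h𝒦0 : 𝒦.K (Fin 0) = ⊥ := KE_zero hrat hrat1 π
  obtain ⟨p, q, hp, hpq, -, hmain⟩ := main hg hfin X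
  have hbO : bO H X = 0 := h'.bO
  obtain rfl : q = 0 := by omega
  obtain rfl : p = bE H X := by omega
  have hM := (hmain (ratFam C) hrat hrat1).2
  tfae_have 1 → 2 := by
    intro h0
    have h1 := hπ.splits
    rwa [h0, sub_zero] at h1
  tfae_have 2 → 3 := by
    intro hs f hf hnf
    exact corr_eq_zero_of_spl hne hs ⟨hf, (numTriv_iff hne hf).1 hnf⟩
  tfae_have 3 → 4 := by
    intro h3 f hf _ hnf
    exact h3 f hf hnf
  tfae_have 4 → 1 := by
    intro h4
    exact h4 π hπ.deg hπ.idem hπ.num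
  tfae_have 1 → 5 := by
    rintro h0
    refine ⟨1, fun _ => 1, ?_, ?_⟩
    · rw [relOf_iff, h0]
      intro W x y
      have h2 : fc (fun _ => 1 : Equiv.Perm (Fin 1) → ℚ) (fun _ => (0 : C.A (X.prod X))) x y =
          0 := by
        rw [fc]
        apply Finset.sum_eq_zero
        intro σ _
        rw [Fin.prod_univ_succ]
        have : ev (0 : C.A (X.prod X)) (x 0) (y (σ 0)) = 0 := map_zero _
        rw [this, zero_mul, smul_zero]
      rw [h2]
      exact Submodule.zero_mem _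
    · unfold S.longSum
      rw [Fintype.sum_unique, if_pos]
      · exact one_ne_zero
      · intro s hs _
        obtain ⟨x, hx⟩ := hs
        ext y
        simp only [Set.mem_univ, iff_true]
        rwa [Subsingleton.elim y x]
  tfae_have 5 → 1 := by
    rintro ⟨n, c, hc, hl⟩
    rw [relOf_iff] at hc
    rw [lsum_eq] at hl
    exact eq_zero_of_KE (𝒦.long h𝒦0 n hc hl)
  tfae_have 5 → 6 := by
    rintro ⟨n, c, hc, hl⟩
    rw [relOf_iff] at hc
    rw [lsum_eq] at hl
    obtain ⟨c, hc, hc0⟩ := Submodule.exists_mem_ne_zero_of_ne_bot (𝒦.long h𝒦0 n hc hl)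
    exact ⟨1, by norm_num, c, hc0, relOf_iff.2 hc⟩
  tfae_have 6 → 1 := by
    rintro ⟨n, hn, c, hc0, hc⟩
    rw [relOf_iff] at hc
    have h1 : 𝒦.K (Fin n) ≠ ⊥ := by
      intro hb
      have h2 : c ∈ 𝒦.K (Fin n) := hc
      rw [hb, Submodule.mem_bot] at h2
      exact hc0 h2
    obtain ⟨a, b, hab, hle, htop, -⟩ := 𝒦.exists_type h𝒦0 h1
    have hab' : b = a := by
      have : (b : ℚ) = a := by linarith
      exact_mod_cast this
    subst hab'
    have ha : b = 0 := by
      by_contra hb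
      have : 2 * 2 ≤ (b + 1) * (b + 1) := Nat.mul_le_mul (by omega) (by omega)
      omega
    subst ha
    exact eq_zero_of_KE htop
  tfae_have 2 → 7 := by
    intro hs
    have h1 : NoPhantoms C (ratFam C) (powObj X (bN H X)) := by
      intro f hf _ hnf
      rw [corr_eq_zero_of_spl hne (spl_pow hs _) ⟨hf, hnf⟩]
      exact Submodule.zero_mem _
    obtain ⟨n, hn, hd⟩ := (hM.out 0 1 rfl rfl).1 h1
    refine ⟨n, ?_, ?_⟩
    · change n < 2 * (bE H X + 2)
      rw [mul_comm]
      exact hn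
    · obtain ⟨c, hc0, hc⟩ := hd
      refine ⟨c, hc0, ?_⟩
      intro W x y
      exact (Submodule.mem_bot ℚ).1 (hc W x y)
  tfae_have 7 → 4 := by
    rintro ⟨n, hn, c, hc0, hc⟩
    have hd : Dep C (ratFam C) X n := by
      refine ⟨c, hc0, ?_⟩
      intro W x y
      exact (Submodule.mem_bot ℚ).2 (hc W x y)
    have hn' : n < (bE H X + 2) * (0 + 2) := by
      rw [mul_comm]
      exact hn
    have h1 := (hM.out 1 3 rfl rfl).1 ⟨n, hn', hd⟩ 0 X
      ⟨0, dg C X, dg C X, by rw [add_zero]; exact dg_mem C X,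
        by rw [sub_zero]; exact dg_mem C X, comp_dg C _⟩
    intro f hf hff hnf
    have h2 := h1.1 f hf ((numTriv_iff hne hf).1 hnf)
    have h3 : ∀ r, C.comp f (compList C X (List.replicate r f)) = f := by
      intro r
      induction r with
      | zero => exact comp_dg C f
      | succ r ih =>
        rw [List.replicate_succ, compList, ih]
        exact hff
    have h4 := h3 (bN H (powObj X 0))
    have h5 : compList C X (List.replicate (bN H (powObj X 0)) f) = 0 :=
      (Submodule.mem_bot ℚ).1 h2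
    rw [h5, comp_zero] at h4
    exact h4.symm
  tfae_have 2 → 8 := by
    intro hs Z z
    rw [splits_iff, ← comp_dg C z]
    exact comp_mem_spl z hs
  tfae_have 8 → 2 := by
    intro h8
    exact h8 X _
  tfae_finish

end weil

end Pool.Agent.Q55.Nil
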