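import Pool.Agent.Q55.Nil.Main
import Mathlib.RingTheory.Idempotents

/-!
# Lifting Kunneth projectors
-/

open CategoryTheory AlgebraicGeometry

universe u v w

namespace Pool.Agent.Q55.Nil

open Pool.Agent.H914 Pool.Agent.H914.VarClass Pool.Agent.H914.VarClass.Obj Pool.Agent.W492.BB
  Pool.Agent.W550.Corr Pool.Agent.TH133 Pool.Agent.TH829.Prime Pool.Agent.TH829.Kim

set_option linter.unusedSectionVars false

variable {k : Type u} [Field k] {𝒱 : VarClass k}

section weil

variable {C : TheoryData.{u, v, 0} 𝒱 ℚ} [hC : IsChowProj C] {K : Type w} [Field K]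
  {H : WeilTheoryData.{u, v, w} C K} [hH : IsWeilProj H] {X Y Z W V P : 𝒱.Obj}

include hC hH

variable (H) in
/-- The action of the correspondences of degree zero on the cohomology. -/
noncomputable def act0 (X : 𝒱.Obj) : R0 C X →+* Module.End K (H.A X) :=
  (actH C X H).comp (cor0 C X).val.toRingHom

lemma act0_apply (a : R0 C X) (x : H.A X) : act0 H X a x = H.act (H.cl (toA a)) x := rfl

/-- If the homologically trivial correspondences are nilpotent then algebraic Kunneth projectors can
be lifted to a Chow-Kunneth decomposition. -/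
theorem exists_ck (hnil : ∀ f : R0 C X, toA f ∈ numFam C (X.prod X) X.dim → IsNilpotent f)
    (hK : ∀ m : ℕ, ∃ π : C.A (X.prod X), C.Deg X.dim π ∧ ∀ (l : ℤ) (a : H.A X),
      H.Deg l a → H.act (H.cl π) a = if l = m then a else 0) :
    ∃ π : ℕ → C.A (X.prod X), IsCK H X π := by
  classical
  choose γ hγ hγa using hK
  set N := 2 * X.dim + 1 with hN
  let e : Fin N → Module.End K (H.A X) := fun j => act0 H X (ofA (γ j) (hγ j))
  have he : ∀ (j : Fin N) (l : ℤ) (a : H.A X), a ∈ H.gr X l →
      e j a = if l = (j : ℕ) then a else 0 := fun j l a ha => hγa j l a ha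
  have hcomp : CompleteOrthogonalIdempotents e := by
    refine { idem := ?_, ortho := ?_, complete := ?_ }
    · intro j
      apply ext_gr H
      intro l a ha
      change e j (e j a) = e j a
      rw [he j l a ha]
      split_ifs with h
      · rw [he j l a ha, if_pos h]
      · exact map_zero _
    · intro i j hij
      apply ext_gr H
      intro l a ha
      change e i (e j a) = 0
      rw [he j l a ha]
      split_ifs with h
      · rw [he i l a ha, if_neg]
        rintro h'
        apply hij
        apply Fin.ext
        have : ((i : ℕ) : ℤ) = (j : ℕ) := by rw [← h, ← h']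
        exact_mod_cast this
      · exact map_zero _
    · apply ext_gr H
      intro l a ha
      rw [LinearMap.sum_apply, Module.End.one_apply, Finset.sum_congr rfl (fun j _ => he j l a ha)]
      by_cases h0 : a = 0
      · rw [h0]
        simp
      · have h1 := nonneg_of_mem H ha h0
        have h2 : l ≤ 2 * X.dim := by
          by_contra h2
          rw [gr_top H (by omega), Submodule.mem_bot] at ha
          exact h0 ha
        have h3 : l.toNat < N := by omega
        rw [Finset.sum_eq_single (⟨l.toNat, h3⟩ : Fin N)]
        · rw [if_pos]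
          change l = ((l.toNat : ℕ) : ℤ)
          omega
        · intro j _ hj
          rw [if_neg]
          intro h4
          apply hj
          apply Fin.ext
          change (j : ℕ) = l.toNat
          omega
        · intro h; exact absurd (Finset.mem_univ _) h
  have hker : ∀ x ∈ RingHom.ker (act0 H X), IsNilpotent x := by
    intro x hx
    apply hnil
    apply num_of_cl_eq_zero (H := H) (toA_mem x)
    apply hom_zero_of_act
    intro a
    have h1 := LinearMap.congr_fun ((RingHom.mem_ker).1 hx) a
    exact h1
  obtain ⟨e', he', hfe⟩ := hcomp.lift_of_isNilpotent_ker (act0 H X) hker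
    (fun j => ⟨_, rfl⟩)
  have hact : ∀ (j : Fin N) (l : ℤ) (a : H.A X), a ∈ H.gr X l →
      H.act (H.cl (toA (e' j))) a = if l = (j : ℕ) then a else 0 := by
    intro j l a ha
    have h1 := congrFun hfe j
    rw [← he j l a ha, ← h1]
    rfl
  refine ⟨fun i => if h : i < N then toA (e' ⟨i, h⟩) else 0, ?_⟩
  refine { deg := ?_, out := ?_, idem := ?_, orth := ?_, sum := ?_, act_self := ?_, act_ne := ?_ }
  · intro i
    split_ifs with h
    · exact toA_mem _
    · exact Submodule.zero_mem _
  · intro i hi
    exact dif_neg (by omega)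
  · intro i
    split_ifs with h
    · rw [← toA_mul, (he'.idem ⟨i, h⟩).eq]
    · exact comp_zero C _
  · intro i j hij
    split_ifs with h h' h'
    · rw [← toA_mul, he'.ortho (i := ⟨j, h'⟩) (j := ⟨i, h⟩)]
      · exact map_zero _
      · intro h3
        exact hij (congrArg Fin.val h3).symm
    · exact comp_zero C _
    · exact zero_comp C _
    · exact comp_zero C _
  · have h1 := he'.complete
    rw [Finset.sum_range, ← toA_one, ← h1, map_sum]
    apply Finset.sum_congr rfl
    intro j _
    rw [dif_pos j.2]
  · intro i a ha
    split_ifs with h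
    · rw [hact ⟨i, h⟩ i a ha, if_pos rfl]
    · rw [show a = 0 by
        have h1 := gr_top H (X := X) (i := i) (by omega)
        change a ∈ H.gr X i at ha
        rw [h1, Submodule.mem_bot] at ha
        exact ha]
      exact map_zero (H.actL _)
  · intro i m a hm ha
    split_ifs with h
    · rw [hact ⟨i, h⟩ m a ha, if_neg hm]
    · exact actH_zero H a

/-! ### Bloch-Beilinson filtrations -/

omit hC hH in
lemma fil_comp {F : Filtration C} (hF : IsMultiplicative F) {m n : ℕ} {f g : C.A (Y.prod Y)}
    (hf : F.Mem Y.dim m f) (hg : F.Mem Y.dim n g) : F.Mem Y.dim (m + n) (C.comp f g) := by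
  have h1 := hF.push (t13 Y Y Y) (j := Y.dim) (by simp only [dim_prod]; ring)
    (hF.mul (hF.pull (t23 Y Y Y) hg) (hF.pull (fst (Y.prod Y) Y) hf))
  rw [add_comm n m] at h1
  exact h1

/-- Under a filtration with the properties 1-4 the homologically trivial correspondences are
nilpotent. -/
lemma fil_nilp {F : Filtration C} (hb : IsBounded H F) (hF : IsMultiplicative F)
    {f : C.A (Y.prod Y)} (hf : C.Deg Y.dim f) (hcl : H.cl f = 0) (n : ℕ) :
    F.Mem Y.dim n (compList C Y (List.replicate n f)) := by
  induction n with
  | zero => exact (hb.zero _ _ _).2 (dg_mem C Y)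
  | succ n ih =>
    rw [List.replicate_succ, compList, add_comm n 1]
    exact fil_comp hF ((hb.one _ _ _).2 ⟨hf, hcl⟩) ih

lemma noPhantoms_of_fil {F : Filtration C} (hb : IsBounded H F) (hF : IsMultiplicative F)
    (hD : ∀ f : C.A (Y.prod Y), C.Deg Y.dim f → NumTrivial C Y.dim f → H.cl f = 0) :
    NoPhantoms C (ratFam C) Y := by
  intro f hf hff hnf
  have h1 := hb.top _ _ _ (fil_nilp hb hF hf (hD f hf hnf) (Y.dim + 1))
  have h3 : ∀ r, C.comp f (compList C Y (List.replicate r f)) = f := by
    intro r
    induction r with
    | zero => exact comp_dg C f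
    | succ r ih =>
      rw [List.replicate_succ, compList, ih, hff]
  have h4 := h3 (Y.dim + 1)
  rw [h1, comp_zero] at h4
  rw [← h4]
  exact Submodule.zero_mem _

end weil

end Pool.Agent.Q55.Nil
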