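import Pool.Agent.Q55.Nil.Coh

/-!
# The self-intersection number of the diagonal
-/

open CategoryTheory AlgebraicGeometry

universe u v w

namespace Pool.Agent.Q55.Nil

open Pool.Agent.H914 Pool.Agent.H914.VarClass Pool.Agent.H914.VarClass.Obj Pool.Agent.W492.BB
  Pool.Agent.W550.Corr Pool.Agent.TH133 Pool.Agent.TH829.Prime Pool.Agent.TH829.Kim
  Pool.Agent.Y110

set_option linter.unusedSectionVars false

variable {k : Type u} [Field k] {𝒱 : VarClass k}

section weil

variable {C : TheoryData.{u, v, 0} 𝒱 ℚ} [hC : IsChowProj C] {K : Type w} [Field K]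
  {H : WeilTheoryData.{u, v, w} C K} [hH : IsWeilProj H] {X Y Z W V P : 𝒱.Obj}

include hC hH

variable (H) in
lemma one_ne (X : 𝒱.Obj) : (1 : C.A X) ≠ 0 := by
  intro h
  have h1 : H.cl (1 : C.A X) = 0 := by rw [h, map_zero]
  rw [map_one] at h1
  exact hH.one_ne_zero X h1

variable (H) in
lemma charZero (X : 𝒱.Obj) : CharZero K := by
  apply charZero_of_inj_zero
  intro n hn
  by_contra h0
  have hn' : (n : ℚ) ≠ 0 := by exact_mod_cast h0
  have h1 : H.cl (((n : ℚ)⁻¹ • (1 : C.A X)) * ((n : ℚ) • (1 : C.A X))) = 1 := by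
    rw [smul_mul_smul_comm, inv_mul_cancel₀ hn', one_smul, mul_one, map_one]
  have h2 : H.cl ((n : ℚ) • (1 : C.A X)) = 0 := by
    rw [Nat.cast_smul_eq_nsmul, map_nsmul, map_one, ← Nat.cast_smul_eq_nsmul K, hn, zero_smul]
  rw [map_mul, h2, mul_zero] at h1
  exact hH.one_ne_zero X h1.symm

lemma cl_rat [CharZero K] (q : ℚ) : H.cl (q • (1 : C.A X)) = (q : K) • (1 : H.A X) := by
  have h1 : (H.cl : C.A X →+* H.A X).comp (algebraMap ℚ (C.A X)) =
      (algebraMap K (H.A X)).comp (Rat.castHom K) := RingHom.ext_rat _ _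
  have h2 := congrArg (fun f : ℚ →+* H.A X => f q) h1
  simp only [RingHom.comp_apply, Rat.coe_castHom, Algebra.algebraMap_eq_smul_one] at h2
  exact h2

/-- The push-forward along a projection is given by the orientation. -/
lemma push_tr (X Y : 𝒱.Obj) : ∃ τ : K, τ ≠ 0 ∧ ∀ a : H.A X,
    τ • H.push (fst Y X) (H.pull (snd Y X) a) = H.tr X a • (1 : H.A Y) := by
  obtain ⟨z, hz, h1, h2⟩ := hC.exists_deg_one Y
  set τ := H.tr Y (H.cl z) with hτ
  have key : ∀ a : H.A X, a ∈ H.gr X (2 * X.dim) →
      τ • H.push (fst Y X) (H.pull (snd Y X) a) = H.tr X a • (1 : H.A Y) := by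
    intro a ha
    have h3 : H.push (fst Y X) (H.pull (snd Y X) a) ∈ H.gr Y 0 := by
      have := H.push_mem (fst Y X) (H.pull_mem (snd Y X) ha)
      have e : (2 * (X.dim : ℤ)) + 2 * ((Y.dim : ℤ) - ((Y.prod X).dim : ℤ)) = 0 := by
        rw [dim_prod]; push_cast; ring
      rwa [e] at this
    obtain ⟨c, hc⟩ := hH.gr_zero Y _ h3
    have h4 : H.tr Y (H.push (fst Y X) (H.pull (snd Y X) a) * H.cl z) = H.tr X a := by
      rw [← H.proj_right, H.tr_push, ← H.cl_pull, ← H.cl_central, H.cl_pull]
      rw [← H.tr_push (snd Y X), H.proj_right, ← H.cl_pull, ← H.cl_push]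
      have h5 : C.push (snd Y X) (C.pull (fst Y X) z) = 1 := h2 X
      rw [h5, map_one, one_mul]
    rw [hc, smul_mul_assoc, one_mul, map_smul, smul_eq_mul] at h4
    rw [hc, smul_smul, mul_comm, ← h4]
  have hτ0 : τ ≠ 0 := by
    intro h0
    apply hH.one_ne_zero X
    apply H.nondeg
    intro b
    rw [one_mul]
    have h5 : H.tr X = 0 := by
      apply ext_gr H
      intro i a ha
      rw [LinearMap.zero_apply]
      by_cases hi : i = 2 * X.dim
      · subst hi
        have h6 := key a ha
        rw [h0, zero_smul] at h6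
        by_contra hne
        have h7 := congrArg (fun z => (H.tr X a)⁻¹ • z) h6
        simp only [smul_zero, smul_smul, inv_mul_cancel₀ hne, one_smul] at h7
        exact hH.one_ne_zero Y h7.symm
      · exact tr_zero H ha hi
    rw [h5, LinearMap.zero_apply]
  refine ⟨τ, hτ0, fun a => ?_⟩
  have h6 : (τ • (H.push (fst Y X) ∘ₗ (H.pull (snd Y X)).toLinearMap) : H.A X →ₗ[K] H.A Y) =
      (H.tr X).smulRight (1 : H.A Y) := by
    apply ext_gr H
    intro i a ha
    change τ • H.push (fst Y X) (H.pull (snd Y X) a) = H.tr X a • (1 : H.A Y)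
    by_cases hi : i = 2 * X.dim
    · subst hi
      exact key a ha
    · rw [tr_zero H ha hi, zero_smul]
      rcases lt_or_gt_of_ne hi with hlt | hgt
      · have h3 := H.push_mem (fst Y X) (H.pull_mem (snd Y X) ha)
        rw [H.gr_neg Y _ (by rw [dim_prod]; push_cast; omega), Submodule.mem_bot] at h3
        rw [h3, smul_zero]
      · rw [gr_top H hgt, Submodule.mem_bot] at ha
        rw [ha, map_zero, map_zero, smul_zero]
  exact LinearMap.congr_fun h6 a

lemma tr_odd {a : H.A X} (ha : a ∈ oddPart H X) : H.tr X a = 0 := by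
  induction ha using Submodule.span_induction with
  | mem a ha =>
    obtain ⟨i, hi, ha⟩ := ha
    apply tr_zero H ha
    rintro rfl
    exact (Int.not_odd_iff_even.2 (even_two_mul _)) hi
  | zero => rw [map_zero]
  | add a b _ _ ha hb => rw [map_add, ha, hb, add_zero]
  | smul q a _ ha => rw [map_smul, ha, smul_zero]

lemma even_mul_odd {a b : H.A W} (ha : a ∈ evenPart H W) (hb : b ∈ oddPart H W) :
    a * b ∈ oddPart H W := by
  have h := Submodule.mul_mem_mul ha hb
  rw [evenPart, oddPart, Submodule.span_mul_span] at h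
  refine Submodule.span_mono ?_ h
  rintro c ⟨a, ⟨i, hi, ha⟩, b, ⟨j, hj, hb⟩, rfl⟩
  exact ⟨i + j, hi.add_odd hj, H.mul_mem ha hb⟩

lemma odd_mul_even {a b : H.A W} (ha : a ∈ oddPart H W) (hb : b ∈ evenPart H W) :
    a * b ∈ oddPart H W := by
  have h := Submodule.mul_mem_mul ha hb
  rw [evenPart, oddPart, Submodule.span_mul_span] at h
  refine Submodule.span_mono ?_ h
  rintro c ⟨a, ⟨i, hi, ha⟩, b, ⟨j, hj, hb⟩, rfl⟩
  exact ⟨i + j, hi.add_even hj, H.mul_mem ha hb⟩

/-- The self-intersection number of the diagonal. -/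
theorem chi_eq (hg : GradedCommutative H) [Module.Finite K (H.A X)] :
    chi (one_ne H) X = (Module.finrank K (evenPart H X) : ℚ) -
      Module.finrank K (oddPart H X) := by
  classical
  have := charZero H X
  obtain ⟨u, v, hev, hod, hue, huo, huv⟩ := exists_parts' (H := H) X
  obtain ⟨τ, hτ, hpush⟩ := push_tr (H := H) X X
  -- every class in terms of the `u b`
  have hact : ∀ a : H.A X, τ • a = ∑ b, H.tr X (v b * a) • u b := by
    intro a
    have h1 : H.act (H.cl (tp C (dg C X))) a = a := by rw [tp_dg, actH_dg]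
    rw [cl_tp, act_tp, huv, Finset.sum_mul, map_sum] at h1
    conv_lhs => rw [← h1]
    rw [Finset.smul_sum]
    apply Finset.sum_congr rfl
    intro b _
    rw [TheoryData.ext, mul_assoc, ← map_mul, H.proj_left, ← mul_smul_comm, hpush, mul_smul_comm,
      mul_one]
  have hdiag : ∀ b, H.tr X (v b * u b) = τ := by
    rintro (b | b)
    · have h1 := hact (u (Sum.inl b))
      rw [Fintype.sum_sum_type] at h1
      have h2 : ∑ c, H.tr X (v (Sum.inr c) * u (Sum.inl b)) • u (Sum.inr c) = 0 := by
        apply Finset.sum_eq_zero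
        intro c _
        rw [tr_odd (odd_mul_even (hod c).2 (hev b).1), zero_smul]
      rw [h2, add_zero] at h1
      have h3 := hue
      rw [Fintype.linearIndependent_iff] at h3
      have h4 := h3 (fun c => H.tr X (v (Sum.inl c) * u (Sum.inl b)) - if c = b then τ else 0) (by
        simp only [sub_smul, Finset.sum_sub_distrib, ite_smul, zero_smul, Finset.sum_ite_eq',
          Finset.mem_univ, if_true]
        rw [← h1, sub_self]) b
      rw [if_pos rfl, sub_eq_zero] at h4
      exact h4
    · have h1 := hact (u (Sum.inr b))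
      rw [Fintype.sum_sum_type] at h1
      have h2 : ∑ c, H.tr X (v (Sum.inl c) * u (Sum.inr b)) • u (Sum.inl c) = 0 := by
        apply Finset.sum_eq_zero
        intro c _
        rw [tr_odd (even_mul_odd (hev c).2 (hod b).1), zero_smul]
      rw [h2, zero_add] at h1
      have h3 := huo
      rw [Fintype.linearIndependent_iff] at h3
      have h4 := h3 (fun c => H.tr X (v (Sum.inr c) * u (Sum.inr b)) - if c = b then τ else 0) (by
        simp only [sub_smul, Finset.sum_sub_distrib, ite_smul, zero_smul, Finset.sum_ite_eq',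
          Finset.mem_univ, if_true]
        rw [← h1, sub_self]) b
      rw [if_pos rfl, sub_eq_zero] at h4
      exact h4
  -- the value on the diagonal
  have hval : H.cl (ev (dg C X) (𝟙 X) (𝟙 X)) = ∑ b, u b * v b := by
    rw [ev, H.cl_pull, huv, map_sum]
    apply Finset.sum_congr rfl
    intro b _
    rw [TheoryData.ext, map_mul, ← H.pull_comp, ← H.pull_comp, lift_fst, lift_snd, H.pull_id,
      H.pull_id]
  have h5 : H.cl (C.push (fst X X) (C.pull (snd X X) (ev (dg C X) (𝟙 X) (𝟙 X)))) =
      H.cl (chi (one_ne H) X • (1 : C.A X)) := by rw [((chi_spec (hne := one_ne H) X) X).2]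
  rw [H.cl_push, H.cl_pull, hval, cl_rat] at h5
  have h6 := hpush (∑ b, u b * v b)
  rw [h5, smul_smul] at h6
  have h7 : H.tr X (∑ b, u b * v b) = τ * ((Module.finrank K (evenPart H X) : K) -
      Module.finrank K (oddPart H X)) := by
    rw [map_sum, Fintype.sum_sum_type]
    have e1 : ∀ b, H.tr X (u (Sum.inl b) * v (Sum.inl b)) = τ := by
      intro b
      rw [even_comm hg (hev b).1, hdiag]
    have e2 : ∀ b, H.tr X (u (Sum.inr b) * v (Sum.inr b)) = -τ := by
      intro b
      rw [odd_anticomm hg (hod b).1 (hod b).2, map_neg, hdiag]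
    rw [Finset.sum_congr rfl (fun b _ => e1 b), Finset.sum_congr rfl (fun b _ => e2 b),
      Finset.sum_const, Finset.sum_const, Finset.card_univ, Finset.card_univ, Fintype.card_fin,
      Fintype.card_fin, nsmul_eq_mul, nsmul_eq_mul]
    ring
  rw [h7] at h6
  have h8 : τ * (chi (one_ne H) X : K) = τ * ((Module.finrank K (evenPart H X) : K) -
      Module.finrank K (oddPart H X)) := by
    have h9 : (τ * (chi (one_ne H) X : K) - τ * ((Module.finrank K (evenPart H X) : K) -
      Module.finrank K (oddPart H X))) • (1 : H.A X) = 0 := by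
      rw [sub_smul, h6, sub_self]
    rcases smul_eq_zero.1 h9 with h10 | h10
    · exact sub_eq_zero.1 h10
    · exact absurd h10 (hH.one_ne_zero X)
  have h9 := mul_left_cancel₀ hτ h8
  exact_mod_cast h9

end weil

end Pool.Agent.Q55.Nil
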