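import Pool.Agent.TH133.Defs

/-!
# The parts of even and odd degree of the cohomology: definitions
-/

open CategoryTheory AlgebraicGeometry

universe u v w

namespace Pool.Agent.Q55.Nil

open Pool.Agent.H914 Pool.Agent.H914.VarClass Pool.Agent.H914.VarClass.Obj Pool.Agent.W492.BB
  Pool.Agent.W550.Corr Pool.Agent.TH133

variable {k : Type u} [Field k] {𝒱 : VarClass k} {C : TheoryData.{u, v, 0} 𝒱 ℚ} {K : Type w}
  [Field K]

/-- The part `H^+(X)` of the cohomology spanned by the classes of even degree. -/
def evenPart (H : WeilTheoryData.{u, v, w} C K) (X : 𝒱.Obj) : Submodule K (H.A X) :=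
  Submodule.span K {a | ∃ i : ℤ, Even i ∧ H.Deg i a}

/-- The part `H^-(X)` of the cohomology spanned by the classes of odd degree. -/
def oddPart (H : WeilTheoryData.{u, v, w} C K) (X : 𝒱.Obj) : Submodule K (H.A X) :=
  Submodule.span K {a | ∃ i : ℤ, Odd i ∧ H.Deg i a}

end Pool.Agent.Q55.Nil
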