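import Pool.Agent.Q55.Nil.Fc
import Pool.Agent.Q55.Nil.Hook
import Pool.Agent.Q55.Nil.CohDefs
import Pool.Agent.Y110.Van

/-!
# Homologically trivial combinations of permutations
-/

open CategoryTheory AlgebraicGeometry

universe u v w

namespace Pool.Agent.Q55.Nil

open Pool.Agent.H914 Pool.Agent.H914.VarClass Pool.Agent.H914.VarClass.Obj Pool.Agent.W492.BB
  Pool.Agent.W550.Corr Pool.Agent.TH133 Pool.Agent.TH829.Prime Pool.Agent.TH829.Kim
  Pool.Agent.Y110

set_option linter.unusedSectionVars false

variable {k : Type u} [Field k] {𝒱 : VarClass k}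

section weil

variable {C : TheoryData.{u, v, 0} 𝒱 ℚ} [hC : IsChowProj C] {K : Type w} [Field K]
  {H : WeilTheoryData.{u, v, w} C K} [hH : IsWeilProj H] {X Y Z W V P : 𝒱.Obj}

include hC hH

lemma mem_even {i : ℤ} (hi : Even i) {a : H.A W} (ha : a ∈ H.gr W i) : a ∈ evenPart H W :=
  Submodule.subset_span ⟨i, hi, ha⟩

lemma mem_odd {i : ℤ} (hi : Odd i) {a : H.A W} (ha : a ∈ H.gr W i) : a ∈ oddPart H W :=
  Submodule.subset_span ⟨i, hi, ha⟩

lemma even_mul_even {a b : H.A W} (ha : a ∈ evenPart H W) (hb : b ∈ evenPart H W) :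
    a * b ∈ evenPart H W := by
  have h := Submodule.mul_mem_mul ha hb
  rw [evenPart, Submodule.span_mul_span] at h
  refine Submodule.span_mono ?_ h
  rintro c ⟨a, ⟨i, hi, ha⟩, b, ⟨j, hj, hb⟩, rfl⟩
  exact ⟨i + j, hi.add hj, H.mul_mem ha hb⟩

lemma odd_mul_odd {a b : H.A W} (ha : a ∈ oddPart H W) (hb : b ∈ oddPart H W) :
    a * b ∈ evenPart H W := by
  have h := Submodule.mul_mem_mul ha hb
  rw [oddPart, Submodule.span_mul_span] at h
  refine Submodule.span_mono ?_ h
  rintro c ⟨a, ⟨i, hi, ha⟩, b, ⟨j, hj, hb⟩, rfl⟩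
  exact ⟨i + j, hi.add_odd hj, H.mul_mem ha hb⟩

lemma pull_even (f : V ⟶ W) {a : H.A W} (ha : a ∈ evenPart H W) : H.pull f a ∈ evenPart H V := by
  induction ha using Submodule.span_induction with
  | mem a ha =>
    obtain ⟨i, hi, ha⟩ := ha
    exact mem_even hi (H.pull_mem f ha)
  | zero => rw [map_zero]; exact Submodule.zero_mem _
  | add a b _ _ ha hb => rw [map_add]; exact Submodule.add_mem _ ha hb
  | smul q a _ ha => rw [map_smul]; exact Submodule.smul_mem _ _ ha

lemma pull_odd (f : V ⟶ W) {a : H.A W} (ha : a ∈ oddPart H W) : H.pull f a ∈ oddPart H V := by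
  induction ha using Submodule.span_induction with
  | mem a ha =>
    obtain ⟨i, hi, ha⟩ := ha
    exact mem_odd hi (H.pull_mem f ha)
  | zero => rw [map_zero]; exact Submodule.zero_mem _
  | add a b _ _ ha hb => rw [map_add]; exact Submodule.add_mem _ ha hb
  | smul q a _ ha => rw [map_smul]; exact Submodule.smul_mem _ _ ha

lemma mem_span_hom (g : H.A W) : g ∈ Submodule.span K {a : H.A W | ∃ i : ℤ, a ∈ H.gr W i} := by
  have h1 : g ∈ (⊤ : Submodule K (H.A W)) := Submodule.mem_top
  rw [← (hH.isTheory.isGradedRing.isInternal W).submodule_iSup_eq_top] at h1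
  refine (iSup_le fun i => ?_ : (⨆ i, H.gr W i) ≤ _) h1
  intro a ha
  exact Submodule.subset_span ⟨i, ha⟩

/-- Classes of even degree are central. -/
lemma even_comm (hg : GradedCommutative H) {a : H.A W} (ha : a ∈ evenPart H W) (g : H.A W) :
    a * g = g * a := by
  induction ha using Submodule.span_induction with
  | mem a ha =>
    obtain ⟨i, hi, ha⟩ := ha
    induction mem_span_hom g using Submodule.span_induction with
    | mem b hb =>
      obtain ⟨j, hb⟩ := hb
      exact gc_even hg ha hb (hi.mul_right j)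
    | zero => rw [mul_zero, zero_mul]
    | add b c _ _ hb hc => rw [mul_add, add_mul, hb, hc]
    | smul q b _ hb => rw [mul_smul_comm, smul_mul_assoc, hb]
  | zero => rw [mul_zero, zero_mul]
  | add b c _ _ hb hc => rw [mul_add, add_mul, hb, hc]
  | smul q b _ hb => rw [mul_smul_comm, smul_mul_assoc, hb]

/-- Classes of odd degree anticommute. -/
lemma odd_anticomm (hg : GradedCommutative H) {a b : H.A W} (ha : a ∈ oddPart H W)
    (hb : b ∈ oddPart H W) : a * b = -(b * a) := by
  induction ha using Submodule.span_induction with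
  | mem a ha =>
    obtain ⟨i, hi, ha⟩ := ha
    induction hb using Submodule.span_induction with
    | mem b hb =>
      obtain ⟨j, hj, hb⟩ := hb
      exact gc_odd hg ha hb (hi.mul hj)
    | zero => rw [mul_zero, zero_mul, neg_zero]
    | add b c _ _ hb hc => rw [mul_add, add_mul, hb, hc, neg_add]
    | smul q b _ hb => rw [mul_smul_comm, smul_mul_assoc, hb, smul_neg]
  | zero => rw [mul_zero, zero_mul, neg_zero]
  | add b c _ _ hb hc => rw [mul_add, add_mul, hb, hc, neg_add]
  | smul q b _ hb => rw [mul_smul_comm, smul_mul_assoc, hb, smul_neg]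

lemma ext_sum_left {ι : Type*} (s : Finset ι) (f : ι → H.A X) (b : H.A Y) :
    H.ext (∑ i ∈ s, f i) b = ∑ i ∈ s, H.ext (f i) b := by
  rw [TheoryData.ext, map_sum, Finset.sum_mul]
  rfl

lemma ext_smul_left' (q : K) (a : H.A X) (b : H.A Y) : H.ext (q • a) b = H.ext a (q • b) := by
  rw [TheoryData.ext, TheoryData.ext, map_smul, map_smul, smul_mul_assoc, mul_smul_comm]

lemma ext_sum_right' {ι : Type*} (s : Finset ι) (a : H.A X) (f : ι → H.A Y) :
    H.ext a (∑ i ∈ s, f i) = ∑ i ∈ s, H.ext a (f i) := by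
  rw [TheoryData.ext, map_sum, Finset.mul_sum]
  rfl

lemma ext_zero_right' (a : H.A X) : H.ext a (0 : H.A Y) = 0 := by
  rw [TheoryData.ext, map_zero, mul_zero]

/-- The class of the diagonal as a sum of `p` products of classes of even degree and of `q` products
of classes of odd degree. -/
lemma exists_parts' (X : 𝒱.Obj) [Module.Finite K (H.A X)] :
    ∃ u v : Fin (Module.finrank K (evenPart H X)) ⊕ Fin (Module.finrank K (oddPart H X)) → H.A X,
      (∀ i, u (Sum.inl i) ∈ evenPart H X ∧ v (Sum.inl i) ∈ evenPart H X) ∧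
      (∀ i, u (Sum.inr i) ∈ oddPart H X ∧ v (Sum.inr i) ∈ oddPart H X) ∧
      LinearIndependent K (fun i => u (Sum.inl i)) ∧
      LinearIndependent K (fun i => u (Sum.inr i)) ∧
      H.cl (dg C X) = ∑ b, H.ext (u b) (v b) := by
  classical
  obtain ⟨m, p, u, v, hu, hv, huv⟩ := exists_kunneth H X
  let eb := Module.finBasis K (evenPart H X)
  let ob := Module.finBasis K (oddPart H X)
  have hpar : ∀ i : Fin m, ¬ Even (p i) → Odd (p i) := fun i h => Int.not_even_iff_odd.1 h
  have hpe : ∀ i : Fin m, Even (p i) → Even (2 * (X.dim : ℤ) - p i) := fun i h =>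
    (even_two_mul _).sub h
  have hpo : ∀ i : Fin m, Odd (p i) → Odd (2 * (X.dim : ℤ) - p i) := fun i h =>
    (even_two_mul _).sub_odd h
  let ce : Fin m → Fin (Module.finrank K (evenPart H X)) → K := fun i b =>
    if h : Even (p i) then eb.repr ⟨u i, mem_even h (hu i)⟩ b else 0
  let co : Fin m → Fin (Module.finrank K (oddPart H X)) → K := fun i b =>
    if h : Even (p i) then 0 else ob.repr ⟨u i, mem_odd (hpar i h) (hu i)⟩ b
  have hui : ∀ i, u i = (∑ b, ce i b • (eb b : H.A X)) + ∑ b, co i b • (ob b : H.A X) := by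
    intro i
    by_cases h : Even (p i)
    · have h1 : ∑ b, co i b • (ob b : H.A X) = 0 := by
        apply Finset.sum_eq_zero
        intro b _
        have : co i b = 0 := dif_pos h
        rw [this, zero_smul]
      have h2 := congrArg (fun z : evenPart H X => (z : H.A X))
        (eb.sum_repr ⟨u i, mem_even h (hu i)⟩)
      simp only [Submodule.coe_sum, Submodule.coe_smul] at h2
      rw [h1, add_zero, ← h2]
      apply Finset.sum_congr rfl
      intro b _
      have : ce i b = eb.repr ⟨u i, mem_even h (hu i)⟩ b := dif_pos h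
      rw [this]
    · have h1 : ∑ b, ce i b • (eb b : H.A X) = 0 := by
        apply Finset.sum_eq_zero
        intro b _
        have : ce i b = 0 := dif_neg h
        rw [this, zero_smul]
      have h2 := congrArg (fun z : oddPart H X => (z : H.A X))
        (ob.sum_repr ⟨u i, mem_odd (hpar i h) (hu i)⟩)
      simp only [Submodule.coe_sum, Submodule.coe_smul] at h2
      rw [h1, zero_add, ← h2]
      apply Finset.sum_congr rfl
      intro b _
      have : co i b = ob.repr ⟨u i, mem_odd (hpar i h) (hu i)⟩ b := dif_neg h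
      rw [this]
  refine ⟨Sum.elim (fun b => (eb b : H.A X)) (fun b => (ob b : H.A X)),
    Sum.elim (fun b => ∑ i, ce i b • v i) (fun b => ∑ i, co i b • v i), ?_, ?_,
    eb.linearIndependent.map' (evenPart H X).subtype (Submodule.ker_subtype _),
    ob.linearIndependent.map' (oddPart H X).subtype (Submodule.ker_subtype _), ?_⟩
  · intro b
    refine ⟨(eb b).2, ?_⟩
    simp only [Sum.elim_inl]
    apply Submodule.sum_mem
    intro i _
    by_cases h : Even (p i)
    · exact Submodule.smul_mem _ _ (mem_even (hpe i h) (hv i))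
    · have : ce i b = 0 := dif_neg h
      rw [this, zero_smul]
      exact Submodule.zero_mem _
  · intro b
    refine ⟨(ob b).2, ?_⟩
    simp only [Sum.elim_inr]
    apply Submodule.sum_mem
    intro i _
    by_cases h : Even (p i)
    · have : co i b = 0 := dif_pos h
      rw [this, zero_smul]
      exact Submodule.zero_mem _
    · exact Submodule.smul_mem _ _ (mem_odd (hpo i (hpar i h)) (hv i))
  · rw [Fintype.sum_sum_type]
    simp only [Sum.elim_inl, Sum.elim_inr]
    simp only [ext_sum_right']
    rw [Finset.sum_comm, Finset.sum_comm (s := Finset.univ) (t := Finset.univ)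
      (f := fun b i => H.ext (ob b : H.A X) (co i b • v i)), ← Finset.sum_add_distrib, huv]
    apply Finset.sum_congr rfl
    intro i _
    conv_lhs => rw [hui i]
    rw [TheoryData.ext, map_add, add_mul, map_sum, map_sum, Finset.sum_mul, Finset.sum_mul]
    congr 1
    · apply Finset.sum_congr rfl
      intro b _
      rw [← ext_smul_left']
      rfl
    · apply Finset.sum_congr rfl
      intro b _
      rw [← ext_smul_left']
      rfl

lemma exists_parts (X : 𝒱.Obj) [Module.Finite K (H.A X)] :
    ∃ u v : Fin (Module.finrank K (evenPart H X)) ⊕ Fin (Module.finrank K (oddPart H X)) → H.A X,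
      (∀ i, u (Sum.inl i) ∈ evenPart H X ∧ v (Sum.inl i) ∈ evenPart H X) ∧
      (∀ i, u (Sum.inr i) ∈ oddPart H X ∧ v (Sum.inr i) ∈ oddPart H X) ∧
      H.cl (dg C X) = ∑ b, H.ext (u b) (v b) := by
  obtain ⟨u, v, h1, h2, -, -, h3⟩ := exists_parts' (H := H) X
  exact ⟨u, v, h1, h2, h3⟩

omit hC hH in
lemma prod_two {R ι : Type*} [CommRing R] [Fintype ι] [DecidableEq ι] (c c' : ι → R) {i j : ι}
    (hij : i ≠ j) (h : ∀ l, l ≠ i → l ≠ j → c' l = c l) {ε : R}
    (h2 : c' i * c' j = ε * (c i * c j)) : ∏ l, c' l = ε * ∏ l, c l := by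
  have key : ∀ d : ι → R, ∏ l, d l = (d i * d j) * ∏ l ∈ (Finset.univ.erase i).erase j, d l := by
    intro d
    rw [← Finset.mul_prod_erase Finset.univ d (Finset.mem_univ i),
      ← Finset.mul_prod_erase (Finset.univ.erase i) d
        (Finset.mem_erase.2 ⟨hij.symm, Finset.mem_univ j⟩), mul_assoc]
  rw [key c', key c, h2, mul_assoc]
  congr 2
  apply Finset.prod_congr rfl
  intro l hl
  rw [Finset.mem_erase, Finset.mem_erase] at hl
  exact h l hl.2.1 hl.1

/-- The class of the combination of permutations given by a rectangle vanishes. -/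
lemma cl_fc_eq_zero_aux (hg : GradedCommutative H) {ι : Type} [Fintype ι]
    [DecidableEq ι] {y : Equiv.Perm ι → ℚ} {p q : ℕ} {u v : Fin p ⊕ Fin q → H.A X}
    (hev : ∀ i, u (Sum.inl i) ∈ evenPart H X ∧ v (Sum.inl i) ∈ evenPart H X)
    (hod : ∀ i, u (Sum.inr i) ∈ oddPart H X ∧ v (Sum.inr i) ∈ oddPart H X)
    (huv : H.cl (dg C X) = ∑ b, H.ext (u b) (v b))
    (e : ι ≃ Fin (p + 1) × Fin (q + 1))
    (hy : RC e y) (a b : ι → (W ⟶ X)) : H.cl (fc y (fun _ => dg C X) a b) = 0 := by
  classical
  -- the centre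
  let cl' : C.A W →+* Subring.center (H.A W) := RingHom.codRestrict (H.cl : C.A W →+* H.A W) _
    (fun z => Subring.mem_center_iff.2 fun g => (H.cl_central z g).symm)
  let _ : Algebra ℚ (Subring.center (H.A W)) := (cl'.comp (algebraMap ℚ (C.A W))).toAlgebra
  have hsm : ∀ (r : ℚ) (z : C.A W), cl' (r • z) = r • cl' z := by
    intro r z
    rw [Algebra.smul_def, map_mul, Algebra.smul_def]
    rfl
  have hc : ∀ (c : Fin p ⊕ Fin q) (i j : ι), H.pull (a i) (u c) * H.pull (b j) (v c) ∈
      Subring.center (H.A W) := by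
    intro c i j
    rw [Subring.mem_center_iff]
    intro g
    symm
    apply even_comm hg
    cases c with
    | inl c => exact even_mul_even (pull_even _ (hev c).1) (pull_even _ (hev c).2)
    | inr c => exact odd_mul_odd (pull_odd _ (hod c).1) (pull_odd _ (hod c).2)
  let θ : Fin p ⊕ Fin q → ι → ι → Subring.center (H.A W) := fun c i j => ⟨_, hc c i j⟩
  have hcl : ∀ i j, cl' (ev (dg C X) (a i) (b j)) = ∑ c, θ c i j := by
    intro i j
    apply Subtype.ext
    have h1 : ((∑ c, θ c i j : Subring.center (H.A W)) : H.A W) =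
        ∑ c, H.pull (a i) (u c) * H.pull (b j) (v c) := by
      rw [AddSubmonoidClass.coe_finsetSum]
    rw [h1]
    change H.cl (ev (dg C X) (a i) (b j)) = _
    rw [ev, H.cl_pull, huv, map_sum]
    apply Finset.sum_congr rfl
    intro c _
    rw [TheoryData.ext, map_mul, ← H.pull_comp, ← H.pull_comp, lift_fst, lift_snd]
  -- the colours
  let col : Fin p ⊕ Fin q → ℕ := Sum.elim (fun i => i) (fun j => p + j)
  have hcol : Function.Injective col := by
    rintro (i | i) (j | j) h
    · exact congrArg _ (Fin.ext h)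
    · exfalso
      have h' : (i : ℕ) = p + j := h
      have := i.2
      omega
    · exfalso
      have h' : p + (i : ℕ) = j := h
      have := j.2
      omega
    · have h' : p + (i : ℕ) = p + j := h
      exact congrArg _ (Fin.ext (by omega))
  have hcol2 : ∀ c, col c < p + q := by
    rintro (i | i)
    · change (i : ℕ) < _
      have := i.2; omega
    · change p + (i : ℕ) < _
      have := i.2; omega
  let F : (ι → Fin p ⊕ Fin q) → Equiv.Perm ι → Subring.center (H.A W) :=
    fun r σ => ∏ j, θ (r j) (σ⁻¹ j) j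
  have hF : ∀ r : ι → Fin p ⊕ Fin q, ∑ σ, y σ • F r σ = 0 := by
    intro r
    refine sum_eq_zero_of_hook e hy (r := fun j => col (r j)) (fun j => hcol2 _) (F r) ?_
    intro j1 j2 hj hr σ
    have hr' : r j1 = r j2 := hcol hr
    have hinv : ∀ j, (Equiv.swap j1 j2 * σ)⁻¹ j = σ⁻¹ (Equiv.swap j1 j2 j) := by
      intro j
      rw [mul_inv_rev, Equiv.swap_inv, Equiv.Perm.mul_apply]
    have hsgn : ∀ z : Subring.center (H.A W), sg p (col (r j1)) • z =
        (if (r j1).isLeft then 1 else -1) * z := by
      intro z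
      cases hrj : r j1 with
      | inl i =>
        have : sg p (col (Sum.inl i)) = 1 := if_pos i.2
        rw [this, one_smul]
        simp only [Sum.isLeft_inl, if_true, one_mul]
      | inr i =>
        have : sg p (col (Sum.inr i)) = -1 := if_neg (by
          change ¬ (p + (i : ℕ) < p)
          omega)
        rw [this, neg_one_smul]
        simp only [Sum.isLeft_inr, Bool.false_eq_true, if_false, neg_one_mul]
    rw [hsgn]
    apply prod_two _ _ hj
    · intro l h1 h2
      rw [hinv, Equiv.swap_apply_of_ne_of_ne h1 h2]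
    · rw [hinv, hinv, Equiv.swap_apply_left, Equiv.swap_apply_right, ← hr']
      apply Subtype.ext
      set U1 := H.pull (a (σ⁻¹ j1)) (u (r j1)) with hU1
      set U2 := H.pull (a (σ⁻¹ j2)) (u (r j1)) with hU2
      set V1 := H.pull (b j1) (v (r j1)) with hV1
      set V2 := H.pull (b j2) (v (r j1)) with hV2
      cases hrj : r j1 with
      | inl i =>
        simp only [Sum.isLeft_inl, if_true, one_mul]
        rw [hrj] at hU1 hU2 hV1 hV2
        have eU1 : U1 ∈ evenPart H W := by rw [hU1]; exact pull_even _ (hev i).1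
        have eU2 : U2 ∈ evenPart H W := by rw [hU2]; exact pull_even _ (hev i).1
        have eV1 : V1 ∈ evenPart H W := by rw [hV1]; exact pull_even _ (hev i).2
        change H.pull (a (σ⁻¹ j2)) (u (Sum.inl i)) * H.pull (b j1) (v (Sum.inl i)) *
          (H.pull (a (σ⁻¹ j1)) (u (Sum.inl i)) * H.pull (b j2) (v (Sum.inl i))) =
          H.pull (a (σ⁻¹ j1)) (u (Sum.inl i)) * H.pull (b j1) (v (Sum.inl i)) *
          (H.pull (a (σ⁻¹ j2)) (u (Sum.inl i)) * H.pull (b j2) (v (Sum.inl i)))
        rw [← hU1, ← hU2, ← hV1, ← hV2]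
        calc U2 * V1 * (U1 * V2) = U2 * (V1 * U1) * V2 := by simp only [mul_assoc]
          _ = U2 * (U1 * V1) * V2 := by rw [even_comm hg eV1]
          _ = (U2 * U1) * (V1 * V2) := by simp only [mul_assoc]
          _ = (U1 * U2) * (V1 * V2) := by rw [even_comm hg eU2]
          _ = U1 * (U2 * V1) * V2 := by simp only [mul_assoc]
          _ = U1 * (V1 * U2) * V2 := by rw [even_comm hg eU2 V1]
          _ = U1 * V1 * (U2 * V2) := by simp only [mul_assoc]
      | inr i =>
        simp only [Sum.isLeft_inr, Bool.false_eq_true, if_false]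
        rw [hrj] at hU1 hU2 hV1 hV2
        have eU1 : U1 ∈ oddPart H W := by rw [hU1]; exact pull_odd _ (hod i).1
        have eU2 : U2 ∈ oddPart H W := by rw [hU2]; exact pull_odd _ (hod i).1
        have eV1 : V1 ∈ oddPart H W := by rw [hV1]; exact pull_odd _ (hod i).2
        change H.pull (a (σ⁻¹ j2)) (u (Sum.inr i)) * H.pull (b j1) (v (Sum.inr i)) *
          (H.pull (a (σ⁻¹ j1)) (u (Sum.inr i)) * H.pull (b j2) (v (Sum.inr i))) =
          -1 * (H.pull (a (σ⁻¹ j1)) (u (Sum.inr i)) * H.pull (b j1) (v (Sum.inr i)) *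
          (H.pull (a (σ⁻¹ j2)) (u (Sum.inr i)) * H.pull (b j2) (v (Sum.inr i))))
        rw [← hU1, ← hU2, ← hV1, ← hV2]
        calc U2 * V1 * (U1 * V2) = U2 * (V1 * U1) * V2 := by simp only [mul_assoc]
          _ = -(U2 * (U1 * V1) * V2) := by
            rw [odd_anticomm hg eV1 eU1]
            simp only [mul_neg, neg_mul]
          _ = -((U2 * U1) * (V1 * V2)) := by simp only [mul_assoc]
          _ = (U1 * U2) * (V1 * V2) := by
            rw [odd_anticomm hg eU2 eU1]
            simp only [neg_mul, neg_neg]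
          _ = U1 * (U2 * V1) * V2 := by simp only [mul_assoc]
          _ = -(U1 * (V1 * U2) * V2) := by
            rw [odd_anticomm hg eU2 eV1]
            simp only [mul_neg, neg_mul]
          _ = -1 * (U1 * V1 * (U2 * V2)) := by simp only [mul_assoc, neg_one_mul]
  have hexp : cl' (fc y (fun _ => dg C X) a b) = ∑ r : ι → Fin p ⊕ Fin q, ∑ σ, y σ • F r σ := by
    rw [Finset.sum_comm, fc, map_sum]
    apply Finset.sum_congr rfl
    intro σ _
    rw [hsm, map_prod, ← Finset.smul_sum]
    congr 1
    have h1 : ∏ i, cl' (ev (dg C X) (a i) (b (σ i))) = ∏ j, ∑ c, θ c (σ⁻¹ j) j := by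
      rw [← Equiv.prod_comp σ⁻¹]
      apply Finset.prod_congr rfl
      intro j _
      rw [ais, hcl]
    rw [h1, Finset.prod_univ_sum, Fintype.piFinset_univ]
  have h0 : cl' (fc y (fun _ => dg C X) a b) = 0 := by
    rw [hexp]
    exact Finset.sum_eq_zero fun r _ => hF r
  exact congrArg Subtype.val h0

/-- The class of the combination of permutations given by a rectangle vanishes. -/
lemma cl_fc_eq_zero (hg : GradedCommutative H) [Module.Finite K (H.A X)] {ι : Type} [Fintype ι]
    [DecidableEq ι] {y : Equiv.Perm ι → ℚ}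
    (e : ι ≃ Fin (Module.finrank K (evenPart H X) + 1) × Fin (Module.finrank K (oddPart H X) + 1))
    (hy : RC e y) (a b : ι → (W ⟶ X)) : H.cl (fc y (fun _ => dg C X) a b) = 0 := by
  obtain ⟨u, v, hev, hod, huv⟩ := exists_parts (H := H) X
  exact cl_fc_eq_zero_aux hg hev hod huv e hy a b

/-- Homologically trivial classes are numerically trivial. -/
lemma num_of_cl_eq_zero {i : ℤ} {z : C.A W} (hz : z ∈ C.gr W i) (h : H.cl z = 0) :
    z ∈ numFam C W i := by
  refine mem_numFam.2 ⟨hz, fun b hb => ?_⟩
  have hm : C.mul z b ∈ C.gr W W.dim := by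
    have := C.mul_mem hz hb
    rwa [show i + ((W.dim : ℤ) - i) = W.dim by ring] at this
  obtain ⟨q, hq⟩ := exists_hasDegree hm
  have h1 := (hq W).1
  have h2 : H.cl (q • (1 : C.A W)) = 0 := by
    rw [← h1, H.cl_push, H.cl_pull]
    have : H.cl (C.mul z b) = 0 := by
      rw [show C.mul z b = z * b from rfl, map_mul, h, zero_mul]
    rw [this, map_zero, map_zero]
  have hq0 : q = 0 := by
    by_contra hne
    have h3 : H.cl ((q⁻¹ • (1 : C.A W)) * (q • (1 : C.A W))) = 0 := by
      rw [map_mul, h2, mul_zero]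
    rw [smul_mul_smul_comm, inv_mul_cancel₀ hne, one_smul, mul_one, map_one] at h3
    exact hH.one_ne_zero W h3
  rw [hq0] at hq
  exact hq

/-- The permutations of the power of exponent `(b⁺ + 1)(b⁻ + 1)` are numerically dependent. -/
theorem KI_num_ne_bot (hg : GradedCommutative H) (X : 𝒱.Obj) [Module.Finite K (H.A X)] :
    KI (numFam C) X (Fin ((Module.finrank K (evenPart H X) + 1) *
      (Module.finrank K (oddPart H X) + 1))) ≠ ⊥ := by
  intro h0
  let e := (finProdFinEquiv (m := Module.finrank K (evenPart H X) + 1)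
    (n := Module.finrank K (oddPart H X) + 1)).symm
  have h1 : yG e ∈ KI (numFam C) X (Fin ((Module.finrank K (evenPart H X) + 1) *
      (Module.finrank K (oddPart H X) + 1))) := by
    intro W x y
    exact num_of_cl_eq_zero (fc_mem _ (fun _ => dg_mem C X) _ _)
      (cl_fc_eq_zero hg e (yG_RC e) x y)
  rw [h0, Submodule.mem_bot] at h1
  have h2 := yG_one e
  rw [h1] at h2
  exact zero_ne_one h2

end weil

end Pool.Agent.Q55.Nil
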