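import Pool.Agent.Q55.Nil.Hook

/-!
# Contents of rectangles
-/

set_option linter.unusedSectionVars false

namespace Pool.Agent.Q55.Nil

open Finset Equiv

section rcf

variable {L : Type*} [Fintype L] [DecidableEq L] {b : ℕ}

/-- Functions invariant under row permutations on the left, alternating under column permutations
on the right, for given rows and columns of the letters. -/
structure RCf (row : L → ℕ) (col : L → Fin b) (y : Perm L → ℚ) : Prop where
  row : ∀ ρ : Perm L, (∀ x, row (ρ x) = row x) → ∀ σ, y (ρ * σ) = y σ
  col : ∀ κ : Perm L, (∀ x, col (κ x) = col x) → ∀ σ,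
    y (σ * κ) = ((Perm.sign κ : ℤ) : ℚ) * y σ

variable {row : L → ℕ} {col : L → Fin b} {y : Perm L → ℚ}

lemma RCf.rv (h : RCf row col y) : RV Lt (fun _ => 1) row y := by
  intro x z hxz hr
  funext σ
  rw [Lt_apply, Pi.smul_apply, one_smul, swap_inv]
  exact h.row _ (swap_inv' row x z hr) _

lemma RCf.low (h : RCf row col y) (z : L) (j : ℕ) (hj : row z ≠ j)
    (hcard : (univ.filter fun x => row x = j).card = b) : bs Lt row j z y = -y := by
  have h1 := lower Lt (s := fun _ => 1) (by intro; norm_num) h.rv z j hj
  rw [one_smul] at h1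
  set y' := y + bs Lt row j z y with hy'
  have h2 : y' = 0 := by
    funext σ
    set T := insert z (univ.filter fun x => row x = j) with hT
    have hTc : (univ : Finset (Fin b)).card < T.card := by
      rw [hT, card_insert_of_notMem (by simp [hj]), hcard, card_univ, Fintype.card_fin]
      exact Nat.lt_succ_self b
    obtain ⟨u, hu, v, hv, huv, hc⟩ := Finset.exists_ne_map_eq_of_card_lt_of_maps_to
      (s := T) (t := (univ : Finset (Fin b))) hTc
      (f := fun x => col (σ⁻¹ x)) (fun x _ => mem_univ _)
    have hcT : ∀ w ∈ T, Function.update row z j w = j := by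
      intro w hw
      by_cases hwz : w = z
      · rw [hwz, Function.update_self]
      · rw [Function.update_of_ne hwz]
        rw [hT, mem_insert, mem_filter] at hw
        rcases hw with hw | hw
        · exact absurd hw hwz
        · exact hw.2
    have h3 := congrFun (h1 u v huv (by rw [hcT u hu, hcT v hv])) σ
    rw [Lt_apply, swap_inv, Pi.smul_apply, one_smul] at h3
    have h4 : swap u v * σ = σ * swap (σ⁻¹ u) (σ⁻¹ v) := by
      have := swap_apply_apply σ (σ⁻¹ u) (σ⁻¹ v)
      rw [ais, ais] at this
      rw [this]
      simp [mul_assoc]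
    have hne : σ⁻¹ u ≠ σ⁻¹ v := fun h => huv (σ⁻¹.injective h)
    have hcol : ∀ κ : Perm L, (∀ x, col (κ x) = col x) → ∀ σ,
        y' (σ * κ) = ((Perm.sign κ : ℤ) : ℚ) * y' σ := by
      intro κ hκ σ
      rw [hy']
      simp only [bs, Pi.add_apply, Finset.sum_apply, Lt_apply]
      rw [h.col κ hκ, mul_add, mul_sum]
      congr 1
      apply sum_congr rfl
      intro x _
      rw [← mul_assoc, h.col κ hκ]
    rw [h4, hcol _ (swap_inv' col _ _ hc), Perm.sign_swap hne] at h3
    push_cast at h3
    rw [Pi.zero_apply]
    linarith
  rw [← add_eq_zero_iff_eq_neg', ← hy', h2]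

/-- The Jucys-Murphy element of a letter at the end of the last row, the other rows being full. -/
lemma RCf.jm (h : RCf row col y) (z : L) {i c : ℕ} (hi : row z = i) (hle : ∀ x, row x ≤ i)
    (hfull : ∀ j < i, (univ.filter fun x => row x = j).card = b)
    (hc : (univ.filter fun x => row x = i).card = c + 1) :
    jm Lt z y = ((c : ℚ) - i) • y := by
  have h0 : (univ.erase z : Finset L) =
      ((univ.filter fun x => row x = i).erase z) ∪
        (range i).biUnion (fun j => univ.filter fun x => row x = j) := by
    ext x
    simp only [mem_erase, mem_univ, and_true, mem_union, mem_filter, true_and, mem_biUnion,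
      mem_range]
    constructor
    · intro hx
      by_cases hr : row x = i
      · exact Or.inl ⟨hx, hr⟩
      · have := hle x
        exact Or.inr ⟨row x, by omega, rfl⟩
    · rintro (⟨h1, _⟩ | ⟨j, h1, h2⟩)
      · exact h1
      · rintro rfl
        omega
  unfold Nil.jm
  rw [h0, sum_union, sum_biUnion]
  · have h1 : ∀ x ∈ (univ.filter fun x => row x = i).erase z, Lt (swap x z) y = y := by
      intro x hx
      rw [mem_erase, mem_filter] at hx
      have := h.rv x z hx.1 (by rw [hx.2.2, hi])
      rwa [one_smul] at this
    have h2 : ∀ j ∈ range i, ∑ x ∈ univ.filter (fun x => row x = j), Lt (swap x z) y = -y := by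
      intro j hj
      have hj' := mem_range.1 hj
      exact h.low z j (by omega) (hfull j hj')
    rw [sum_congr rfl h1, sum_congr rfl h2, sum_const, sum_const, card_erase_of_mem
      (show z ∈ univ.filter (fun x => row x = i) from mem_filter.2 ⟨mem_univ _, hi⟩), hc,
      card_range, ← Nat.cast_smul_eq_nsmul ℚ, ← Nat.cast_smul_eq_nsmul ℚ, smul_neg,
      ← sub_eq_add_neg, ← sub_smul]
    congr 1
  · intro j _ j' _ hjj'
    rw [Function.onFun, disjoint_left]
    intro x hx hx'
    simp only [mem_filter, mem_univ, true_and] at hx hx'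
    exact hjj' (hx.symm.trans hx')
  · rw [disjoint_left]
    intro x hx hx'
    simp only [mem_erase, mem_filter, mem_univ, true_and, mem_biUnion, mem_range] at hx hx'
    obtain ⟨j, h1, h2⟩ := hx'
    omega

end rcf

section content

variable {χ : ℚ} {b : ℕ} [NeZero b]

/-- The rows and columns of the letters in reading order. -/
lemma card_row_lt (m j : ℕ) (hj : (j + 1) * b ≤ m) :
    (univ.filter fun x : Fin m => (x : ℕ) / b = j).card = b := by
  have hb : 0 < b := Nat.pos_of_ne_zero (NeZero.ne b)
  have h1 : (univ.filter fun x : Fin m => (x : ℕ) / b = j).map Fin.valEmbedding =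
      Finset.Ico (j * b) ((j + 1) * b) := by
    ext k
    simp only [mem_map, mem_filter, mem_univ, true_and, Fin.valEmbedding_apply, Finset.mem_Ico]
    constructor
    · rintro ⟨x, h1, rfl⟩
      constructor
      · rw [← h1]; exact Nat.div_mul_le_self _ _
      · rw [← Nat.div_lt_iff_lt_mul hb]
        omega
    · rintro ⟨h1, h2⟩
      refine ⟨⟨k, by omega⟩, ?_, rfl⟩
      apply Nat.div_eq_of_lt_le
      · exact h1
      · exact h2
  rw [← card_map Fin.valEmbedding, h1, Nat.card_Ico]
  have : (j + 1) * b = j * b + b := by ring
  omega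

lemma card_row_last (m : ℕ) :
    (univ.filter fun x : Fin (m + 1) => (x : ℕ) / b = m / b).card = m % b + 1 := by
  have hb : 0 < b := Nat.pos_of_ne_zero (NeZero.ne b)
  have hm := Nat.div_add_mod m b
  have h1 : (univ.filter fun x : Fin (m + 1) => (x : ℕ) / b = m / b).map Fin.valEmbedding =
      Finset.Ico (m / b * b) (m + 1) := by
    ext k
    simp only [mem_map, mem_filter, mem_univ, true_and, Fin.valEmbedding_apply, Finset.mem_Ico]
    constructor
    · rintro ⟨x, h1, rfl⟩
      refine ⟨?_, x.2⟩
      rw [← h1]; exact Nat.div_mul_le_self _ _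
    · rintro ⟨h1, h2⟩
      refine ⟨⟨k, h2⟩, ?_, rfl⟩
      apply Nat.div_eq_of_lt_le
      · exact h1
      · have h3 : (m / b + 1) * b = b * (m / b) + b := by ring
        have h4 := Nat.mod_lt m hb
        change k < (m / b).succ * b
        rw [Nat.succ_eq_add_one, h3]
        omega
  rw [← card_map Fin.valEmbedding, h1, Nat.card_Ico]
  have : m / b * b = b * (m / b) := by ring
  omega

/-- The column of a letter. -/
def colF (b : ℕ) [NeZero b] (k : ℕ) : Fin b := ⟨k % b, Nat.mod_lt _ (Nat.pos_of_ne_zero
  (NeZero.ne b))⟩

/-- A function with the behaviour of the rectangle in reading order vanishes at the identity if it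
belongs to the family and no content is `-χ`. -/
theorem PFam.one_eq_zero (𝒦 : PFam χ) (h0 : 𝒦.K (Fin 0) = ⊥) (m : ℕ)
    (hne : ∀ k < m, χ + ((k % b : ℕ) : ℚ) - ((k / b : ℕ) : ℚ) ≠ 0) {y : Perm (Fin m) → ℚ}
    (hy : y ∈ 𝒦.K (Fin m))
    (hRC : RCf (fun k : Fin m => (k : ℕ) / b) (fun k : Fin m => colF b k) y) : y 1 = 0 := by
  induction m with
  | zero =>
    rw [h0, Submodule.mem_bot] at hy
    rw [hy]
    rfl
  | succ m ih =>
    let e : Fin (m + 1) ≃ Option (Fin m) := finSuccEquivLast
    set w := liftE e.toEmbedding y with hw
    have hwmem : w ∈ 𝒦.K (Option (Fin m)) := 𝒦.lift _ hy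
    have hwv : ∀ σ : Perm (Fin (m + 1)), w (via e.toEmbedding σ) = y σ := liftE_via _ _
    have hsurj : ∀ ρ : Perm (Option (Fin m)), ∃ σ : Perm (Fin (m + 1)),
        via e.toEmbedding σ = ρ := by
      intro ρ
      refine ⟨via e.symm.toEmbedding ρ, ?_⟩
      ext1 x
      obtain ⟨z, rfl⟩ := e.surjective x
      have h1 := via_img e.toEmbedding (via e.symm.toEmbedding ρ) z
      rw [Equiv.coe_toEmbedding] at h1
      rw [h1]
      obtain ⟨x, rfl⟩ := e.symm.surjective z
      have h2 := via_img e.symm.toEmbedding ρ x
      rw [Equiv.coe_toEmbedding] at h2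
      rw [h2, Equiv.apply_symm_apply, Equiv.apply_symm_apply]
    -- the indices
    let idx : Option (Fin m) → ℕ := fun o => ((e.symm o : Fin (m + 1)) : ℕ)
    have hidx0 : idx none = m := by
      simp only [idx, e, finSuccEquivLast_symm_none, Fin.val_last]
    have hidxs : ∀ k : Fin m, idx (some k) = k := by
      intro k
      simp only [idx, e, finSuccEquivLast_symm_some, Fin.val_castSucc]
    have hwRC : RCf (fun o => idx o / b) (fun o => colF b (idx o)) w := by
      constructor
      · intro ρ hρ σ
        obtain ⟨ρ', rfl⟩ := hsurj ρ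
        obtain ⟨σ', rfl⟩ := hsurj σ
        rw [← via_mul, hwv, hwv]
        apply hRC.row
        intro x
        have h1 := hρ (e x)
        have h2 := via_img e.toEmbedding ρ' x
        rw [Equiv.coe_toEmbedding] at h2
        rw [h2] at h1
        simpa [idx] using h1
      · intro ρ hρ σ
        obtain ⟨ρ', rfl⟩ := hsurj ρ
        obtain ⟨σ', rfl⟩ := hsurj σ
        rw [← via_mul, hwv, hwv, Perm.viaFintypeEmbedding_sign]
        apply hRC.col
        intro x
        have h1 := hρ (e x)
        have h2 := via_img e.toEmbedding ρ' x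
        rw [Equiv.coe_toEmbedding] at h2
        rw [h2] at h1
        simpa [idx] using h1
    have hcardo : ∀ P : ℕ → Prop, ∀ [DecidablePred P],
        (univ.filter fun o : Option (Fin m) => P (idx o)).card =
          (univ.filter fun x : Fin (m + 1) => P x).card := by
      intro P _
      apply card_bij (fun o _ => e.symm o)
      · intro o ho
        simpa [idx] using ho
      · intro o _ o' _ h
        exact e.symm.injective h
      · intro x hx
        refine ⟨e x, ?_, by simp⟩
        simpa [idx] using hx
    have hjm := hwRC.jm none (i := m / b) (c := m % b) (by rw [hidx0]) (by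
        intro o
        apply Nat.div_le_div_right
        have := (e.symm o).2
        change ((e.symm o : Fin (m + 1)) : ℕ) ≤ m
        omega) (by
        intro j hj
        rw [hcardo (fun k => k / b = j)]
        apply card_row_lt
        have h1 : (j + 1) * b ≤ m / b * b := Nat.mul_le_mul_right b hj
        have h2 := Nat.div_mul_le_self m b
        omega) (by
        rw [hcardo (fun k => k / b = m / b)]
        exact card_row_last m)
    -- the partial trace
    have hptr : Nil.ptr χ w = (χ + ((m % b : ℕ) : ℚ) - ((m / b : ℕ) : ℚ)) •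
        (fun τ : Perm (Fin m) => w (optionCongr τ)) := by
      funext τ
      have h1 := congrFun hjm (optionCongr τ)
      have h2 : Nil.jm Lt none w (optionCongr τ) =
          ∑ u : Fin m, w (swap none (some u) * optionCongr τ) := by
        unfold Nil.jm
        rw [Finset.sum_apply]
        have h3 : (univ.erase none : Finset (Option (Fin m))) = univ.image some := by
          ext x
          cases x <;> simp
        rw [h3, sum_image (fun _ _ _ _ h => Option.some_injective _ h)]
        apply sum_congr rfl
        intro u _
        rw [Lt_apply, swap_inv, swap_comm]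
      rw [h2, Pi.smul_apply, smul_eq_mul] at h1
      rw [Nil.ptr, h1, Pi.smul_apply, smul_eq_mul]
      ring
    have hmem := 𝒦.ptr hwmem
    rw [hptr] at hmem
    have hne' := hne m (Nat.lt_succ_self m)
    have hmem2 := Submodule.smul_mem _ (χ + ((m % b : ℕ) : ℚ) - ((m / b : ℕ) : ℚ))⁻¹ hmem
    rw [smul_smul, inv_mul_cancel₀ hne', one_smul] at hmem2
    have hoc : ∀ (τ : Perm (Fin m)) (i : Fin m), (optionCongr τ : Perm (Option (Fin m))) (some i) =
        some (τ i) := fun τ i => rfl
    have hoc0 : ∀ (τ : Perm (Fin m)), (optionCongr τ : Perm (Option (Fin m))) none =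
        none := fun τ => rfl
    have hocm : ∀ ρ σ : Perm (Fin m), (optionCongr (ρ * σ) : Perm (Option (Fin m))) =
        optionCongr ρ * optionCongr σ := by
      intro ρ σ
      rw [← via_some, ← via_some, ← via_some, via_mul]
    have hfin := ih (fun k hk => hne k (by omega)) hmem2 (by
      constructor
      · intro ρ hρ σ
        rw [hocm]
        apply hwRC.row
        rintro (_ | x)
        · rfl
        · rw [hoc, hidxs, hidxs]
          exact hρ x
      · intro κ hκ σ
        rw [hocm, ← Equiv.optionCongr_sign κ]
        apply hwRC.col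
        rintro (_ | x)
        · rfl
        · rw [hoc, hidxs, hidxs]
          exact hκ x)
    rw [Equiv.optionCongr_one] at hfin
    have h3 := hwv 1
    rw [via_one, hfin] at h3
    exact h3.symm

end content

end Pool.Agent.Q55.Nil
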