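import Pool.Agent.Q55.Nil.Defs
import Pool.Agent.Q55.Nil.Chi
import Pool.Agent.Q55.Nil.Blk

/-!
# Types, phantoms and nilpotence
-/

open CategoryTheory AlgebraicGeometry

universe u v w

namespace Pool.Agent.Q55.Nil

open Pool.Agent.H914 Pool.Agent.H914.VarClass Pool.Agent.H914.VarClass.Obj Pool.Agent.W492.BB
  Pool.Agent.W550.Corr Pool.Agent.TH133 Pool.Agent.TH829.Prime Pool.Agent.TH829.Kim
open Pool.Agent.Y110 (GradedCommutative)

set_option linter.unusedSectionVars false

variable {k : Type u} [Field k] {𝒱 : VarClass k}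

section fam

variable {χ : ℚ}

/-- The least degree of a family. -/
lemma PFam.exists_type (𝒦 : PFam χ) (h0 : 𝒦.K (Fin 0) = ⊥) {n : ℕ} (hn : 𝒦.K (Fin n) ≠ ⊥) :
    ∃ a b : ℕ, (b : ℚ) + 1 = (a + 1) - χ ∧ (a + 1) * (b + 1) ≤ n ∧
      𝒦.K (Fin ((a + 1) * (b + 1))) ≠ ⊥ ∧ ∀ m < (a + 1) * (b + 1), 𝒦.K (Fin m) = ⊥ := by
  classical
  have hex : ∃ n, 𝒦.K (Fin n) ≠ ⊥ := ⟨n, hn⟩
  set N := Nat.find hex with hN
  have h1 : 𝒦.K (Fin N) ≠ ⊥ := Nat.find_spec hex
  have h2 : ∀ m < N, 𝒦.K (Fin m) = ⊥ := fun m hm => not_not.1 (Nat.find_min hex hm)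
  have h3 : N ≠ 0 := by
    intro h
    rw [h] at h1
    exact h1 h0
  obtain ⟨M, hM⟩ := Nat.exists_eq_succ_of_ne_zero h3
  have hM' : N = M + 1 := hM
  have h4 : 𝒦.K (Option (Fin M)) ≠ ⊥ := by
    intro h
    apply h1
    rw [hM']
    exact (𝒦.eq_bot_iff (finSuccEquiv M)).2 h
  obtain ⟨a, b, ha, hb, hab, hcard, -⟩ := 𝒦.grid (h2 M (by omega)) h4
  rw [Fintype.card_option, Fintype.card_fin, ← hM'] at hcard
  obtain ⟨a', rfl⟩ := Nat.exists_eq_succ_of_ne_zero ha.ne'
  obtain ⟨b', rfl⟩ := Nat.exists_eq_succ_of_ne_zero hb.ne'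
  refine ⟨a', b', ?_, ?_, ?_, ?_⟩
  · push_cast at hab
    linarith
  · have := Nat.find_min' hex hn
    rw [← hN, hcard] at this
    exact this
  · have h5 : N = (a' + 1) * (b' + 1) := hcard
    rw [← h5]
    exact h1
  · intro m hm
    have h5 : N = (a' + 1) * (b' + 1) := hcard
    rw [← h5] at hm
    exact h2 m hm

end fam

section chow

variable {C : TheoryData.{u, v, 0} 𝒱 ℚ} [hC : IsChowProj C] {X Y Z W V P : 𝒱.Obj}

include hC

lemma permClass_eq {n : ℕ} (c : Equiv.Perm (Fin n) → ℚ) (x y : Fin n → (W ⟶ X)) :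
    permClass C c x y = fc c (fun _ => dg C X) x y := by
  unfold permClass fc
  apply Finset.sum_congr rfl
  intro σ _
  rw [List.prod_ofFn]
  rfl

lemma relation_iff {I : Family C} {n : ℕ} {c : Equiv.Perm (Fin n) → ℚ} :
    Relation C I X c ↔ c ∈ KI I X (Fin n) := by
  constructor
  · intro h W x y
    have h1 := h W x y
    rw [permClass_eq] at h1
    rw [Fintype.card_fin]
    exact h1
  · intro h W x y
    have h1 := h W x y
    rw [permClass_eq]
    rw [Fintype.card_fin] at h1
    exact h1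

lemma dep_iff {I : Family C} {n : ℕ} : Dep C I X n ↔ KI I X (Fin n) ≠ ⊥ := by
  rw [Submodule.ne_bot_iff]
  constructor
  · rintro ⟨c, h1, h2⟩
    exact ⟨c, relation_iff.1 h2, h1⟩
  · rintro ⟨c, h1, h2⟩
    exact ⟨c, h2, relation_iff.2 h1⟩

lemma KI_zero {I : Family C} (hI : IsAdequate C I) (h1 : ∀ Z : 𝒱.Obj, (1 : C.A Z) ∉ I Z 0)
    (X : 𝒱.Obj) : KI I X (Fin 0) = ⊥ := by
  rw [Submodule.eq_bot_iff]
  intro c hc
  by_contra hne
  have h2 := hc X Fin.elim0 Fin.elim0
  have h3 : fc c (fun _ => dg C X) (Fin.elim0 : Fin 0 → (X ⟶ X)) Fin.elim0 =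
      c 1 • (1 : C.A X) := by
    rw [fc, Fintype.sum_unique]
    simp only [Finset.univ_eq_empty, Finset.prod_empty]
    rfl
  have h4 : c 1 ≠ 0 := by
    intro h
    apply hne
    funext σ
    rw [Subsingleton.elim σ 1, h]
    rfl
  rw [h3] at h2
  have h5 := Submodule.smul_mem _ (c 1)⁻¹ h2
  rw [smul_smul, inv_mul_cancel₀ h4, one_smul] at h5
  refine h1 X (hI.congr ?_ h5)
  rw [Fintype.card_fin]
  push_cast
  ring

/-- The type modulo an adequate relation. -/
lemma exists_type_of (hne : ∀ X : 𝒱.Obj, (1 : C.A X) ≠ 0) {I : Family C} (hI : IsAdequate C I)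
    (h1 : ∀ Z : 𝒱.Obj, (1 : C.A Z) ∉ I Z 0) {n : ℕ} (hn : KI I X (Fin n) ≠ ⊥) :
    ∃ a b : ℕ, (b : ℚ) + 1 = (a + 1) - chi hne X ∧ (a + 1) * (b + 1) ≤ n ∧
      KI I X (Fin ((a + 1) * (b + 1))) ≠ ⊥ ∧ ∀ m < (a + 1) * (b + 1), KI I X (Fin m) = ⊥ :=
  (famI hne I hI X).exists_type (KI_zero hI h1 X) hn

lemma hasType_iff {I : Family C} {p q : ℕ} : HasType C I X p q ↔
    KI I X (Fin ((p + 1) * (q + 1))) ≠ ⊥ ∧ ∀ n < (p + 1) * (q + 1), KI I X (Fin n) = ⊥ := by
  unfold HasType
  simp only [dep_iff, ne_eq, not_not]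

/-- If all numerical relations between permutations hold modulo `I` then numerically trivial
correspondences are nilpotent. -/
lemma pow_mem_of_eq (hne : ∀ X : 𝒱.Obj, (1 : C.A X) ≠ 0) {I : Family C} (hI : IsAdequate C I)
    (heq : ∀ n, KI I Y (Fin n) = KI (numFam C) Y (Fin n)) {N : ℕ}
    (hN : KI (numFam C) Y (Fin (N + 1)) ≠ ⊥) {f : R0 C Y}
    (hf : toA f ∈ numFam C (Y.prod Y) Y.dim) : toA (f ^ N) ∈ I (Y.prod Y) Y.dim := by
  classical
  have hnum := isAdequate_numFam hne
  have hnum1 := (isPrime_numFam hne).one_notMem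
  have hex : ∃ n, KI (numFam C) Y (Fin n) ≠ ⊥ := ⟨_, hN⟩
  set M := Nat.find hex with hMdef
  have h2 : KI (numFam C) Y (Fin M) ≠ ⊥ := Nat.find_spec hex
  have h3 : ∀ m < M, KI (numFam C) Y (Fin m) = ⊥ := fun m hm => not_not.1 (Nat.find_min hex hm)
  have h4 : M ≠ 0 := by
    intro h
    rw [h] at h2
    exact h2 (KI_zero hnum hnum1 Y)
  obtain ⟨M', hM'⟩ := Nat.exists_eq_succ_of_ne_zero h4
  have hMM : M = M' + 1 := hM'
  have hMN : M ≤ N + 1 := Nat.find_min' hex hN
  -- a relation with nonzero coefficient at the identity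
  have h5 : KI I Y (Option (Fin M')) ≠ ⊥ := by
    intro h
    apply h2
    rw [hMM, ← heq]
    exact ((famI hne I hI Y).eq_bot_iff (finSuccEquiv M')).2 h
  obtain ⟨c, hc, hc0⟩ := Submodule.exists_mem_ne_zero_of_ne_bot h5
  obtain ⟨σ0, hσ0⟩ := Function.ne_iff.1 hc0
  have h6 : Rt σ0 c ∈ KI I Y (Option (Fin M')) := (twoSided_KI I Y).rt _ _ hc
  have h7 : (fun τ : Equiv.Perm (Fin M') => Rt σ0 c (Equiv.optionCongr τ)) ∉
      KI (numFam C) Y (Fin M') := by
    rw [h3 M' (by omega), Submodule.mem_bot]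
    intro h8
    have h9 := congrFun h8 1
    rw [Equiv.optionCongr_one, Rt_apply, one_mul, Pi.zero_apply] at h9
    exact hσ0 h9
  have h8 := pow_mem hne hI h6 h7 hf
  rw [Fintype.card_fin] at h8
  obtain ⟨d, hd⟩ := Nat.exists_eq_add_of_le (show M' ≤ N by omega)
  rw [hd, pow_add, toA_mul]
  exact adq_comp_right hI (toA_mem _) h8

lemma compList_toA (l : List (R0 C Y)) : compList C Y (l.map fun a => toA a) = toA l.reverse.prod := by
  induction l with
  | nil => rfl
  | cons a l ih =>
    rw [List.map_cons, compList, ih, List.reverse_cons, List.prod_append, List.prod_singleton,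
      toA_mul]

lemma exists_list {l : List (C.A (Y.prod Y))} (h : ∀ f ∈ l, C.Deg Y.dim f) :
    ∃ l' : List (R0 C Y), l'.map (fun a => toA a) = l := by
  induction l with
  | nil => exact ⟨[], rfl⟩
  | cons a l ih =>
    obtain ⟨l', hl'⟩ := ih fun f hf => h f (List.mem_cons_of_mem _ hf)
    refine ⟨ofA a (h a List.mem_cons_self) :: l', ?_⟩
    rw [List.map_cons, hl']
    rfl

omit hC in
lemma prod_mem_pow {R : Type*} [Ring R] [Algebra ℚ R] {B : Submodule ℚ R} (l : List R)
    (h : ∀ a ∈ l, a ∈ B) : l.prod ∈ B ^ l.length := by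
  induction l with
  | nil =>
    rw [List.prod_nil, List.length_nil, pow_zero]
    exact Submodule.one_le.1 le_rfl
  | cons a l ih =>
    rw [List.prod_cons, List.length_cons, pow_succ']
    exact Submodule.mul_mem_mul (h a List.mem_cons_self)
      (ih fun b hb => h b (List.mem_cons_of_mem _ hb))

/-- The nilpotent ideal. -/
lemma nilpotentWith_of (hne : ∀ X : 𝒱.Obj, (1 : C.A X) ≠ 0) {I : Family C} (hI : IsAdequate C I)
    (hle : I ≤ numFam C) {r : ℕ} (hr : ∀ f : R0 C Y, toA f ∈ numFam C (Y.prod Y) Y.dim →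
      toA (f ^ r) ∈ I (Y.prod Y) Y.dim) : NilpotentWith C I Y r := by
  have hnum := isAdequate_numFam hne
  constructor
  · intro f hf hnf
    have h1 := compList_toA (C := C) (List.replicate r (ofA f hf))
    rw [List.map_replicate, List.reverse_replicate, List.prod_replicate, toA_ofA] at h1
    rw [h1]
    exact hr _ ⟨hf, hnf⟩
  · intro l hl hmem
    obtain ⟨l', rfl⟩ := exists_list fun f hf => (hmem f hf).1
    rw [compList_toA]
    let B : Submodule ℚ (R0 C Y) := (numFam C (Y.prod Y) Y.dim).comap toA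
    let J : Submodule ℚ (R0 C Y) := (I (Y.prod Y) Y.dim).comap toA
    have hlen : l'.reverse.length = 2 ^ r - 1 := by
      rw [List.length_reverse]
      rwa [List.length_map] at hl
    have h1 : l'.reverse.prod ∈ B ^ (2 ^ r - 1) := by
      have := prod_mem_pow (B := B) l'.reverse (fun a ha => by
        rw [List.mem_reverse] at ha
        have h2 := hmem (toA a) (List.mem_map_of_mem ha)
        exact ⟨h2.1, h2.2⟩)
      rwa [hlen] at this
    have hJ : B ^ (2 ^ r - 1) ≤ J := by
      cases r with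
      | zero =>
        have h2 := hr 0 (by rw [map_zero]; exact Submodule.zero_mem _)
        rw [pow_zero] at h2
        intro z _
        have h3 := adq_comp_right hI (toA_mem z) h2
        change toA z ∈ I (Y.prod Y) Y.dim
        rwa [toA_one, comp_dg] at h3
      | succ r =>
        apply nagata_higman r
        · intro x hx y hy
          change toA (x * y) ∈ numFam C (Y.prod Y) Y.dim
          rw [toA_mul]
          exact adq_comp_right hnum (toA_mem y) hx
        · intro x hx
          exact hle _ _ hx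
        · intro x hx y hy
          change toA (x * y) ∈ I (Y.prod Y) Y.dim
          rw [toA_mul]
          exact adq_comp_left hI hy (toA_mem x)
        · intro x hx y hy
          change toA (x * y) ∈ I (Y.prod Y) Y.dim
          rw [toA_mul]
          exact adq_comp_right hI (toA_mem y) hx
        · intro x hx
          exact hr x hx
    exact hJ h1

/-! ### Direct summands -/

lemma adq_left' {I : Family C} (hI : IsAdequate C I) {i j : ℤ} {a : C.A (X.prod Y)}
    {b : C.A (Y.prod Z)} (ha : a ∈ I (X.prod Y) i) (hb : b ∈ C.gr (Y.prod Z) j) :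
    C.comp a b ∈ I (X.prod Z) (i + j - Y.dim) := by
  have h := hI.push_mem (t13 X Y Z) (hI.mul_mem' (C.pull_mem (t23 X Y Z) hb)
    (hI.pull_mem (fst (X.prod Y) Z) ha))
  refine hI.congr ?_ h
  simp only [dim_prod]
  push_cast
  ring

lemma adq_right' {I : Family C} (hI : IsAdequate C I) {i j : ℤ} {a : C.A (X.prod Y)}
    {b : C.A (Y.prod Z)} (ha : a ∈ C.gr (X.prod Y) i) (hb : b ∈ I (Y.prod Z) j) :
    C.comp a b ∈ I (X.prod Z) (i + j - Y.dim) := by
  have h := hI.push_mem (t13 X Y Z) (hI.mul_mem (hI.pull_mem (t23 X Y Z) hb)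
    (C.pull_mem (fst (X.prod Y) Z) ha))
  refine hI.congr ?_ h
  simp only [dim_prod]
  push_cast
  ring

lemma nil_summand (hne : ∀ X : 𝒱.Obj, (1 : C.A X) ≠ 0) {I : Family C} (hI : IsAdequate C I)
    {r : ℕ} (hr : ∀ f : R0 C P, toA f ∈ numFam C (P.prod P) P.dim →
      toA (f ^ r) ∈ I (P.prod P) P.dim) (h : IsSummand C Y P) (g : R0 C Y)
    (hg : toA g ∈ numFam C (Y.prod Y) Y.dim) : toA (g ^ r) ∈ I (Y.prod Y) Y.dim := by
  obtain ⟨e, a, b, ha, hb, hab⟩ := h
  have hnum := isAdequate_numFam hne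
  -- the correspondence of `P`
  set φ : C.A (Y.prod Y) → C.A (P.prod P) := fun z => C.comp (C.comp b z) a with hφ
  have hφmem : ∀ {I' : Family C}, IsAdequate C I' → ∀ z ∈ I' (Y.prod Y) Y.dim,
      φ z ∈ I' (P.prod P) P.dim := by
    intro I' hI' z hz
    refine hI'.congr ?_ (adq_left' hI' (adq_right' hI' hb hz) ha)
    ring
  have hφg : φ (toA g) ∈ numFam C (P.prod P) P.dim := hφmem hnum _ hg
  let f : R0 C P := ofA (φ (toA g)) hφg.1
  have hmul : ∀ z z' : C.A (Y.prod Y), C.comp (φ z) (φ z') = φ (C.comp z z') := by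
    intro z z'
    simp only [hφ]
    rw [comp_assoc, ← comp_assoc C a (C.comp b z') a, ← comp_assoc C a b z', hab, dg_comp,
      ← comp_assoc C (C.comp b z) z' a, comp_assoc C b z z']
  have hpow : ∀ n, toA (f ^ (n + 1)) = φ (toA (g ^ (n + 1))) := by
    intro n
    induction n with
    | zero => rw [zero_add, pow_one, pow_one]; rfl
    | succ n ih =>
      rw [pow_succ, toA_mul, ih, pow_succ g, toA_mul]
      exact hmul _ _
  have hback : ∀ z : C.A (Y.prod Y), C.comp (C.comp a (φ z)) b = z := by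
    intro z
    simp only [hφ]
    rw [← comp_assoc C a (C.comp b z) a, ← comp_assoc C a b z, hab, dg_comp, comp_assoc, hab,
      comp_dg]
  cases r with
  | zero =>
    have h1 := hr 0 (by rw [map_zero]; exact Submodule.zero_mem _)
    rw [pow_zero, toA_one] at h1
    have h2 := adq_left' hI (adq_right' hI ha h1) hb
    rw [comp_dg, hab] at h2
    rw [pow_zero, toA_one]
    refine hI.congr ?_ h2
    ring
  | succ r =>
    have h1 := hr f hφg
    rw [hpow] at h1
    have h2 := adq_left' hI (adq_right' hI ha h1) hb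
    rw [hback] at h2
    refine hI.congr ?_ h2
    ring

end chow

section weil

variable {C : TheoryData.{u, v, 0} 𝒱 ℚ} [hC : IsChowProj C] {K : Type w} [Field K]
  {H : WeilTheoryData.{u, v, w} C K} [hH : IsWeilProj H] {X Y Z W V P : 𝒱.Obj}

include hC hH

lemma bN_succ (X : 𝒱.Obj) : bN H X + 1 = (bE H X + 1) * (bO H X + 1) := by
  unfold bN
  have : 0 < (bE H X + 1) * (bO H X + 1) := by positivity
  omega

/-- The main theorem. -/
theorem main (hg : GradedCommutative H) (hfin : ∀ Y : 𝒱.Obj, Module.Finite K (H.A Y))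
    (X : 𝒱.Obj) : ∃ p q : ℕ, p ≤ bE H X ∧ p + bO H X = q + bE H X ∧
      HasType C (numFam C) X p q ∧ ∀ I : Family C, IsAdequate C I →
        (∀ Z : 𝒱.Obj, (1 : C.A Z) ∉ I Z 0) →
        ((∀ n, ¬ Dep C I X n) ∨ ∃ j, HasType C I X (p + j) (q + j)) ∧
        [NoPhantoms C I (powObj X (bN H X)),
          ∃ n < (p + 2) * (q + 2), Dep C I X n,
          ∀ (n : ℕ) (c : Equiv.Perm (Fin n) → ℚ), Relation C (numFam C) X c → Relation C I X c,
          ∀ (m : ℕ) (Y : 𝒱.Obj), IsSummand C Y (powObj X m) →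
            NilpotentWith C I Y (bN H (powObj X m))].TFAE := by
  have hne := one_ne H
  have hnum := isAdequate_numFam (C := C) hne
  have hnum1 := (isPrime_numFam (C := C) hne).one_notMem
  have hKI : ∀ Y : 𝒱.Obj, KI (numFam C) Y (Fin (bN H Y + 1)) ≠ ⊥ := by
    intro Y
    have := hfin Y
    rw [bN_succ]
    exact KI_num_ne_bot hg Y
  obtain ⟨p, q, hpq, hle, htop, hlow⟩ := exists_type_of hne hnum hnum1 (hKI X)
  have hchi : chi hne X = (bE H X : ℚ) - bO H X := by
    have := hfin X
    exact chi_eq hg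
  have hpq' : p + bO H X = q + bE H X := by
    rw [hchi] at hpq
    have : (p : ℚ) + bO H X = q + bE H X := by linarith
    exact_mod_cast this
  have hpb : p ≤ bE H X := by
    by_contra hcon
    have h1 : bE H X + 1 ≤ p := by omega
    have h2 : bO H X + 1 ≤ q := by omega
    rw [bN_succ] at hle
    have h3 : (bE H X + 1) * (bO H X + 1) < (p + 1) * (q + 1) :=
      Nat.mul_lt_mul'' (by omega) (by omega)
    omega
  refine ⟨p, q, hpb, hpq', hasType_iff.2 ⟨htop, hlow⟩, fun I hI h1 => ?_⟩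
  have hIle : I ≤ numFam C := hI.le_numFam h1
  have hKle : ∀ n, KI I X (Fin n) ≤ KI (numFam C) X (Fin n) := fun n => KI_mono hIle
  -- the type modulo `I`
  have htype : ∀ n, KI I X (Fin n) ≠ ⊥ → ∃ j, (p + j + 1) * (q + j + 1) ≤ n ∧
      KI I X (Fin ((p + j + 1) * (q + j + 1))) ≠ ⊥ ∧
        ∀ m < (p + j + 1) * (q + j + 1), KI I X (Fin m) = ⊥ := by
    intro n hn
    obtain ⟨a, b, hab, hle', htop', hlow'⟩ := exists_type_of hne hI h1 hn
    have hpa : p ≤ a := by
      by_contra hcon
      have h2 : a < p := by omega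
      have h3 : b < q := by
        have h4 : (a : ℚ) < p := by exact_mod_cast h2
        have h5 : (b : ℚ) < q := by linarith
        exact_mod_cast h5
      have h4 : (a + 1) * (b + 1) < (p + 1) * (q + 1) :=
        Nat.mul_lt_mul'' (by omega) (by omega)
      apply htop'
      rw [← le_bot_iff, ← hlow _ h4]
      exact hKle _
    obtain ⟨j, rfl⟩ := Nat.exists_eq_add_of_le hpa
    have hb : b = q + j := by
      have : (b : ℚ) = q + j := by
        push_cast at hab
        linarith
      exact_mod_cast this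
    subst hb
    exact ⟨j, hle', htop', hlow'⟩
  refine ⟨?_, ?_⟩
  · by_cases h : ∀ n, KI I X (Fin n) = ⊥
    · left
      intro n
      rw [dep_iff, not_not]
      exact h n
    · right
      push Not at h
      obtain ⟨n, hn⟩ := h
      obtain ⟨j, -, h2, h3⟩ := htype n hn
      exact ⟨j, hasType_iff.2 ⟨h2, h3⟩⟩
  · tfae_have 1 → 2 := by
      intro h
      -- an idempotent of the least degree
      obtain ⟨c, hc, hc0, hidem⟩ := exists_idem (twoSided_KI (numFam C) X) htop
      have hg : (p + 1) * (q + 1) ≤ bN H X + 1 := hle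
      have hc2 : c ∈ KI I X (Fin ((p + 1) * (q + 1))) := by
        have : Nonempty (Fin ((p + 1) * (q + 1))) := ⟨⟨0, by positivity⟩⟩
        exact mem_of_noPhantoms hI h (Fin.castLEEmb hg) hne hc hidem
      refine ⟨(p + 1) * (q + 1), Nat.mul_lt_mul'' (by omega) (by omega), dep_iff.2 ?_⟩
      intro h0
      rw [h0, Submodule.mem_bot] at hc2
      exact hc0 hc2
    tfae_have 2 → 3 := by
      rintro ⟨n, hn, hd⟩
      obtain ⟨j, h2, h3, -⟩ := htype n (dep_iff.1 hd)
      have hj : j = 0 := by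
        by_contra hj
        have h4 : (p + 2) * (q + 2) ≤ (p + j + 1) * (q + j + 1) :=
          Nat.mul_le_mul (by omega) (by omega)
        omega
      subst hj
      rw [add_zero, add_zero] at h3
      intro m c hc
      rw [relation_iff] at hc ⊢
      obtain ⟨N, hN⟩ : ∃ N, (p + 1) * (q + 1) = N + 1 :=
        Nat.exists_eq_succ_of_ne_zero (by positivity)
      have h4 := PFam.unique (𝓛 := famI hne I hI X) (𝒦 := famI hne (numFam C) hnum X)
        (fun ι _ _ => KI_mono hIle) (N := N) (fun n hn => hlow n (by omega))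
        (by rw [← hN]; exact h3) (Fin m)
      have h5 : KI I X (Fin m) = KI (numFam C) X (Fin m) := h4
      rw [h5]
      exact hc
    tfae_have 3 → 4 := by
      intro h m Y hY
      have h2 : ∀ n, KI I X (Fin n) = KI (numFam C) X (Fin n) := by
        intro n
        apply le_antisymm (hKle n)
        intro c hc
        exact relation_iff.1 (h n c (relation_iff.2 hc))
      have h3 : ∀ (ι : Type) [Fintype ι] [DecidableEq ι], KI I X ι = KI (numFam C) X ι := by
        intro ι _ _
        apply le_antisymm (KI_mono hIle)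
        exact PFam.le_of_equiv (𝒦 := famI hne (numFam C) hnum X) (𝓛 := famI hne I hI X)
          (Fintype.equivFin ι).symm (h2 _).ge
      have h4 : ∀ n, KI I (powObj X m) (Fin n) = KI (numFam C) (powObj X m) (Fin n) := by
        intro n
        ext c
        rw [← blk_mem_iff, ← blk_mem_iff, h3]
      exact nilpotentWith_of hne hI hIle (fun g hg => nil_summand hne hI (r := bN H (powObj X m))
        (fun f hf => pow_mem_of_eq hne hI h4 (hKI (powObj X m)) hf) hY g hg)
    tfae_have 4 → 1 := by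
      intro h f hf hff hnf
      have hsum : IsSummand C (powObj X (bN H X)) (powObj X (bN H X)) :=
        ⟨0, dg C _, dg C _, by rw [add_zero]; exact dg_mem C _, by rw [sub_zero]; exact dg_mem C _,
          comp_dg C _⟩
      have h2 := (h _ _ hsum).1 f hf hnf
      have h3 : ∀ r, C.comp f (compList C (powObj X (bN H X)) (List.replicate r f)) = f := by
        intro r
        induction r with
        | zero => exact comp_dg C f
        | succ r ih =>
          rw [List.replicate_succ, compList, ih, hff]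
      have h4 := adq_comp_right hI hf h2
      rwa [h3] at h4
    tfae_finish

end weil

end Pool.Agent.Q55.Nil
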