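import Pool.Agent.Q55.Nil.Tr
import Pool.Agent.Q55.Nil.Main

/-!
# The type and the sign conjecture
-/

open CategoryTheory AlgebraicGeometry

universe u v w

namespace Pool.Agent.Q55.Nil

open Pool.Agent.H914 Pool.Agent.H914.VarClass Pool.Agent.H914.VarClass.Obj Pool.Agent.W492.BB
  Pool.Agent.W550.Corr Pool.Agent.TH133 Pool.Agent.TH829.Prime Pool.Agent.TH829.Kim
open Pool.Agent.Y110 (GradedCommutative)

set_option linter.unusedSectionVars false

variable {k : Type u} [Field k] {𝒱 : VarClass k}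

section rc

open Equiv

variable {κ : Type} [Fintype κ] [DecidableEq κ] {ι : Type} [Fintype ι] [DecidableEq ι]

lemma via_surj (e : κ ≃ ι) (ρ : Perm ι) : ∃ σ : Perm κ, via e.toEmbedding σ = ρ := by
  refine ⟨via e.symm.toEmbedding ρ, ?_⟩
  ext1 x
  obtain ⟨z, rfl⟩ := e.surjective x
  have h1 := via_img e.toEmbedding (via e.symm.toEmbedding ρ) z
  rw [Equiv.coe_toEmbedding] at h1
  rw [h1]
  obtain ⟨x, rfl⟩ := e.symm.surjective z
  have h2 := via_img e.symm.toEmbedding ρ x
  rw [Equiv.coe_toEmbedding] at h2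
  rw [h2, Equiv.apply_symm_apply, Equiv.apply_symm_apply]

lemma RC.liftE {A B : Type*} (f : κ ≃ ι) {e : ι ≃ A × B} {y : Perm κ → ℚ}
    (h : RC (f.trans e) y) : RC e (liftE f.toEmbedding y) := by
  constructor
  · intro ρ hρ σ
    obtain ⟨ρ', rfl⟩ := via_surj f ρ
    obtain ⟨σ', rfl⟩ := via_surj f σ
    rw [← via_mul, liftE_via, liftE_via]
    apply h.row
    intro x
    have h1 := hρ (f x)
    have h2 := via_img f.toEmbedding ρ' x
    rw [Equiv.coe_toEmbedding] at h2
    rw [h2] at h1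
    exact h1
  · intro ρ hρ σ
    obtain ⟨ρ', rfl⟩ := via_surj f ρ
    obtain ⟨σ', rfl⟩ := via_surj f σ
    rw [← via_mul, liftE_via, liftE_via, Perm.viaFintypeEmbedding_sign]
    apply h.col
    intro x
    have h1 := hρ (f x)
    have h2 := via_img f.toEmbedding ρ' x
    rw [Equiv.coe_toEmbedding] at h2
    rw [h2] at h1
    exact h1

/-- The grid of the least degree. -/
lemma PFam.exists_rc {χ : ℚ} (𝒦 : PFam χ) {p q : ℕ} (hpq : (q : ℚ) + 1 = (p + 1) - χ)
    (htop : 𝒦.K (Fin ((p + 1) * (q + 1))) ≠ ⊥)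
    (hlow : ∀ m < (p + 1) * (q + 1), 𝒦.K (Fin m) = ⊥) :
    ∃ y ∈ 𝒦.K (Fin ((p + 1) * (q + 1))), y 1 = 1 ∧
      RC (finProdFinEquiv (m := p + 1) (n := q + 1)).symm y := by
  obtain ⟨M, hM⟩ : ∃ M, (p + 1) * (q + 1) = M + 1 :=
    Nat.exists_eq_succ_of_ne_zero (by positivity)
  have h4 : 𝒦.K (Option (Fin M)) ≠ ⊥ := by
    intro h
    apply htop
    rw [hM]
    exact (𝒦.eq_bot_iff (finSuccEquiv M)).2 h
  obtain ⟨a, b, ha, hb, hab, hcard, hy⟩ := 𝒦.grid (hlow M (by omega)) h4
  rw [Fintype.card_option, Fintype.card_fin] at hcard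
  -- the sides of the grid
  have haa : a = p + 1 := by
    have h1 : ((a : ℚ) - (p + 1)) * (a + q + 1) = 0 := by
      have h2 : ((a * b : ℕ) : ℚ) = (((p + 1) * (q + 1) : ℕ) : ℚ) := by rw [← hcard, hM]
      push_cast at h2
      rw [hab] at h2
      have h3 : (q : ℚ) = p - χ := by linarith
      rw [h3] at h2 ⊢
      linarith
    rcases mul_eq_zero.1 h1 with h2 | h2
    · have h3 : (a : ℚ) = p + 1 := by linarith
      exact_mod_cast h3
    · exfalso
      have : (0 : ℚ) < a := by exact_mod_cast ha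
      have : (0 : ℚ) ≤ q := by positivity
      linarith
  subst haa
  have hbb : b = q + 1 := by
    have h3 : (b : ℚ) = q + 1 := by
      rw [hab]
      push_cast
      linarith
    exact_mod_cast h3
  subst hbb
  let f : Option (Fin M) ≃ Fin ((p + 1) * (q + 1)) :=
    (finSuccEquiv M).symm.trans (finCongr hM.symm)
  obtain ⟨y, h1, h2, h3⟩ := hy (f.trans (finProdFinEquiv (m := p + 1) (n := q + 1)).symm)
  refine ⟨liftE f.toEmbedding y, 𝒦.lift _ h1, ?_, h3.liftE f⟩
  have h5 := liftE_via f.toEmbedding y 1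
  rw [via_one] at h5
  rw [h5, h2]

end rc

section weil

variable {C : TheoryData.{u, v, 0} 𝒱 ℚ} [hC : IsChowProj C] {K : Type w} [Field K]
  {H : WeilTheoryData.{u, v, w} C K} [hH : IsWeilProj H] {X Y Z W V P : 𝒱.Obj}

include hC hH

/-- The class of a correspondence acting as the identity on the even cohomology and as zero on the
odd cohomology is idempotent and its trace is the sum of the even Betti numbers. -/
theorem trace_even (hg : GradedCommutative H) [Module.Finite K (H.A X)] {e : C.A (X.prod X)}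
    (he : e ∈ C.gr (X.prod X) X.dim) (h1 : ∀ a ∈ evenPart H X, H.act (H.cl e) a = a)
    (h2 : ∀ a ∈ oddPart H X, H.act (H.cl e) a = 0) {q : ℚ}
    (hq : HasDegree C (ev e (𝟙 X) (𝟙 X)) q) :
    C.comp e e - e ∈ numFam C (X.prod X) X.dim ∧ q = bE H X := by
  classical
  have := charZero H X
  obtain ⟨u, v, hev, hod, hue, huo, huv⟩ := exists_parts' (H := H) X
  obtain ⟨τ, hτ, hpush⟩ := push_tr (H := H) X X
  -- every class in terms of the `u b`
  have hact : ∀ a : H.A X, τ • a = ∑ b, H.tr X (v b * a) • u b := by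
    intro a
    have h1 : H.act (H.cl (tp C (dg C X))) a = a := by rw [tp_dg, actH_dg]
    rw [cl_tp, act_tp, huv, Finset.sum_mul, map_sum] at h1
    conv_lhs => rw [← h1]
    rw [Finset.smul_sum]
    apply Finset.sum_congr rfl
    intro b _
    rw [TheoryData.ext, mul_assoc, ← map_mul, H.proj_left, ← mul_smul_comm, hpush, mul_smul_comm,
      mul_one]
  have hdiag : ∀ b, H.tr X (v (Sum.inl b) * u (Sum.inl b)) = τ := by
    intro b
    have h1 := hact (u (Sum.inl b))
    rw [Fintype.sum_sum_type] at h1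
    have h2 : ∑ c, H.tr X (v (Sum.inr c) * u (Sum.inl b)) • u (Sum.inr c) = 0 := by
      apply Finset.sum_eq_zero
      intro c _
      rw [tr_odd (odd_mul_even (hod c).2 (hev b).1), zero_smul]
    rw [h2, add_zero] at h1
    have h3 := hue
    rw [Fintype.linearIndependent_iff] at h3
    have h4 := h3 (fun c => H.tr X (v (Sum.inl c) * u (Sum.inl b)) - if c = b then τ else 0) (by
      simp only [sub_smul, Finset.sum_sub_distrib, ite_smul, zero_smul, Finset.sum_ite_eq',
        Finset.mem_univ, if_true]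
      rw [← h1, sub_self]) b
    rw [if_pos rfl, sub_eq_zero] at h4
    exact h4
  -- the composition with `e`
  have hcomp : H.comp (∑ b, H.ext (u (Sum.inl b)) (v (Sum.inl b))) (H.cl e) =
      ∑ b, H.ext (u (Sum.inl b)) (v (Sum.inl b)) := by
    rw [sum_comp]
    apply Finset.sum_congr rfl
    intro b _
    rw [Pool.Agent.Y110.comp_ext_act, h1 _ (hev b).2]
  have hcomp' : H.comp (∑ b, H.ext (u (Sum.inr b)) (v (Sum.inr b))) (H.cl e) = 0 := by
    rw [sum_comp]
    apply Finset.sum_eq_zero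
    intro b _
    rw [Pool.Agent.Y110.comp_ext_act, h2 _ (hod b).2, TheoryData.ext_zero_right]
  have hcl : H.cl e = ∑ b, H.ext (u (Sum.inl b)) (v (Sum.inl b)) := by
    have h3 : H.cl e = H.comp (H.cl (dg C X)) (H.cl e) := by rw [cl_dg, dg_comp]
    rw [h3, huv, Fintype.sum_sum_type, add_comp, hcomp, hcomp', add_zero]
  have hcl2 : H.cl (C.comp e e - e) = 0 := by
    have h3 : H.comp (H.cl e) (H.cl e) = H.cl e := by
      nth_rw 1 [hcl]
      rw [hcomp, hcl]
    rw [map_sub, cl_comp, h3, sub_self]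
  have hee : C.comp e e - e ∈ C.gr (X.prod X) X.dim := by
    refine Submodule.sub_mem _ ?_ he
    exact comp_mem0 C he he
  refine ⟨num_of_cl_eq_zero hee hcl2, ?_⟩
  -- the value on the diagonal
  have hval : H.cl (ev e (𝟙 X) (𝟙 X)) = ∑ b, u (Sum.inl b) * v (Sum.inl b) := by
    rw [ev, H.cl_pull, hcl, map_sum]
    apply Finset.sum_congr rfl
    intro b _
    rw [TheoryData.ext, map_mul, ← H.pull_comp, ← H.pull_comp, lift_fst, lift_snd, H.pull_id,
      H.pull_id]
  have h5 : H.cl (C.push (fst X X) (C.pull (snd X X) (ev e (𝟙 X) (𝟙 X)))) =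
      H.cl (q • (1 : C.A X)) := by rw [(hq X).2]
  rw [H.cl_push, H.cl_pull, hval, cl_rat] at h5
  have h6 := hpush (∑ b, u (Sum.inl b) * v (Sum.inl b))
  rw [h5, smul_smul] at h6
  have h7 : H.tr X (∑ b, u (Sum.inl b) * v (Sum.inl b)) = τ * (bE H X : K) := by
    rw [map_sum]
    have e1 : ∀ b, H.tr X (u (Sum.inl b) * v (Sum.inl b)) = τ := by
      intro b
      rw [even_comm hg (hev b).1, hdiag]
    rw [Finset.sum_congr rfl (fun b _ => e1 b), Finset.sum_const, Finset.card_univ,
      Fintype.card_fin, nsmul_eq_mul, mul_comm]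
    rfl
  rw [h7] at h6
  have h8 : τ * (q : K) = τ * (bE H X : K) := by
    have h9 : (τ * (q : K) - τ * (bE H X : K)) • (1 : H.A X) = 0 := by
      rw [sub_smul, h6, sub_self]
    rcases smul_eq_zero.1 h9 with h10 | h10
    · exact sub_eq_zero.1 h10
    · exact absurd h10 (hH.one_ne_zero X)
  have h9 := mul_left_cancel₀ hτ h8
  exact_mod_cast h9

end weil

end Pool.Agent.Q55.Nil
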