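import Pool.Agent.Q55.Nil.Stmt
import Pool.Agent.Q55.Nil.Sgn
import Pool.Agent.Q55.Nil.CK

/-!
# Comparison of the definitions
-/

open CategoryTheory AlgebraicGeometry

universe u v w

namespace Pool.Agent.Q55.Nil

open Pool.Agent.H914 Pool.Agent.H914.VarClass Pool.Agent.H914.VarClass.Obj Pool.Agent.W492.BB
  Pool.Agent.W550.Corr Pool.Agent.TH133 Pool.Agent.TH829.Prime Pool.Agent.TH829.Kim
open Pool.Agent.Y110 (GradedCommutative)

set_option linter.unusedSectionVars false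

variable {k : Type u} [Field k] {𝒱 : VarClass k}

section chow

variable {C : TheoryData.{u, v, 0} 𝒱 ℚ} {X Y Z W V P : 𝒱.Obj}

lemma diag_eq (X : 𝒱.Obj) : S.diag C X = dg C X := rfl

lemma cmp_eq (a : C.A (X.prod Y)) (b : C.A (Y.prod Z)) : S.cmp C a b = C.comp a b := rfl

lemma cmpl_eq (l : List (C.A (Y.prod Y))) : S.cmpl C Y l = compList C Y l := by
  induction l with
  | nil => rfl
  | cons a l ih =>
    rw [compList, ← ih]
    rfl

lemma isSummand_iff : S.IsSummand C Y P ↔ IsSummand C Y P := Iff.rfl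

lemma permClass_iff {n : ℕ} (c : Equiv.Perm (Fin n) → ℚ) (x y : Fin n → (W ⟶ X)) :
    S.permClass C c x y = permClass C c x y := rfl

lemma relation_rel {I : Family C} {n : ℕ} {c : Equiv.Perm (Fin n) → ℚ} :
    S.Relation C (S.rel C I) X c ↔ Relation C I X c := Iff.rfl

lemma dep_rel {I : Family C} {n : ℕ} : S.Dep C (S.rel C I) X n ↔ Dep C I X n := Iff.rfl

lemma hasType_rel {I : Family C} {p q : ℕ} :
    S.HasType C (S.rel C I) X p q ↔ HasType C I X p q := Iff.rfl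

variable [hC : IsChowProj C]

include hC

lemma numTriv_iff (hne : ∀ X : 𝒱.Obj, (1 : C.A X) ≠ 0) {i : ℤ} {a : C.A X} (ha : C.Deg i a) :
    S.NumTriv C i a ↔ NumTrivial C i a := by
  constructor
  · intro h b hb
    have h1 := h b hb
    have h2 : a * b ∈ C.gr X X.dim := by
      have := C.mul_mem ha hb
      rwa [add_sub_cancel] at this
    obtain ⟨q, hq⟩ := exists_hasDegree h2
    have h3 := (hq X).2
    rw [S.DegreeIs, Int.cast_zero] at h1
    have h4 : q • (1 : C.A X) = 0 := by rw [← h3]; exact h1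
    rcases smul_eq_zero.1 h4 with h5 | h5
    · rw [h5] at hq
      exact hq
    · exact absurd h5 (hne X)
  · intro h b hb
    have h1 := (h b hb X).2
    rw [zero_smul] at h1
    rw [S.DegreeIs, Int.cast_zero]
    exact h1

lemma noPhantoms_rel (hne : ∀ X : 𝒱.Obj, (1 : C.A X) ≠ 0) {I : Family C} :
    S.NoPhantoms C (S.rel C I) Y ↔ NoPhantoms C I Y := by
  constructor
  · intro h f hf hff hnf
    exact h f hf hff ((numTriv_iff hne hf).2 hnf)
  · intro h f hf hff hnf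
    exact h f hf hff ((numTriv_iff hne hf).1 hnf)

lemma noPhantoms_rat (hne : ∀ X : 𝒱.Obj, (1 : C.A X) ≠ 0) :
    S.NoPhantoms C (S.rat C) Y ↔ NoPhantoms C (ratFam C) Y := by
  constructor
  · intro h f hf hff hnf
    exact (Submodule.mem_bot ℚ).2 (h f hf hff ((numTriv_iff hne hf).2 hnf))
  · intro h f hf hff hnf
    exact (Submodule.mem_bot ℚ).1 (h f hf hff ((numTriv_iff hne hf).1 hnf))

lemma nilpotentWith_rel (hne : ∀ X : 𝒱.Obj, (1 : C.A X) ≠ 0) {I : Family C} {r : ℕ} :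
    S.NilpotentWith C (S.rel C I) Y r ↔ NilpotentWith C I Y r := by
  unfold S.NilpotentWith NilpotentWith
  constructor
  · rintro ⟨h1, h2⟩
    refine ⟨fun f hf hnf => ?_, fun l hl hmem => ?_⟩
    · have := h1 f hf ((numTriv_iff hne hf).2 hnf)
      rw [cmpl_eq] at this
      exact this
    · have := h2 l hl (fun f hf => ⟨(hmem f hf).1, (numTriv_iff hne (hmem f hf).1).2 (hmem f hf).2⟩)
      rw [cmpl_eq] at this
      exact this
  · rintro ⟨h1, h2⟩
    refine ⟨fun f hf hnf => ?_, fun l hl hmem => ?_⟩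
    · rw [cmpl_eq]
      exact h1 f hf ((numTriv_iff hne hf).1 hnf)
    · rw [cmpl_eq]
      exact h2 l hl (fun f hf => ⟨(hmem f hf).1, (numTriv_iff hne (hmem f hf).1).1 (hmem f hf).2⟩)

lemma relation_num (hne : ∀ X : 𝒱.Obj, (1 : C.A X) ≠ 0) {n : ℕ} {c : Equiv.Perm (Fin n) → ℚ} :
    S.Relation C (S.num C) X c ↔ Relation C (numFam C) X c := by
  have hmem : ∀ (W : 𝒱.Obj) (x y : Fin n → (W ⟶ X)),
      C.Deg (n * X.dim) (permClass C c x y) := by
    intro W x y
    have h := fc_mem c (p := fun _ => dg C X) (fun _ => dg_mem C X) x y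
    rw [← permClass_eq, Fintype.card_fin] at h
    exact h
  constructor
  · intro h W x y
    exact ⟨hmem W x y, (numTriv_iff hne (hmem W x y)).1 (h W x y)⟩
  · intro h W x y
    exact (numTriv_iff hne (hmem W x y)).2 (h W x y).2

lemma dep_num (hne : ∀ X : 𝒱.Obj, (1 : C.A X) ≠ 0) {n : ℕ} :
    S.Dep C (S.num C) X n ↔ Dep C (numFam C) X n := by
  unfold S.Dep Dep
  simp only [relation_num hne]

lemma hasType_num (hne : ∀ X : 𝒱.Obj, (1 : C.A X) ≠ 0) {p q : ℕ} :
    S.HasType C (S.num C) X p q ↔ HasType C (numFam C) X p q := by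
  unfold S.HasType HasType
  simp only [dep_num hne]

lemma degreeIs_of {z : C.A X} {d : ℤ} (h : HasDegree C z d) : S.DegreeIs C z d := by
  have h1 := (h X).2
  rw [S.DegreeIs]
  have h2 : ((d : ℤ) : C.A X) = ((d : ℤ) : ℚ) • (1 : C.A X) := by
    rw [Int.cast_smul_eq_zsmul, zsmul_one]
  rw [h2]
  exact h1

end chow

section weil

variable {C : TheoryData.{u, v, 0} 𝒱 ℚ} [hC : IsChowProj C] {K : Type w} [Field K]
  {H : WeilTheoryData.{u, v, w} C K} [hH : IsWeilProj H] {X Y Z W V P : 𝒱.Obj}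

include hC hH

lemma bet_even (X : 𝒱.Obj) : S.bet H Even X = bE H X := rfl

lemma bet_odd (X : 𝒱.Obj) : S.bet H Odd X = bO H X := rfl

lemma bN_eq (X : 𝒱.Obj) : S.bN H X = bN H X := rfl

lemma actsAs_span {e : C.A (X.prod X)} {P : ℤ → Prop} (h : S.ActsAs H e P) :
    (∀ a ∈ Submodule.span K {a : H.A X | ∃ i : ℤ, P i ∧ H.Deg i a}, H.act (H.cl e) a = a) ∧
      ∀ a ∈ Submodule.span K {a : H.A X | ∃ i : ℤ, ¬ P i ∧ H.Deg i a}, H.act (H.cl e) a = 0 := by
  constructor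
  · intro a ha
    have h1 : Submodule.span K {a : H.A X | ∃ i : ℤ, P i ∧ H.Deg i a} ≤
        LinearMap.eqLocus (H.actL (H.cl e)) LinearMap.id := by
      rw [Submodule.span_le]
      rintro a ⟨i, hi, ha⟩
      exact h.1 i a hi ha
    exact h1 ha
  · intro a ha
    have h1 : Submodule.span K {a : H.A X | ∃ i : ℤ, ¬ P i ∧ H.Deg i a} ≤
        LinearMap.ker (H.actL (H.cl e)) := by
      rw [Submodule.span_le]
      rintro a ⟨i, hi, ha⟩
      exact h.2 i a hi ha
    exact h1 ha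

lemma signAt_imp (h : S.SignAt H X) : ∃ e : C.A (X.prod X), C.Deg X.dim e ∧
    (∀ a ∈ evenPart H X, H.act (H.cl e) a = a) ∧ ∀ a ∈ oddPart H X, H.act (H.cl e) a = 0 := by
  obtain ⟨e, he, h1⟩ := h
  obtain ⟨h2, h3⟩ := actsAs_span h1
  refine ⟨e, he, h2, ?_⟩
  intro a ha
  apply h3
  have h4 : {a : H.A X | ∃ i : ℤ, Odd i ∧ H.Deg i a} = {a : H.A X | ∃ i : ℤ, ¬ Even i ∧ H.Deg i a} := by
    simp only [Int.not_even_iff_odd]
  rw [← h4]
  exact ha

lemma kunnethAt_imp (h : S.KunnethAt H X) : ∀ m : ℕ, ∃ π : C.A (X.prod X), C.Deg X.dim π ∧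
    ∀ (l : ℤ) (a : H.A X), H.Deg l a → H.act (H.cl π) a = if l = m then a else 0 := by
  intro m
  obtain ⟨e, he, h1, h2⟩ := h m
  refine ⟨e, he, fun l a ha => ?_⟩
  split_ifs with hl
  · exact h1 l a hl ha
  · exact h2 l a hl ha

lemma hasCK_of {π : ℕ → C.A (X.prod X)} (h : IsCK H X π) : S.HasCK H X :=
  ⟨π, h.deg, h.idem, h.orth, h.sum, fun j => ⟨fun i a hi ha => h.act_self j a (hi ▸ ha),
    fun i a hi ha => h.act_ne j i a hi ha⟩⟩

lemma numEqHomAt_imp (h : S.NumEqHomAt H Y) (f : C.A (Y.prod Y)) (hf : C.Deg Y.dim f)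
    (hnf : NumTrivial C Y.dim f) : H.cl f = 0 :=
  h f hf ((numTriv_iff (one_ne H) hf).2 hnf)

end weil

end Pool.Agent.Q55.Nil
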