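import Pool.Agent.Q55.Nil.CohDefs
import Pool.Agent.TH829.Kim.Defs

/-!
# Permutations of the factors of powers, phantoms, nilpotence: definitions
-/

open CategoryTheory AlgebraicGeometry

universe u v w

namespace Pool.Agent.Q55.Nil

open Pool.Agent.H914 Pool.Agent.H914.VarClass Pool.Agent.H914.VarClass.Obj Pool.Agent.W492.BB
  Pool.Agent.W550.Corr Pool.Agent.TH133 Pool.Agent.TH829.Prime Pool.Agent.TH829.Kim

variable {k : Type u} [Field k] {𝒱 : VarClass k}

/-- The class `∑_σ c(σ) Δ(x_1, y_{σ 1}) ⋯ Δ(x_n, y_{σ n})` on `W`, where `Δ` is the class of the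
diagonal of `X` and `x_i`, `y_i` are points of `X` with values in `W`. For `W = X^n × X^n` and the
`2n` projections this is the linear combination `∑_σ c(σ) Γ_σ` of the graphs of the permutations of
the factors of `X^n`. -/
noncomputable def permClass (C : TheoryData.{u, v, 0} 𝒱 ℚ) {X W : 𝒱.Obj} {n : ℕ}
    (c : Equiv.Perm (Fin n) → ℚ) (x y : Fin n → (W ⟶ X)) : C.A W :=
  ∑ σ, c σ • (List.ofFn fun i => value C (dg C X) (x i) (y (σ i))).prod

/-- The linear combination `∑_σ c(σ) Γ_σ` of the graphs of the permutations of the factors of `X^n`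
is equivalent to zero with respect to the adequate relation `I`. -/
def Relation (C : TheoryData.{u, v, 0} 𝒱 ℚ) (I : Family C) (X : 𝒱.Obj) {n : ℕ}
    (c : Equiv.Perm (Fin n) → ℚ) : Prop :=
  ∀ (W : 𝒱.Obj) (x y : Fin n → (W ⟶ X)), permClass C c x y ∈ I W (n * X.dim)

/-- The permutations of the factors of `X^n` are linearly dependent modulo `I`. -/
def Dep (C : TheoryData.{u, v, 0} 𝒱 ℚ) (I : Family C) (X : 𝒱.Obj) (n : ℕ) : Prop :=
  ∃ c : Equiv.Perm (Fin n) → ℚ, c ≠ 0 ∧ Relation C I X c

/-- `X` has type `(p | q)` modulo `I`: the permutations of the factors of `X^n` are linearly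
dependent modulo `I` for `n = (p + 1) (q + 1)`, and independent for all smaller `n`. -/
def HasType (C : TheoryData.{u, v, 0} 𝒱 ℚ) (I : Family C) (X : 𝒱.Obj) (p q : ℕ) : Prop :=
  Dep C I X ((p + 1) * (q + 1)) ∧ ∀ n < (p + 1) * (q + 1), ¬ Dep C I X n

/-- Numerically trivial idempotent self-correspondences of degree zero of `Y` (phantoms) are
equivalent to zero with respect to `I`. -/
def NoPhantoms (C : TheoryData.{u, v, 0} 𝒱 ℚ) (I : Family C) (Y : 𝒱.Obj) : Prop :=
  ∀ f : C.A (Y.prod Y), C.Deg Y.dim f → C.comp f f = f → NumTrivial C Y.dim f →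
    f ∈ I (Y.prod Y) Y.dim

/-- The numerically trivial self-correspondences of degree zero of `Y` form, modulo `I`, a nil ideal
of exponent `r` and a nilpotent ideal of exponent `2 ^ r - 1`: the `r`-fold composition
`f ∘ ⋯ ∘ f` of each one, and the compositions of any `2 ^ r - 1` of them, are equivalent to zero. -/
def NilpotentWith (C : TheoryData.{u, v, 0} 𝒱 ℚ) (I : Family C) (Y : 𝒱.Obj) (r : ℕ) : Prop :=
  (∀ f : C.A (Y.prod Y), C.Deg Y.dim f → NumTrivial C Y.dim f →
    compList C Y (List.replicate r f) ∈ I (Y.prod Y) Y.dim) ∧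
  ∀ l : List (C.A (Y.prod Y)), l.length = 2 ^ r - 1 →
    (∀ f ∈ l, C.Deg Y.dim f ∧ NumTrivial C Y.dim f) → compList C Y l ∈ I (Y.prod Y) Y.dim

/-- The motive of `Y` is a direct summand of a Tate twist of the motive of `P`: there are
correspondences `a` from `Y` to `P` of degree `e` and `b` from `P` to `Y` of degree `-e` with
`b ∘ a` the identity. -/
def IsSummand (C : TheoryData.{u, v, 0} 𝒱 ℚ) (Y P : 𝒱.Obj) : Prop :=
  ∃ (e : ℤ) (a : C.A (Y.prod P)) (b : C.A (P.prod Y)), C.Deg (Y.dim + e) a ∧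
    C.Deg (P.dim - e) b ∧ C.comp a b = dg C Y

section betti

variable {C : TheoryData.{u, v, 0} 𝒱 ℚ} {K : Type w} [Field K]

/-- The sum `b^+(X)` of the Betti numbers of even degree. -/
noncomputable def bE (H : WeilTheoryData.{u, v, w} C K) (X : 𝒱.Obj) : ℕ :=
  Module.finrank K (evenPart H X)

/-- The sum `b^-(X)` of the Betti numbers of odd degree. -/
noncomputable def bO (H : WeilTheoryData.{u, v, w} C K) (X : 𝒱.Obj) : ℕ :=
  Module.finrank K (oddPart H X)

/-- The number `(b^+(X) + 1) (b^-(X) + 1) - 1`. -/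
noncomputable def bN (H : WeilTheoryData.{u, v, w} C K) (X : 𝒱.Obj) : ℕ :=
  (bE H X + 1) * (bO H X + 1) - 1

end betti

end Pool.Agent.Q55.Nil
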