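import Mathlib

/-!
# Extremal vectors in representations of symmetric groups
-/

set_option linter.unusedSectionVars false

namespace Pool.Agent.Q55.Nil

open Finset Equiv

section rep

variable {L M : Type*} [Fintype L] [DecidableEq L] [AddCommGroup M] [Module ℚ M]
  (ρ : Perm L →* Module.End ℚ M)

/-- The exchange of two letters of the same colour `c` multiplies `w` by `s c`. -/
def RV (s : ℕ → ℚ) (r : L → ℕ) (w : M) : Prop :=
  ∀ x y, x ≠ y → r x = r y → ρ (swap x y) w = s (r x) • w

lemma rho_mul (g h : Perm L) (w : M) : ρ g (ρ h w) = ρ (g * h) w := by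
  rw [map_mul]; rfl

/-- The sum of the transpositions of `y` with the letters of colour `i`. -/
def bs (r : L → ℕ) (i : ℕ) (y : L) (w : M) : M :=
  ∑ x ∈ univ.filter (fun x => r x = i), ρ (swap x y) w

lemma bs_perm (r : L → ℕ) (i : ℕ) (y : L) (w : M) (g : Perm L) (hg : ∀ x, r (g x) = r x)
    (hy : g y = y) : ρ g (bs ρ r i y w) = bs ρ r i y (ρ g w) := by
  unfold bs
  rw [map_sum]
  refine sum_bij (fun x _ => g x) ?_ ?_ ?_ ?_
  · intro x hx
    simpa [hg] using hx
  · intro x _ x' _ h
    exact g.injective h
  · intro x hx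
    refine ⟨g.symm x, ?_, by simp⟩
    have h := hg (g.symm x)
    rw [apply_symm_apply] at h
    simpa [← h] using hx
  · intro x _
    rw [rho_mul, rho_mul]
    congr 2
    ext z
    have h := swap_apply_apply g x y
    rw [hy] at h
    rw [h]
    simp

/-- Changing the colour of a letter. -/
lemma lower {s : ℕ → ℚ} (hs : ∀ i, s i * s i = 1) {r : L → ℕ} {w : M} (hw : RV ρ s r w) (y : L)
    (i : ℕ) (hi : r y ≠ i) :
    RV ρ s (Function.update r y i) (w + s i • bs ρ r i y w) := by
  have key : ∀ x, r x = i → ρ (swap x y) (w + s i • bs ρ r i y w) =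
      s i • (w + s i • bs ρ r i y w) := by
    intro x hx
    have hxy : x ≠ y := by
      rintro rfl
      exact hi hx
    have h1 : ρ (swap x y) (bs ρ r i y w) = w + s i • (bs ρ r i y w - ρ (swap x y) w) := by
      unfold bs
      have hmem : x ∈ univ.filter (fun x => r x = i) := by simp [hx]
      rw [← add_sum_erase _ _ hmem, map_add, map_sum, rho_mul, swap_mul_self, map_one,
        Module.End.one_apply, add_sub_cancel_left, smul_sum]
      congr 1
      refine sum_congr rfl fun x' hx' => ?_
      rw [mem_erase] at hx'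
      have hx'i : r x' = i := by simpa using hx'.2
      have hx'y : x' ≠ y := by
        rintro rfl
        exact hi hx'i
      have h2 : swap x y * swap x' y = swap x' y * swap x' x := by
        rw [swap_mul_eq_mul_swap, swap_inv, swap_apply_right,
          swap_apply_of_ne_of_ne (Ne.symm hx'.1) hxy, swap_comm x x']
      rw [rho_mul, h2, ← rho_mul, hw x' x (hx'.1) (by rw [hx'i, hx]), map_smul, hx'i]
    rw [map_add, map_smul, h1, smul_add, smul_add, smul_smul, smul_smul, hs, one_smul, one_smul]
    abel
  intro x x' hne hr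
  by_cases hx : x = y
  · subst hx
    have hx' : x' ≠ x := hne.symm
    rw [Function.update_self, Function.update_of_ne hx'] at hr
    rw [Function.update_self, swap_comm]
    exact key x' hr.symm
  · by_cases hx' : x' = y
    · subst hx'
      rw [Function.update_self, Function.update_of_ne hx] at hr
      rw [Function.update_of_ne hx, hr]
      exact key x hr
    · rw [Function.update_of_ne hx, Function.update_of_ne hx'] at hr
      rw [Function.update_of_ne hx]
      have h1 : ρ (swap x x') w = s (r x) • w := hw x x' hne hr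
      rw [map_add, map_smul, bs_perm ρ r i y w (swap x x') ?_ (swap_apply_of_ne_of_ne
        (Ne.symm hx) (Ne.symm hx')), h1]
      · have h2 : bs ρ r i y (s (r x) • w) = s (r x) • bs ρ r i y w := by
          unfold bs
          rw [smul_sum]
          exact sum_congr rfl fun z _ => map_smul _ _ _
        rw [h2, smul_add, smul_comm]
      · intro z
        by_cases hz : z = x
        · rw [hz, swap_apply_left, hr]
        · by_cases hz' : z = x'
          · rw [hz', swap_apply_right, hr]
          · rw [swap_apply_of_ne_of_ne hz hz']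

/-- The vector `w` cannot be moved to a colouring with lower colours. -/
structure Extremal (s : ℕ → ℚ) (r : L → ℕ) (w : M) : Prop where
  rv : RV ρ s r w
  ne : w ≠ 0
  low : ∀ y i, i < r y → bs ρ r i y w = - (s i • w)

lemma bs_mem {W : Submodule ℚ M} (hW : ∀ g, ∀ w ∈ W, ρ g w ∈ W) (r : L → ℕ) (i : ℕ) (y : L) {w : M}
    (hw : w ∈ W) : bs ρ r i y w ∈ W := W.sum_mem fun _ _ => hW _ _ hw

lemma exists_extremal {s : ℕ → ℚ} (hs : ∀ i, s i * s i = 1) (P : (L → ℕ) → Prop)
    (hP : ∀ r y i, P r → i < r y → P (Function.update r y i)) (W : Submodule ℚ M)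
    (hW : ∀ g, ∀ w ∈ W, ρ g w ∈ W) {r : L → ℕ} {w : M} (hr : P r) (hw : w ∈ W) (hne : w ≠ 0)
    (hv : RV ρ s r w) : ∃ r' w', P r' ∧ w' ∈ W ∧ Extremal ρ s r' w' := by
  classical
  let Q : ℕ → Prop := fun k => ∃ r' w', P r' ∧ w' ∈ W ∧ w' ≠ 0 ∧ RV ρ s r' w' ∧ ∑ x, r' x = k
  have hQ : ∃ k, Q k := ⟨_, r, w, hr, hw, hne, hv, rfl⟩
  obtain ⟨r', w', h1, h2, h3, h4, h5⟩ := Nat.find_spec hQ
  refine ⟨r', w', h1, h2, h4, h3, fun y i hi => ?_⟩
  by_contra hcon
  have h6 := lower ρ hs h4 y i (by omega)
  have h7 : w' + s i • bs ρ r' i y w' ≠ 0 := by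
    intro h0
    apply hcon
    have h8 : s i • (w' + s i • bs ρ r' i y w') = 0 := by rw [h0, smul_zero]
    rw [smul_add, smul_smul, hs, one_smul] at h8
    rw [eq_neg_iff_add_eq_zero, add_comm]
    exact h8
  have h8 : Q (∑ x, Function.update r' y i x) := ⟨_, _, hP _ _ _ h1 hi,
    W.add_mem h2 (W.smul_mem _ (bs_mem ρ hW _ _ _ h2)), h7, h6, rfl⟩
  have h9 := Nat.find_min' hQ h8
  have h10 : ∑ x, Function.update r' y i x + r' y = ∑ x, r' x + i := by
    rw [Finset.sum_update_of_mem (mem_univ y), ← Finset.add_sum_erase univ r' (mem_univ y),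
      Finset.sdiff_singleton_eq_erase]
    ring
  omega

/-- The number of letters of colour `i`. -/
def num (r : L → ℕ) (i : ℕ) : ℕ := (univ.filter fun x => r x = i).card

/-- The number of letters of colours above `i`. -/
def above (r : L → ℕ) (i : ℕ) : ℕ := (univ.filter fun x => i < r x).card

variable {ρ} in
lemma Extremal.num_pos {s : ℕ → ℚ} (hs : ∀ i, s i * s i = 1) {r : L → ℕ} {w : M}
    (h : Extremal ρ s r w) {i : ℕ} (hi : 0 < above r i) : 0 < num r i := by
  obtain ⟨y, hy⟩ := card_pos.1 hi
  have hy' : i < r y := by simpa using hy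
  by_contra h0
  have h1 : univ.filter (fun x => r x = i) = ∅ := card_eq_zero.1 (by unfold num at h0; omega)
  have h2 := h.low y i hy'
  unfold bs at h2
  rw [h1, sum_empty] at h2
  have h3 : s i • w = 0 := by rw [← neg_eq_zero, ← h2]
  apply h.ne
  have h4 := congrArg (fun v => s i • v) h3
  simpa [smul_smul, hs] using h4

/-- The sum of the transpositions of `y` with the other letters. -/
def jm (y : L) (w : M) : M := ∑ x ∈ univ.erase y, ρ (swap x y) w

variable {ρ} in
/-- The numerical equations for the numbers of letters of the colours. -/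
lemma Extremal.eq {s : ℕ → ℚ} {r : L → ℕ} {w : M}
    (h : Extremal ρ s r w) {κ : ℚ} (hκ : ∀ y, jm ρ y w = κ • w) (i : ℕ) :
    κ * num r i = s i * (num r i * (num r i - 1)) - num r i * ∑ j ∈ range i, s j -
      s i * above r i := by
  set B := univ.filter (fun x => r x = i) with hB
  have e1 : ∀ y ∈ B, jm ρ y w = (- ∑ j ∈ range i, s j) • w + (s i * ((num r i : ℚ) - 1)) • w +
      ∑ x ∈ univ.filter (fun x => i < r x), ρ (swap x y) w := by
    intro y hy
    have hyi : r y = i := by simpa [hB] using hy
    have e2 : (univ.erase y : Finset L) = (univ.filter (fun x => r x < i)) ∪ (B.erase y) ∪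
        (univ.filter (fun x => i < r x)) := by
      ext x
      simp only [mem_erase, mem_union, mem_filter, mem_univ, true_and, hB, and_true]
      constructor
      · intro hx
        rcases lt_trichotomy (r x) i with h1 | h1 | h1
        · exact Or.inl (Or.inl h1)
        · exact Or.inl (Or.inr ⟨hx, h1⟩)
        · exact Or.inr h1
      · rintro ((h1 | h1) | h1)
        · rintro rfl; omega
        · exact h1.1
        · rintro rfl; omega
    have e3 : ∑ x ∈ univ.filter (fun x => r x < i), ρ (swap x y) w =
        (- ∑ j ∈ range i, s j) • w := by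
      have e4 : univ.filter (fun x => r x < i) = (range i).biUnion
          (fun j => univ.filter (fun x => r x = j)) := by
        ext x
        simp
      rw [e4, sum_biUnion]
      · rw [neg_smul, sum_smul, ← sum_neg_distrib]
        exact sum_congr rfl fun j hj => h.low y j (by rw [hyi]; exact mem_range.1 hj)
      · intro j _ j' _ hjj'
        rw [Function.onFun, disjoint_left]
        intro x hx hx'
        simp only [mem_filter, mem_univ, true_and] at hx hx'
        exact hjj' (hx.symm.trans hx')
    have e5 : ∑ x ∈ B.erase y, ρ (swap x y) w = (s i * ((num r i : ℚ) - 1)) • w := by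
      have e6 : ∀ x ∈ B.erase y, ρ (swap x y) w = s i • w := by
        intro x hx
        rw [mem_erase] at hx
        have hxi : r x = i := by simpa [hB] using hx.2
        rw [h.rv x y hx.1 (by rw [hxi, hyi]), hxi]
      rw [sum_congr rfl e6, sum_const, card_erase_of_mem hy, ← Nat.cast_smul_eq_nsmul ℚ, smul_smul]
      congr 1
      have h7 : 1 ≤ B.card := card_pos.2 ⟨y, hy⟩
      have h8 : (num r i : ℕ) = B.card := rfl
      rw [h8, Nat.cast_sub h7]
      push_cast
      ring
    rw [jm, e2, sum_union, sum_union, e3, e5]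
    · rw [disjoint_left]
      intro x hx hx'
      simp only [mem_filter, mem_univ, true_and, mem_erase, hB] at hx hx'
      omega
    · rw [disjoint_left]
      intro x hx hx'
      simp only [mem_filter, mem_univ, true_and, mem_erase, mem_union, hB] at hx hx'
      omega
  have e9 : ∑ y ∈ B, ∑ x ∈ univ.filter (fun x => i < r x), ρ (swap x y) w =
      (- (s i * above r i)) • w := by
    rw [sum_comm]
    have e10 : ∀ x ∈ univ.filter (fun x => i < r x), ∑ y ∈ B, ρ (swap x y) w = - (s i • w) := by
      intro x hx
      have hx' : i < r x := by simpa using hx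
      rw [← h.low x i hx']
      exact sum_congr rfl fun y _ => by rw [swap_comm]
    rw [sum_congr rfl e10, sum_const, ← Nat.cast_smul_eq_nsmul ℚ]
    change (above r i : ℚ) • _ = _
    rw [smul_neg, smul_smul, neg_smul, mul_comm]
  have e11 : ∑ y ∈ B, jm ρ y w = (κ * num r i) • w := by
    rw [sum_congr rfl (fun y _ => hκ y), sum_const, ← Nat.cast_smul_eq_nsmul ℚ, smul_smul,
      mul_comm]
    rfl
  rw [sum_congr rfl e1, sum_add_distrib, sum_const, e9, ← Nat.cast_smul_eq_nsmul ℚ, ← add_smul,
    smul_smul, ← add_smul] at e11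
  have e12 := smul_left_injective ℚ h.ne e11
  have h8 : (num r i : ℕ) = B.card := rfl
  rw [← h8] at e12
  linarith [e12]

end rep

end Pool.Agent.Q55.Nil
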