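import Pool.Agent.Q55.Nil.TF
import Pool.Agent.TH829.Kim.Main

/-!
# Linear combinations of permutations of correspondences
-/

open CategoryTheory AlgebraicGeometry

universe u v w

namespace Pool.Agent.Q55.Nil

open Pool.Agent.H914 Pool.Agent.H914.VarClass Pool.Agent.H914.VarClass.Obj Pool.Agent.W492.BB
  Pool.Agent.W550.Corr Pool.Agent.TH133 Pool.Agent.TH829.Prime Pool.Agent.TH829.Kim

set_option linter.unusedSectionVars false

variable {k : Type u} [Field k] {𝒱 : VarClass k}

section chow

variable {C : TheoryData.{u, v, 0} 𝒱 ℚ} [hC : IsChowProj C] {X Y Z W V : 𝒱.Obj}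
  {ι : Type} [Fintype ι] [DecidableEq ι] {κ : Type} [Fintype κ] [DecidableEq κ]

include hC

/-- The class `∑_σ c(σ) ∏_i p_i(x_i, y_{σ i})`. -/
noncomputable def fc (c : Equiv.Perm ι → ℚ) (p : ι → C.A (X.prod X)) (x y : ι → (W ⟶ X)) :
    C.A W := ∑ σ, c σ • ∏ i, ev (p i) (x i) (y (σ i))

lemma pull_fc (g : V ⟶ W) (c : Equiv.Perm ι → ℚ) (p : ι → C.A (X.prod X)) (x y : ι → (W ⟶ X)) :
    C.pull g (fc c p x y) = fc c p (fun i => g ≫ x i) (fun i => g ≫ y i) := by
  rw [fc, fc, map_sum]
  apply Finset.sum_congr rfl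
  intro σ _
  rw [map_smul, map_prod]
  simp only [pull_ev]

lemma prod_mem {s : Finset ι} {f : ι → C.A W} {d : ℤ} (h : ∀ i ∈ s, f i ∈ C.gr W d) :
    ∏ i ∈ s, f i ∈ C.gr W (s.card * d) := by
  induction s using Finset.induction_on with
  | empty =>
    rw [Finset.prod_empty, Finset.card_empty, Nat.cast_zero, zero_mul]
    exact C.one_mem W
  | insert j S hj ihS =>
    rw [Finset.prod_insert hj, Finset.card_insert_of_notMem hj]
    have e1 : ((S.card + 1 : ℕ) : ℤ) * d = d + (S.card : ℤ) * d := by
      push_cast; ring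
    rw [e1]
    exact C.mul_mem (h j (Finset.mem_insert_self _ _))
      (ihS fun i hi => h i (Finset.mem_insert_of_mem hi))

lemma fc_mem (c : Equiv.Perm ι → ℚ) {p : ι → C.A (X.prod X)}
    (hp : ∀ i, p i ∈ C.gr (X.prod X) X.dim) (x y : ι → (W ⟶ X)) :
    fc c p x y ∈ C.gr W (Fintype.card ι * X.dim) := by
  rw [fc]
  apply Submodule.sum_mem
  intro σ _
  apply Submodule.smul_mem
  exact prod_mem fun i _ => ev_mem (hp i) _ _

/-- Composition of one row with a correspondence. -/
lemma fc_row (c : Equiv.Perm ι → ℚ) (p : ι → C.A (X.prod X)) (i : ι) (a : C.A (X.prod X))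
    (x y : ι → (W ⟶ X)) :
    fc c (Function.update p i (C.comp a (p i))) x y =
      C.push (fst W X) (ev a (fst W X ≫ x i) (snd W X) *
        fc c p (Function.update (fun k => fst W X ≫ x k) i (snd W X))
          (fun k => fst W X ≫ y k)) := by
  rw [fc, fc, Finset.mul_sum, map_sum]
  apply Finset.sum_congr rfl
  intro σ _
  rw [mul_smul_comm, map_smul]
  congr 1
  rw [← Finset.mul_prod_erase Finset.univ _ (Finset.mem_univ i),
    ← Finset.mul_prod_erase Finset.univ _ (Finset.mem_univ i), Function.update_self,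
    Function.update_self, ev_comp, ← C.proj_right, map_prod, ← mul_assoc]
  congr 2
  apply Finset.prod_congr rfl
  intro j hj
  have hji : j ≠ i := (Finset.mem_erase.1 hj).1
  rw [Function.update_of_ne hji, Function.update_of_ne hji, pull_ev]

/-- The linear combinations of permutations which are equivalent to zero. -/
noncomputable def KI (I : Family C) (X : 𝒱.Obj) (ι : Type) [Fintype ι] [DecidableEq ι] :
    Submodule ℚ (Equiv.Perm ι → ℚ) where
  carrier := {c | ∀ (W : 𝒱.Obj) (x y : ι → (W ⟶ X)), fc c (fun _ => dg C X) x y ∈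
    I W (Fintype.card ι * X.dim)}
  zero_mem' := by
    intro W x y
    have h : fc (0 : Equiv.Perm ι → ℚ) (fun _ => dg C X) x y = 0 := by
      rw [fc]
      apply Finset.sum_eq_zero
      intro σ _
      rw [Pi.zero_apply, zero_smul]
    rw [h]
    exact Submodule.zero_mem _
  add_mem' := by
    intro c c' h h' W x y
    have e : fc (c + c') (fun _ => dg C X) x y = fc c (fun _ => dg C X) x y +
        fc c' (fun _ => dg C X) x y := by
      rw [fc, fc, fc, ← Finset.sum_add_distrib]
      apply Finset.sum_congr rfl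
      intro σ _
      rw [Pi.add_apply, add_smul]
    rw [e]
    exact Submodule.add_mem _ (h W x y) (h' W x y)
  smul_mem' := by
    intro q c h W x y
    have e : fc (q • c) (fun _ => dg C X) x y = q • fc c (fun _ => dg C X) x y := by
      rw [fc, fc, Finset.smul_sum]
      apply Finset.sum_congr rfl
      intro σ _
      rw [Pi.smul_apply, smul_smul, smul_eq_mul]
    rw [e]
    exact Submodule.smul_mem _ _ (h W x y)

lemma mem_KI {I : Family C} {c : Equiv.Perm ι → ℚ} : c ∈ KI I X ι ↔
    ∀ (W : 𝒱.Obj) (x y : ι → (W ⟶ X)), fc c (fun _ => dg C X) x y ∈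
      I W (Fintype.card ι * X.dim) := Iff.rfl

/-- The composition of all rows with correspondences. -/
lemma KI_rows {I : Family C} (hI : IsAdequate C I) {c : Equiv.Perm ι → ℚ} (hc : c ∈ KI I X ι)
    {a : ι → C.A (X.prod X)} (ha : ∀ i, a i ∈ C.gr (X.prod X) X.dim) (W : 𝒱.Obj)
    (x y : ι → (W ⟶ X)) : fc c a x y ∈ I W (Fintype.card ι * X.dim) := by
  have key : ∀ T : Finset ι, ∀ (W : 𝒱.Obj) (x y : ι → (W ⟶ X)),
      fc c (fun i => if i ∈ T then a i else dg C X) x y ∈ I W (Fintype.card ι * X.dim) := by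
    intro T
    induction T using Finset.induction_on with
    | empty => intro W x y; simpa using hc W x y
    | insert i T hi ih =>
      intro W x y
      have e : (fun j => if j ∈ insert i T then a j else dg C X) =
          Function.update (fun j => if j ∈ T then a j else dg C X) i
            (C.comp (a i) ((fun j => if j ∈ T then a j else dg C X) i)) := by
        funext j
        by_cases hj : j = i
        · subst hj
          rw [Function.update_self, if_pos (Finset.mem_insert_self _ _)]
          beta_reduce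
          rw [if_neg hi, comp_dg]
        · rw [Function.update_of_ne hj]
          by_cases hjT : j ∈ T
          · rw [if_pos hjT, if_pos (Finset.mem_insert_of_mem hjT)]
          · rw [if_neg hjT, if_neg (by simp [hj, hjT])]
      rw [e, fc_row]
      have h1 := hI.push_mem (fst W X) (hI.mul_mem' (ev_mem (ha i) (fst W X ≫ x i) (snd W X))
        (ih (W.prod X) (Function.update (fun k => fst W X ≫ x k) i (snd W X))
          (fun k => fst W X ≫ y k)))
      refine hI.congr ?_ h1
      rw [dim_prod]; push_cast; ring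
  have := key Finset.univ W x y
  simpa using this

/-! ### The stability properties -/

lemma fc_Lt (g : Equiv.Perm ι) (c : Equiv.Perm ι → ℚ) (p : C.A (X.prod X)) (x y : ι → (W ⟶ X)) :
    fc (Lt g c) (fun _ => p) x y = fc c (fun _ => p) x (fun i => y (g i)) := by
  rw [fc, fc, ← Equiv.sum_comp (Equiv.mulLeft g)]
  apply Finset.sum_congr rfl
  intro σ _
  rw [Lt_apply, Equiv.coe_mulLeft, inv_mul_cancel_left]
  rfl

lemma fc_Rt (g : Equiv.Perm ι) (c : Equiv.Perm ι → ℚ) (p : C.A (X.prod X)) (x y : ι → (W ⟶ X)) :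
    fc (Rt g c) (fun _ => p) x y = fc c (fun _ => p) (fun i => x (g i)) y := by
  rw [fc, fc, ← Equiv.sum_comp (Equiv.mulRight g⁻¹)]
  apply Finset.sum_congr rfl
  intro σ _
  rw [Rt_apply, Equiv.coe_mulRight, inv_mul_cancel_right]
  congr 1
  rw [← Equiv.prod_comp g]
  apply Finset.prod_congr rfl
  intro i _
  rw [Equiv.Perm.mul_apply, Equiv.Perm.inv_def, Equiv.symm_apply_apply]

lemma twoSided_KI (I : Family C) (X : 𝒱.Obj) : TwoSided (KI I X ι) where
  lt g c hc W x y := by rw [fc_Lt]; exact hc _ _ _
  rt g c hc W x y := by rw [fc_Rt]; exact hc _ _ _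

open Classical in
lemma prod_via (f : κ ↪ ι) (τ : Equiv.Perm κ) (p : C.A (X.prod X)) (x y : ι → (W ⟶ X)) :
    ∏ i, ev p (x i) (y (via f τ i)) =
      (∏ i ∈ Finset.univ.filter (fun i => i ∉ Set.range f), ev p (x i) (y i)) *
        ∏ j, ev p (x (f j)) (y (f (τ j))) := by
  rw [← Finset.prod_filter_mul_prod_filter_not Finset.univ (fun i => i ∉ Set.range f)]
  congr 1
  · apply Finset.prod_congr rfl
    intro i hi
    rw [via_out f τ (Finset.mem_filter.1 hi).2]
  · have e : Finset.univ.filter (fun i => ¬ i ∉ Set.range f) = Finset.univ.image f := by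
      ext i
      simp
    rw [e, Finset.prod_image (fun _ _ _ _ h => f.injective h)]
    apply Finset.prod_congr rfl
    intro j _
    rw [via_img]

open Classical in
lemma fc_liftE (f : κ ↪ ι) (c : Equiv.Perm κ → ℚ) (p : C.A (X.prod X)) (x y : ι → (W ⟶ X)) :
    fc (liftE f c) (fun _ => p) x y =
      (∏ i ∈ Finset.univ.filter (fun i => i ∉ Set.range f), ev p (x i) (y i)) *
        fc c (fun _ => p) (fun j => x (f j)) (fun j => y (f j)) := by
  rw [fc, sum_liftE, fc, Finset.mul_sum]
  apply Finset.sum_congr rfl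
  intro τ _
  rw [prod_via, mul_smul_comm]

lemma KI_lift {I : Family C} (hI : IsAdequate C I) (f : κ ↪ ι) {c : Equiv.Perm κ → ℚ}
    (hc : c ∈ KI I X κ) : liftE f c ∈ KI I X ι := by
  classical
  intro W x y
  rw [fc_liftE]
  have h1 := hI.mul_mem' (prod_mem (s := Finset.univ.filter (fun i => i ∉ Set.range f))
    (f := fun i => ev (dg C X) (x i) (y i)) (fun i _ => ev_mem (dg_mem C X) _ _))
    (hc W (fun j => x (f j)) (fun j => y (f j)))
  refine hI.congr ?_ h1
  have h2 : (Finset.univ.filter (fun i => i ∉ Set.range f)).card + Fintype.card κ =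
      Fintype.card ι := by
    have e : Fintype.card κ = (Finset.univ.filter (fun i => ¬ i ∉ Set.range f)).card := by
      have e1 : Finset.univ.filter (fun i => ¬ i ∉ Set.range f) = Finset.univ.image f := by
        ext i
        simp
      rw [e1, Finset.card_image_of_injective _ f.injective, Finset.card_univ]
    rw [e, Finset.card_filter_add_card_filter_not, Finset.card_univ]
  rw [← h2]
  push_cast
  ring

/-- The contraction of a pair of points. -/
lemma push_fc_option (c : Equiv.Perm (Option κ) → ℚ) (x y : κ → (W ⟶ X)) {q : ℚ}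
    (hq : HasDegree C (ev (dg C X) (𝟙 X) (𝟙 X)) q) :
    C.push (fst W X) (fc c (fun _ => dg C X)
      (fun o => Option.elim o (snd W X) (fun i => fst W X ≫ x i))
      (fun o => Option.elim o (snd W X) (fun i => fst W X ≫ y i))) =
      fc (ptr q c) (fun _ => dg C X) x y := by
  set x' : Option κ → (W.prod X ⟶ X) :=
    fun o => Option.elim o (snd W X) (fun i => fst W X ≫ x i) with hx'
  set y' : Option κ → (W.prod X ⟶ X) :=
    fun o => Option.elim o (snd W X) (fun i => fst W X ≫ y i) with hy'
  have hx0 : x' none = snd W X := rfl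
  have hy0 : y' none = snd W X := rfl
  have hxs : ∀ i : κ, x' (some i) = fst W X ≫ x i := fun i => rfl
  have hys : ∀ i : κ, y' (some i) = fst W X ≫ y i := fun i => rfl
  have hs : fc c (fun _ => dg C X) x' y' = ∑ τ : Equiv.Perm κ, ∑ p : Option κ,
      c (Equiv.Perm.decomposeOption.symm (p, τ)) •
        ∏ i, ev (dg C X) (x' i) (y' (Equiv.Perm.decomposeOption.symm (p, τ) i)) := by
    rw [fc, ← Equiv.sum_comp Equiv.Perm.decomposeOption.symm, Fintype.sum_prod_type_right]
  have hdec : ∀ (p : Option κ) (τ : Equiv.Perm κ), Equiv.Perm.decomposeOption.symm (p, τ) =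
      Equiv.swap none p * Equiv.optionCongr τ := fun p τ => rfl
  have hoc : ∀ (τ : Equiv.Perm κ) (i : κ), (Equiv.optionCongr τ : Equiv.Perm (Option κ)) (some i) =
      some (τ i) := fun τ i => rfl
  have hoc0 : ∀ (τ : Equiv.Perm κ), (Equiv.optionCongr τ : Equiv.Perm (Option κ)) none =
      none := fun τ => rfl
  have hterm0 : ∀ τ : Equiv.Perm κ, C.push (fst W X)
      (c (Equiv.Perm.decomposeOption.symm (none, τ)) •
        ∏ i, ev (dg C X) (x' i) (y' (Equiv.Perm.decomposeOption.symm (none, τ) i))) =
      (q * c (Equiv.optionCongr τ)) • ∏ i, ev (dg C X) (x i) (y (τ i)) := by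
    intro τ
    rw [hdec, Equiv.swap_self, map_smul, Fintype.prod_option]
    have e1 : (Equiv.refl (Option κ) * Equiv.optionCongr τ : Equiv.Perm (Option κ)) =
        Equiv.optionCongr τ := one_mul _
    rw [e1, hoc0, hx0, hy0]
    have h1 : ∏ i : κ, ev (dg C X) (x' (some i)) (y' (Equiv.optionCongr τ (some i))) =
        C.pull (fst W X) (∏ i : κ, ev (dg C X) (x i) (y (τ i))) := by
      rw [map_prod]
      apply Finset.prod_congr rfl
      intro i _
      rw [hoc, hxs, hys, pull_ev]
    rw [h1, C.proj_right, push_ev_diag hq, smul_mul_assoc, one_mul, smul_smul, mul_comm q]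
  have hterm1 : ∀ (τ : Equiv.Perm κ) (j : κ), C.push (fst W X)
      (c (Equiv.Perm.decomposeOption.symm (some j, τ)) •
        ∏ i, ev (dg C X) (x' i) (y' (Equiv.Perm.decomposeOption.symm (some j, τ) i))) =
      c (Equiv.swap none (some j) * Equiv.optionCongr τ) •
        ∏ i, ev (dg C X) (x i) (y (τ i)) := by
    intro τ j
    obtain ⟨i, rfl⟩ := τ.surjective j
    rw [hdec, map_smul]
    congr 1
    rw [Fintype.prod_option, Equiv.Perm.mul_apply, hoc0, Equiv.swap_apply_left, hx0, hys,
      ← Finset.mul_prod_erase Finset.univ _ (Finset.mem_univ i),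
      ← Finset.mul_prod_erase Finset.univ _ (Finset.mem_univ i)]
    have h1 : ∏ l ∈ Finset.univ.erase i, ev (dg C X) (x' (some l))
        (y' ((Equiv.swap none (some (τ i)) * Equiv.optionCongr τ) (some l))) =
        C.pull (fst W X) (∏ l ∈ Finset.univ.erase i, ev (dg C X) (x l) (y (τ l))) := by
      rw [map_prod]
      apply Finset.prod_congr rfl
      intro l hl
      have hli : l ≠ i := (Finset.mem_erase.1 hl).1
      rw [Equiv.Perm.mul_apply, hoc, Equiv.swap_apply_of_ne_of_ne (Option.some_ne_none _) (by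
          intro h
          exact hli (τ.injective (Option.some_injective _ h))), hxs, hys, pull_ev]
    rw [h1, ← mul_assoc, C.proj_right, Equiv.Perm.mul_apply, hoc, Equiv.swap_apply_right, hxs,
      hy0, ch_comm C (ev (dg C X) _ _) (ev (dg C X) _ _), ← ev_comp, comp_dg]
  rw [hs, map_sum, fc]
  apply Finset.sum_congr rfl
  intro τ _
  rw [map_sum, Fintype.sum_option, hterm0]
  have h2 : ∀ j ∈ (Finset.univ : Finset κ), C.push (fst W X)
      (c (Equiv.Perm.decomposeOption.symm (some j, τ)) •
        ∏ i, ev (dg C X) (x' i) (y' (Equiv.Perm.decomposeOption.symm (some j, τ) i))) =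
      c (Equiv.swap none (some j) * Equiv.optionCongr τ) •
        ∏ i, ev (dg C X) (x i) (y (τ i)) := fun j _ => hterm1 τ j
  rw [Finset.sum_congr rfl h2, ← Finset.sum_smul, ← add_smul]
  rfl

variable {hne : ∀ X : 𝒱.Obj, (1 : C.A X) ≠ 0}

variable (hne) in
/-- The degree of the self-intersection of the diagonal. -/
noncomputable def chi (X : 𝒱.Obj) : ℚ := trL hne X 1

lemma chi_spec (X : 𝒱.Obj) : HasDegree C (ev (dg C X) (𝟙 X) (𝟙 X)) (chi hne X) :=
  trL_spec (hne := hne) 1

lemma KI_ptr {I : Family C} (hI : IsAdequate C I) {c : Equiv.Perm (Option κ) → ℚ}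
    (hc : c ∈ KI I X (Option κ)) : ptr (chi hne X) c ∈ KI I X κ := by
  intro W x y
  rw [← push_fc_option c x y (chi_spec (hne := hne) X)]
  have h1 := hI.push_mem (fst W X) (hc (W.prod X)
    (fun o => Option.elim o (snd W X) (fun i => fst W X ≫ x i))
    (fun o => Option.elim o (snd W X) (fun i => fst W X ≫ y i)))
  refine hI.congr ?_ h1
  rw [dim_prod, Fintype.card_option]; push_cast; ring

variable (hne) in
/-- The family of the linear combinations of permutations equivalent to zero. -/
noncomputable def famI (I : Family C) (hI : IsAdequate C I) (X : 𝒱.Obj) : PFam (chi hne X) where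
  K ι _ _ := KI I X ι
  two _ _ _ := twoSided_KI I X
  lift f _ hc := KI_lift hI f hc
  ptr hc := KI_ptr hI hc

lemma KI_mono {I J : Family C} (h : I ≤ J) : KI I X ι ≤ KI J X ι :=
  fun _ hc W x y => h W _ (hc W x y)

end chow

end Pool.Agent.Q55.Nil
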