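import Pool.Agent.Q55.Nil.Rect

/-!
# Functions on symmetric groups and grids
-/

set_option linter.unusedSectionVars false

namespace Pool.Agent.Q55.Nil

open Finset Equiv

section grid

variable {L : Type*} [Fintype L] [DecidableEq L]

/-- Left translations. -/
def Lt : Perm L →* Module.End ℚ (Perm L → ℚ) where
  toFun g :=
    { toFun := fun c σ => c (g⁻¹ * σ)
      map_add' := fun _ _ => rfl
      map_smul' := fun _ _ => rfl }
  map_one' := by
    ext c σ
    simp
  map_mul' g h := by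
    ext c σ
    simp [mul_assoc]

/-- Right translations. -/
def Rt : Perm L →* Module.End ℚ (Perm L → ℚ) where
  toFun g :=
    { toFun := fun c σ => c (σ * g)
      map_add' := fun _ _ => rfl
      map_smul' := fun _ _ => rfl }
  map_one' := by
    ext c σ
    simp
  map_mul' g h := by
    ext c σ
    simp [mul_assoc]

lemma Lt_apply (g : Perm L) (c : Perm L → ℚ) (σ : Perm L) : Lt g c σ = c (g⁻¹ * σ) := rfl

lemma Rt_apply (g : Perm L) (c : Perm L → ℚ) (σ : Perm L) : Rt g c σ = c (σ * g) := rfl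

/-- The pairing of functions. -/
def pr (u v : Perm L → ℚ) : ℚ := ∑ τ, u τ * v τ

lemma pr_self_pos {u : Perm L → ℚ} (h : u ≠ 0) : 0 < pr u u := by
  obtain ⟨σ, hσ⟩ := Function.ne_iff.1 h
  unfold pr
  apply sum_pos' (fun τ _ => mul_self_nonneg _)
  exact ⟨σ, mem_univ _, mul_self_pos.2 hσ⟩

/-- Subspaces stable under left and right translations. -/
structure TwoSided (W : Submodule ℚ (Perm L → ℚ)) : Prop where
  lt : ∀ g, ∀ c ∈ W, Lt g c ∈ W
  rt : ∀ g, ∀ c ∈ W, Rt g c ∈ W

/-- Functions invariant under row permutations on the left, alternating under column permutations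
on the right. -/
structure RC {A B : Type*} (e : L ≃ A × B) (y : Perm L → ℚ) : Prop where
  row : ∀ ρ : Perm L, (∀ x, (e (ρ x)).1 = (e x).1) → ∀ σ, y (ρ * σ) = y σ
  col : ∀ κ : Perm L, (∀ x, (e (κ x)).2 = (e x).2) → ∀ σ,
    y (σ * κ) = ((Perm.sign κ : ℤ) : ℚ) * y σ

/-- The dichotomy of von Neumann. -/
lemma dichotomy {A B : Type*} [Finite A] (e : L ≃ A × B) (σ : Perm L) :
    (∃ x y, x ≠ y ∧ (e x).2 = (e y).2 ∧ (e (σ x)).1 = (e (σ y)).1) ∨
    ∃ ρ κ : Perm L, (∀ x, (e (ρ x)).1 = (e x).1) ∧ (∀ x, (e (κ x)).2 = (e x).2) ∧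
      σ = ρ * κ := by
  by_cases h : ∃ x y, x ≠ y ∧ (e x).2 = (e y).2 ∧ (e (σ x)).1 = (e (σ y)).1
  · exact Or.inl h
  · right
    push Not at h
    let f : L → L := fun x => e.symm ((e (σ x)).1, (e x).2)
    have hf : Function.Injective f := by
      intro x y hxy
      have h1 := e.symm.injective hxy
      obtain ⟨h2, h3⟩ := Prod.mk.inj h1
      by_contra hne
      exact h x y hne h3 h2
    have hb : Function.Bijective f := (Fintype.bijective_iff_injective_and_card f).2 ⟨hf, rfl⟩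
    set κ : Perm L := Equiv.ofBijective f hb with hκ
    have hκx : ∀ x, e (κ x) = ((e (σ x)).1, (e x).2) := fun x => by
      rw [hκ, Equiv.ofBijective_apply]
      simp [f]
    refine ⟨σ * κ⁻¹, κ, ?_, ?_, by rw [mul_assoc, inv_mul_cancel, mul_one]⟩
    · intro x
      obtain ⟨z, rfl⟩ := κ.surjective x
      have h5 : (σ * κ⁻¹) (κ z) = σ z := by
        rw [Perm.mul_apply, Perm.inv_def, Equiv.symm_apply_apply]
      rw [h5, hκx]
    · intro x
      rw [hκx]

omit [Fintype L] in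
lemma swap_inv' {c : Type*} (f : L → c) (a b : L) (hab : f a = f b) (x : L) :
    f (swap a b x) = f x := by
  by_cases hx : x = a
  · rw [hx, swap_apply_left, hab]
  · by_cases hx' : x = b
    · rw [hx', swap_apply_right, hab]
    · rw [swap_apply_of_ne_of_ne hx hx']

lemma RC.zero {A B : Type*} {e : L ≃ A × B} {y : Perm L → ℚ} (h : RC e y) {σ : Perm L} {a b : L}
    (hab : a ≠ b) (h1 : (e a).2 = (e b).2) (h2 : (e (σ a)).1 = (e (σ b)).1) : y σ = 0 := by
  have e1 := h.row (swap (σ a) (σ b)) (swap_inv' (fun x => (e x).1) _ _ h2) σ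
  have e2 := h.col (swap a b) (swap_inv' (fun x => (e x).2) _ _ h1) σ
  have e3 : swap (σ a) (σ b) * σ = σ * swap a b := by
    rw [swap_apply_apply σ a b]
    simp [mul_assoc]
  rw [e3, e2, Perm.sign_swap hab] at e1
  push_cast at e1
  linarith

lemma RC.eq {A B : Type*} [Finite A] {e : L ≃ A × B} {y y' : Perm L → ℚ} (h : RC e y)
    (h' : RC e y') (h1 : y 1 = y' 1) : y = y' := by
  funext σ
  rcases dichotomy e σ with ⟨a, b, hab, h2, h3⟩ | ⟨ρ, κ, h2, h3, rfl⟩
  · rw [h.zero hab h2 h3, h'.zero hab h2 h3]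
  · rw [h.row ρ h2, h'.row ρ h2, ← one_mul κ, h.col κ h3, h'.col κ h3, h1]

lemma theta_sign (x y : L) (hxy : x ≠ y) (g : Perm L) :
    ((Perm.sign (swap x y * g) : ℤ) : ℚ) = (-1) * ((Perm.sign g : ℤ) : ℚ) := by
  rw [Perm.sign_mul, Perm.sign_swap hxy]
  push_cast
  ring

/-- A nonzero two-sided invariant subspace contains a minimal one. -/
lemma exists_minimal {W : Submodule ℚ (Perm L → ℚ)} (hW : TwoSided W) (hne : W ≠ ⊥) :
    ∃ V ≤ W, V ≠ ⊥ ∧ TwoSided V ∧ ∀ U ≤ V, TwoSided U → U ≠ ⊥ → U = V := by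
  have hwf : WellFounded ((· < ·) : Submodule ℚ (Perm L → ℚ) → Submodule ℚ (Perm L → ℚ) → Prop) :=
    wellFounded_lt
  obtain ⟨V, ⟨h1, h2, h3⟩, h4⟩ := hwf.has_min
    {V : Submodule ℚ (Perm L → ℚ) | V ≤ W ∧ V ≠ ⊥ ∧ TwoSided V} ⟨W, le_rfl, hne, hW⟩
  refine ⟨V, h1, h2, h3, fun U hU hU2 hU3 => ?_⟩
  by_contra hcon
  exact h4 U ⟨hU.trans h1, hU3, hU2⟩ (lt_of_le_of_ne hU hcon)

/-- In a two-sided invariant subspace on which all Jucys-Murphy elements act as `κ` there are
functions with the behaviour of the rectangle. -/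
theorem exists_grid {κ : ℚ} [Nonempty L] {W : Submodule ℚ (Perm L → ℚ)} (hW : TwoSided W)
    (hκ : ∀ w ∈ W, ∀ y, jm Lt y w = κ • w) (hne : W ≠ ⊥) :
    ∃ a b : ℕ, 0 < a ∧ 0 < b ∧ (b : ℚ) = a + κ ∧ Fintype.card L = a * b ∧
      ∀ e : L ≃ Fin a × Fin b, ∃ y ∈ W, y 1 = 1 ∧ RC e y := by
  obtain ⟨V, hVW, hV0, hV, hmin⟩ := exists_minimal hW hne
  have hκV : ∀ w ∈ V, ∀ y, jm Lt y w = κ • w := fun w hw => hκ w (hVW hw)
  obtain ⟨a, b, ha, hb, hab, hcard, hrow⟩ := exists_rows Lt (ε := 1) (κ := κ) (by norm_num)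
    (θ := fun _ => 1) rfl (fun _ _ _ _ => by norm_num) hV.lt hκV hV0
  obtain ⟨a', b', ha', hb', hab', hcard', hcol⟩ := exists_rows Lt (ε := -1) (κ := κ) (by norm_num)
    (θ := fun g => ((Perm.sign g : ℤ) : ℚ)) (by simp) theta_sign hV.lt hκV hV0
  have hba : a = b' := by
    have h1 : ((a * b : ℕ) : ℚ) = ((a' * b' : ℕ) : ℚ) := by rw [← hcard, ← hcard']
    push_cast at h1
    have ha1 : (0 : ℚ) < a := by exact_mod_cast ha
    have hb1 : (0 : ℚ) < b := by exact_mod_cast hb
    have ha1' : (0 : ℚ) < a' := by exact_mod_cast ha'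
    have hb1' : (0 : ℚ) < b' := by exact_mod_cast hb'
    have h2 : ((a : ℚ) - b') * (a + a') = 0 := by
      have e1 : (b : ℚ) = a + κ := by linarith
      have e2 : (a' : ℚ) = b' + κ := by linarith
      rw [e1, e2] at h1
      rw [e2]
      linarith
    rcases mul_eq_zero.1 h2 with h3 | h3
    · have : (a : ℚ) = b' := by linarith
      exact_mod_cast this
    · exfalso; linarith
  have hba' : b = a' := by
    rw [hcard, mul_comm, ← hba] at hcard'
    exact Nat.eq_of_mul_eq_mul_right ha hcard'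
  subst hba hba'
  refine ⟨a, b, ha, hb, by linarith, hcard, fun e => ?_⟩
  obtain ⟨u, hu, hu0, hu1⟩ := hrow e
  obtain ⟨v, hv, hv0, hv1⟩ := hcol (e.trans (Equiv.prodComm _ _))
  simp only [one_smul, Equiv.trans_apply, Equiv.prodComm_apply, Prod.fst_swap] at hu1 hv1
  -- some translate of `u` is not orthogonal to `v`
  obtain ⟨g, h, hgh⟩ : ∃ g h : Perm L, pr (Lt h (Rt g u)) v ≠ 0 := by
    by_contra hcon
    push Not at hcon
    let U : Submodule ℚ (Perm L → ℚ) :=
      { carrier := {w | w ∈ V ∧ ∀ g h : Perm L, pr (Lt h (Rt g w)) v = 0}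
        zero_mem' := ⟨V.zero_mem, fun g h => by simp [pr]⟩
        add_mem' := by
          rintro w w' ⟨h1, h2⟩ ⟨h3, h4⟩
          refine ⟨V.add_mem h1 h3, fun g h => ?_⟩
          have e1 := h2 g h
          have e2 := h4 g h
          unfold pr at e1 e2 ⊢
          simp only [map_add, Pi.add_apply, add_mul, sum_add_distrib]
          rw [e1, e2, add_zero]
        smul_mem' := by
          rintro q w ⟨h1, h2⟩
          refine ⟨V.smul_mem q h1, fun g h => ?_⟩
          have e1 := h2 g h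
          unfold pr at e1 ⊢
          simp only [map_smul, Pi.smul_apply, smul_eq_mul, mul_assoc, ← mul_sum]
          rw [e1, mul_zero] }
    have hLR : ∀ (g h : Perm L) (w : Perm L → ℚ), Lt h (Rt g w) = Rt g (Lt h w) := by
      intro g h w
      funext σ
      rw [Lt_apply, Rt_apply, Rt_apply, Lt_apply, mul_assoc]
    have hU2 : TwoSided U := by
      constructor
      · rintro g' c ⟨hc1, hc2⟩
        refine ⟨hV.lt _ _ hc1, fun g h => ?_⟩
        rw [← hLR, rho_mul]
        exact hc2 _ _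
      · rintro g' c ⟨hc1, hc2⟩
        refine ⟨hV.rt _ _ hc1, fun g h => ?_⟩
        rw [rho_mul]
        exact hc2 _ _
    have hUV : U ≤ V := fun w hw => hw.1
    have hU0 : U ≠ ⊥ := by
      intro h0
      have : u ∈ U := ⟨hu, hcon⟩
      rw [h0, Submodule.mem_bot] at this
      exact hu0 this
    have hUeq := hmin U hUV hU2 hU0
    have hvU : v ∈ U := by rw [hUeq]; exact hv
    have h5 := hvU.2 1 1
    rw [map_one, map_one, Module.End.one_apply, Module.End.one_apply] at h5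
    exact absurd h5 (pr_self_pos hv0).ne'
  -- the function
  set y : Perm L → ℚ := fun σ => ∑ τ, u (σ * τ * g) * v τ with hy
  have hyV : y ∈ V := by
    have e1 : y = ∑ τ, v τ • Rt (τ * g) u := by
      funext σ
      rw [Finset.sum_apply]
      apply sum_congr rfl
      intro τ _
      rw [Pi.smul_apply, Rt_apply, smul_eq_mul, mul_comm, mul_assoc]
    rw [e1]
    exact V.sum_mem fun τ _ => V.smul_mem _ (hV.rt _ _ hu)
  have hRC : RC e y := by
    constructor
    · intro ρ hρ σ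
      apply sum_congr rfl
      intro τ _
      congr 1
      have h6 := congrFun (hu1 ρ hρ) (ρ * σ * τ * g)
      rw [Lt_apply] at h6
      rw [← h6]
      simp only [mul_assoc]
      rw [inv_mul_cancel_left]
    · intro κ' hκ' σ
      change ∑ τ, u (σ * κ' * τ * g) * v τ = _ * ∑ τ, u (σ * τ * g) * v τ
      rw [mul_sum, ← Equiv.sum_comp (Equiv.mulLeft κ'⁻¹)]
      apply sum_congr rfl
      intro τ _
      have h6 := congrFun (hv1 κ' hκ') τ
      rw [Lt_apply, Pi.smul_apply, smul_eq_mul] at h6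
      rw [Equiv.coe_mulLeft, h6]
      simp only [mul_assoc, mul_inv_cancel_left]
      ring
  have hy1 : y 1 ≠ 0 := by
    intro h0
    have h7 : y = 0 := hRC.eq (y' := 0) ⟨fun _ _ _ => rfl, fun _ _ _ => by simp⟩ h0
    apply hgh
    have h8 := congrFun h7 h⁻¹
    rw [hy] at h8
    exact h8
  refine ⟨(y 1)⁻¹ • y, hVW (V.smul_mem _ hyV), ?_, ?_⟩
  · rw [Pi.smul_apply, smul_eq_mul, inv_mul_cancel₀ hy1]
  · constructor
    · intro ρ hρ σ
      rw [Pi.smul_apply, Pi.smul_apply, hRC.row ρ hρ]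
    · intro κ' hκ' σ
      rw [Pi.smul_apply, Pi.smul_apply, hRC.col κ' hκ', smul_eq_mul, smul_eq_mul]
      ring

end grid

end Pool.Agent.Q55.Nil
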