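import Pool.Agent.Q55.Nil.Chi
import Pool.Agent.Q55.Nil.Content

/-!
# The traces of idempotents
-/

open CategoryTheory AlgebraicGeometry

universe u v w

namespace Pool.Agent.Q55.Nil

open Pool.Agent.H914 Pool.Agent.H914.VarClass Pool.Agent.H914.VarClass.Obj Pool.Agent.W492.BB
  Pool.Agent.W550.Corr Pool.Agent.TH133 Pool.Agent.TH829.Prime Pool.Agent.TH829.Kim
open Pool.Agent.Y110 (GradedCommutative)

set_option linter.unusedSectionVars false

variable {k : Type u} [Field k] {𝒱 : VarClass k}

section chow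

variable {C : TheoryData.{u, v, 0} 𝒱 ℚ} [hC : IsChowProj C] {X Y Z W V : 𝒱.Obj}
  {ι : Type} [Fintype ι] [DecidableEq ι] {κ : Type} [Fintype κ] [DecidableEq κ]

include hC

/-- The relations between the permutations of the powers of the correspondence `e`. -/
noncomputable def KE (I : Family C) (e : C.A (X.prod X)) (ι : Type) [Fintype ι] [DecidableEq ι] :
    Submodule ℚ (Equiv.Perm ι → ℚ) where
  carrier := {c | ∀ (W : 𝒱.Obj) (x y : ι → (W ⟶ X)), fc c (fun _ => e) x y ∈
    I W (Fintype.card ι * X.dim)}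
  zero_mem' := by
    intro W x y
    have h : fc (0 : Equiv.Perm ι → ℚ) (fun _ => e) x y = 0 := by
      rw [fc]
      apply Finset.sum_eq_zero
      intro σ _
      rw [Pi.zero_apply, zero_smul]
    rw [h]
    exact Submodule.zero_mem _
  add_mem' := by
    intro c c' h h' W x y
    have h2 : fc (c + c') (fun _ => e) x y = fc c (fun _ => e) x y +
        fc c' (fun _ => e) x y := by
      rw [fc, fc, fc, ← Finset.sum_add_distrib]
      apply Finset.sum_congr rfl
      intro σ _
      rw [Pi.add_apply, add_smul]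
    rw [h2]
    exact Submodule.add_mem _ (h W x y) (h' W x y)
  smul_mem' := by
    intro q c h W x y
    have h2 : fc (q • c) (fun _ => e) x y = q • fc c (fun _ => e) x y := by
      rw [fc, fc, Finset.smul_sum]
      apply Finset.sum_congr rfl
      intro σ _
      rw [Pi.smul_apply, smul_smul, smul_eq_mul]
    rw [h2]
    exact Submodule.smul_mem _ _ (h W x y)

lemma KE_lift {I : Family C} (hI : IsAdequate C I) {e : C.A (X.prod X)}
    (he : e ∈ C.gr (X.prod X) X.dim) (f : κ ↪ ι) {c : Equiv.Perm κ → ℚ}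
    (hc : c ∈ KE I e κ) : liftE f c ∈ KE I e ι := by
  classical
  intro W x y
  rw [fc_liftE]
  have h1 := hI.mul_mem' (prod_mem (s := Finset.univ.filter (fun i => i ∉ Set.range f))
    (f := fun i => ev e (x i) (y i)) (fun i _ => ev_mem he _ _))
    (hc W (fun j => x (f j)) (fun j => y (f j)))
  refine hI.congr ?_ h1
  have h2 : (Finset.univ.filter (fun i => i ∉ Set.range f)).card + Fintype.card κ =
      Fintype.card ι := by
    have e : Fintype.card κ = (Finset.univ.filter (fun i => ¬ i ∉ Set.range f)).card := by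
      have e1 : Finset.univ.filter (fun i => ¬ i ∉ Set.range f) = Finset.univ.image f := by
        ext i
        simp
      rw [e1, Finset.card_image_of_injective _ f.injective, Finset.card_univ]
    rw [e, Finset.card_filter_add_card_filter_not, Finset.card_univ]
  rw [← h2]
  push_cast
  ring

/-- The contraction of a pair of points. -/
lemma push_fcE (c : Equiv.Perm (Option κ) → ℚ) (e : C.A (X.prod X)) (x y : κ → (W ⟶ X)) {q : ℚ}
    (hq : HasDegree C (ev e (𝟙 X) (𝟙 X)) q) :
    C.push (fst W X) (fc c (fun _ => e)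
      (fun o => Option.elim o (snd W X) (fun i => fst W X ≫ x i))
      (fun o => Option.elim o (snd W X) (fun i => fst W X ≫ y i))) =
      fc (ptr q c) (fun _ => e) x y + ∑ τ : Equiv.Perm κ, ∑ i : κ,
        c (Equiv.swap none (some (τ i)) * Equiv.optionCongr τ) •
          (ev (C.comp e e - e) (x i) (y (τ i)) *
            ∏ l ∈ Finset.univ.erase i, ev e (x l) (y (τ l))) := by
  set x' : Option κ → (W.prod X ⟶ X) :=
    fun o => Option.elim o (snd W X) (fun i => fst W X ≫ x i) with hx'
  set y' : Option κ → (W.prod X ⟶ X) :=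
    fun o => Option.elim o (snd W X) (fun i => fst W X ≫ y i) with hy'
  have hx0 : x' none = snd W X := rfl
  have hy0 : y' none = snd W X := rfl
  have hxs : ∀ i : κ, x' (some i) = fst W X ≫ x i := fun i => rfl
  have hys : ∀ i : κ, y' (some i) = fst W X ≫ y i := fun i => rfl
  have hs : fc c (fun _ => e) x' y' = ∑ τ : Equiv.Perm κ, ∑ p : Option κ,
      c (Equiv.Perm.decomposeOption.symm (p, τ)) •
        ∏ i, ev e (x' i) (y' (Equiv.Perm.decomposeOption.symm (p, τ) i)) := by
    rw [fc, ← Equiv.sum_comp Equiv.Perm.decomposeOption.symm, Fintype.sum_prod_type_right]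
  have hdec : ∀ (p : Option κ) (τ : Equiv.Perm κ), Equiv.Perm.decomposeOption.symm (p, τ) =
      Equiv.swap none p * Equiv.optionCongr τ := fun p τ => rfl
  have hoc : ∀ (τ : Equiv.Perm κ) (i : κ), (Equiv.optionCongr τ : Equiv.Perm (Option κ)) (some i) =
      some (τ i) := fun τ i => rfl
  have hoc0 : ∀ (τ : Equiv.Perm κ), (Equiv.optionCongr τ : Equiv.Perm (Option κ)) none =
      none := fun τ => rfl
  have hterm0 : ∀ τ : Equiv.Perm κ, C.push (fst W X)
      (c (Equiv.Perm.decomposeOption.symm (none, τ)) •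
        ∏ i, ev e (x' i) (y' (Equiv.Perm.decomposeOption.symm (none, τ) i))) =
      (q * c (Equiv.optionCongr τ)) • ∏ i, ev e (x i) (y (τ i)) := by
    intro τ
    rw [hdec, Equiv.swap_self, map_smul, Fintype.prod_option]
    have e1 : (Equiv.refl (Option κ) * Equiv.optionCongr τ : Equiv.Perm (Option κ)) =
        Equiv.optionCongr τ := one_mul _
    rw [e1, hoc0, hx0, hy0]
    have h1 : ∏ i : κ, ev e (x' (some i)) (y' (Equiv.optionCongr τ (some i))) =
        C.pull (fst W X) (∏ i : κ, ev e (x i) (y (τ i))) := by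
      rw [map_prod]
      apply Finset.prod_congr rfl
      intro i _
      rw [hoc, hxs, hys, pull_ev]
    rw [h1, C.proj_right, push_ev_diag hq, smul_mul_assoc, one_mul, smul_smul, mul_comm q]
  have hterm1 : ∀ (τ : Equiv.Perm κ) (i : κ), C.push (fst W X)
      (c (Equiv.Perm.decomposeOption.symm (some (τ i), τ)) •
        ∏ j, ev e (x' j) (y' (Equiv.Perm.decomposeOption.symm (some (τ i), τ) j))) =
      c (Equiv.swap none (some (τ i)) * Equiv.optionCongr τ) •
        (∏ j, ev e (x j) (y (τ j))) +
      c (Equiv.swap none (some (τ i)) * Equiv.optionCongr τ) •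
          (ev (C.comp e e - e) (x i) (y (τ i)) *
            ∏ l ∈ Finset.univ.erase i, ev e (x l) (y (τ l))) := by
    intro τ i
    rw [hdec, map_smul, ← smul_add]
    congr 1
    rw [Fintype.prod_option, Equiv.Perm.mul_apply, hoc0, Equiv.swap_apply_left, hx0, hys,
      ← Finset.mul_prod_erase Finset.univ _ (Finset.mem_univ i),
      ← Finset.mul_prod_erase Finset.univ (fun j => ev e (x j) (y (τ j))) (Finset.mem_univ i)]
    have h1 : ∏ l ∈ Finset.univ.erase i, ev e (x' (some l))
        (y' ((Equiv.swap none (some (τ i)) * Equiv.optionCongr τ) (some l))) =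
        C.pull (fst W X) (∏ l ∈ Finset.univ.erase i, ev e (x l) (y (τ l))) := by
      rw [map_prod]
      apply Finset.prod_congr rfl
      intro l hl
      have hli : l ≠ i := (Finset.mem_erase.1 hl).1
      rw [Equiv.Perm.mul_apply, hoc, Equiv.swap_apply_of_ne_of_ne (Option.some_ne_none _) (by
          intro h
          exact hli (τ.injective (Option.some_injective _ h))), hxs, hys, pull_ev]
    have h2 : ev (C.comp e e - e) (x i) (y (τ i)) = ev (C.comp e e) (x i) (y (τ i)) -
        ev e (x i) (y (τ i)) := map_sub _ _ _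
    rw [h1, ← mul_assoc, C.proj_right, Equiv.Perm.mul_apply, hoc, Equiv.swap_apply_right, hxs,
      hy0, ch_comm C (ev e _ _) (ev e _ _), ← ev_comp, h2, ← add_mul, add_sub_cancel]
  rw [hs, map_sum, fc, ← Finset.sum_add_distrib]
  apply Finset.sum_congr rfl
  intro τ _
  rw [map_sum, Fintype.sum_option, hterm0, ← Equiv.sum_comp τ (fun j => C.push (fst W X)
    (c (Equiv.Perm.decomposeOption.symm (some j, τ)) •
        ∏ i, ev e (x' i) (y' (Equiv.Perm.decomposeOption.symm (some j, τ) i)))),
    Finset.sum_congr rfl (fun i _ => hterm1 τ i), Finset.sum_add_distrib, ← add_assoc,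
    ← Finset.sum_smul, ← add_smul]
  congr 2
  unfold ptr
  rw [← Equiv.sum_comp τ (fun u => c (Equiv.swap none (some u) * Equiv.optionCongr τ))]

lemma KE_ptr {I : Family C} (hI : IsAdequate C I) {e : C.A (X.prod X)}
    (he : e ∈ C.gr (X.prod X) X.dim) (hee : C.comp e e - e ∈ I (X.prod X) X.dim) {q : ℚ}
    (hq : HasDegree C (ev e (𝟙 X) (𝟙 X)) q) {c : Equiv.Perm (Option κ) → ℚ}
    (hc : c ∈ KE I e (Option κ)) : ptr q c ∈ KE I e κ := by
  intro W x y
  have h1 := hI.push_mem (fst W X) (hc (W.prod X)
    (fun o => Option.elim o (snd W X) (fun i => fst W X ≫ x i))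
    (fun o => Option.elim o (snd W X) (fun i => fst W X ≫ y i)))
  rw [TheoryData.down, push_fcE c e x y hq] at h1
  have h2 : ∑ τ : Equiv.Perm κ, ∑ i : κ,
        c (Equiv.swap none (some (τ i)) * Equiv.optionCongr τ) •
          (ev (C.comp e e - e) (x i) (y (τ i)) *
            ∏ l ∈ Finset.univ.erase i, ev e (x l) (y (τ l))) ∈
      I W (Fintype.card κ * X.dim) := by
    apply Submodule.sum_mem
    intro τ _
    apply Submodule.sum_mem
    intro i _
    apply Submodule.smul_mem
    have h3 := hI.mul_mem (hI.pull_mem (Obj.lift (x i) (y (τ i))) hee)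
      (prod_mem (s := Finset.univ.erase i) (f := fun l => ev e (x l) (y (τ l)))
        (fun l _ => ev_mem he _ _))
    refine hI.congr ?_ h3
    have h4 : (Finset.univ.erase i).card + 1 = Fintype.card κ := by
      rw [Finset.card_erase_add_one (Finset.mem_univ _), Finset.card_univ]
    rw [← h4]
    push_cast
    ring
  have h5 : ((Fintype.card (Option κ) : ℕ) : ℤ) * X.dim + ((W.dim : ℤ) - (W.prod X).dim) =
      Fintype.card κ * X.dim := by
    rw [dim_prod, Fintype.card_option]; push_cast; ring
  rw [h5] at h1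
  have h6 := Submodule.sub_mem _ h1 h2
  rwa [add_sub_cancel_right] at h6

/-- The family of the relations between the permutations of the powers of an idempotent. -/
noncomputable def famE (I : Family C) (hI : IsAdequate C I) {e : C.A (X.prod X)}
    (he : e ∈ C.gr (X.prod X) X.dim) (hee : C.comp e e - e ∈ I (X.prod X) X.dim) {q : ℚ}
    (hq : HasDegree C (ev e (𝟙 X) (𝟙 X)) q) : PFam q where
  K ι _ _ := KE I e ι
  two _ _ _ :=
    { lt := fun g c hc W x y => by rw [fc_Lt]; exact hc _ _ _
      rt := fun g c hc W x y => by rw [fc_Rt]; exact hc _ _ _ }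
  lift f _ hc := KE_lift hI he f hc
  ptr hc := KE_ptr hI he hee hq hc

lemma KE_zero {I : Family C} (hI : IsAdequate C I) (h1 : ∀ Z : 𝒱.Obj, (1 : C.A Z) ∉ I Z 0)
    (e : C.A (X.prod X)) : KE I e (Fin 0) = ⊥ := by
  rw [Submodule.eq_bot_iff]
  intro c hc
  by_contra hne
  have h2 := hc X Fin.elim0 Fin.elim0
  have h3 : fc c (fun _ => e) (Fin.elim0 : Fin 0 → (X ⟶ X)) Fin.elim0 =
      c 1 • (1 : C.A X) := by
    rw [fc, Fintype.sum_unique]
    simp only [Finset.univ_eq_empty, Finset.prod_empty]
    rfl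
  have h4 : c 1 ≠ 0 := by
    intro h
    apply hne
    funext σ
    rw [Subsingleton.elim σ 1, h]
    rfl
  rw [h3] at h2
  have h5 := Submodule.smul_mem _ (c 1)⁻¹ h2
  rw [smul_smul, inv_mul_cancel₀ h4, one_smul] at h5
  refine h1 X (hI.congr ?_ h5)
  rw [Fintype.card_fin]
  push_cast
  ring

/-- The trace of an idempotent is the opposite of a content of the rectangle. -/
theorem trace_bound {I : Family C} (hI : IsAdequate C I)
    (h1 : ∀ Z : 𝒱.Obj, (1 : C.A Z) ∉ I Z 0) {p q : ℕ}
    (hrel : ∃ y ∈ KI I X (Fin ((p + 1) * (q + 1))), y 1 = 1 ∧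
      RC (finProdFinEquiv (m := p + 1) (n := q + 1)).symm y)
    {e : C.A (X.prod X)} (he : e ∈ C.gr (X.prod X) X.dim)
    (hee : C.comp e e - e ∈ I (X.prod X) X.dim) {t : ℚ}
    (ht : HasDegree C (ev e (𝟙 X) (𝟙 X)) t) : ∃ z : ℤ, t = z ∧ -(q : ℤ) ≤ z ∧ z ≤ p := by
  obtain ⟨y, hy, hy1, hRC⟩ := hrel
  by_contra hcon
  have h2 : y ∈ KE I e (Fin ((p + 1) * (q + 1))) := fun W a b =>
    KI_rows hI hy (a := fun _ => e) (fun _ => he) W a b
  have h3 := (famE I hI he hee ht).one_eq_zero (b := q + 1) (KE_zero hI h1 e)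
    ((p + 1) * (q + 1)) (y := y) (by
      intro k hk h0
      apply hcon
      have hB : k % (q + 1) < q + 1 := Nat.mod_lt k (Nat.succ_pos q)
      have hA : k / (q + 1) < p + 1 := (Nat.div_lt_iff_lt_mul (Nat.succ_pos q)).2 hk
      generalize k % (q + 1) = B at h0 hB
      generalize k / (q + 1) = A at h0 hA
      refine ⟨(A : ℤ) - B, ?_, by omega, by omega⟩
      push_cast
      linarith) h2 (by
      have hdiv : ∀ x : Fin ((p + 1) * (q + 1)),
          (((finProdFinEquiv (m := p + 1) (n := q + 1)).symm x).1 : ℕ) = (x : ℕ) / (q + 1) :=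
        fun x => rfl
      have hmod : ∀ x : Fin ((p + 1) * (q + 1)),
          (((finProdFinEquiv (m := p + 1) (n := q + 1)).symm x).2 : ℕ) = (x : ℕ) % (q + 1) :=
        fun x => rfl
      constructor
      · intro ρ hρ σ
        apply hRC.row
        intro x
        apply Fin.ext
        rw [hdiv, hdiv]
        exact hρ x
      · intro κ hκ σ
        apply hRC.col
        intro x
        apply Fin.ext
        rw [hmod, hmod]
        have := congrArg Fin.val (hκ x)
        exact this)
  rw [hy1] at h3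
  exact one_ne_zero h3

end chow

end Pool.Agent.Q55.Nil
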