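import Pool.Agent.Q55.Nil.Fc

/-!
# Nilpotence of numerically trivial correspondences
-/

open CategoryTheory AlgebraicGeometry

universe u v w

namespace Pool.Agent.Q55.Nil

open Pool.Agent.H914 Pool.Agent.H914.VarClass Pool.Agent.H914.VarClass.Obj Pool.Agent.W492.BB
  Pool.Agent.W550.Corr Pool.Agent.TH133 Pool.Agent.TH829.Prime Pool.Agent.TH829.Kim

set_option linter.unusedSectionVars false

variable {k : Type u} [Field k] {𝒱 : VarClass k}

section chow

variable {C : TheoryData.{u, v, 0} 𝒱 ℚ} [hC : IsChowProj C] {X Y Z W V : 𝒱.Obj}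
  {κ : Type} [Fintype κ] [DecidableEq κ]

include hC

/-- The identity for the members of `S` and for `none`, the correspondence `f` for the other
members. -/
noncomputable def aS (f : R0 C X) (S : Finset κ) : Option κ → R0 C X :=
  fun o => Option.elim o 1 (fun i => if i ∈ S then 1 else f)

/-- The product attached to a permutation after the composition of the strand ending in `none` with
the power of `f`. -/
noncomputable def Term (f : R0 C X) (xo : Option κ → (W ⟶ X)) (ya : κ → (W ⟶ X)) (y1 : W ⟶ X)
    (S : Finset κ) (σ : Equiv.Perm (Option κ)) : C.A W :=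
  ∏ i, ev (toA (if σ i = none then f ^ S.card * aS f S i else aS f S i)) (xo i)
    (Option.elim (σ i) y1 ya)

lemma push_term (f : R0 C X) (xo : Option κ → (W ⟶ X)) (ya : κ → (W ⟶ X)) (y1 : W ⟶ X)
    (S : Finset κ) (σ : Equiv.Perm (Option κ)) :
    C.push (fst W X) ((∏ i, ev (toA (aS f S i)) (fst W X ≫ xo i)
      (Option.elim (σ i) (snd W X) (fun j => fst W X ≫ ya j))) *
        ev (toA (f ^ S.card)) (snd W X) (fst W X ≫ y1)) = Term f xo ya y1 S σ := by
  obtain ⟨i0, hi0⟩ := σ.surjective none
  rw [Term, ← Finset.mul_prod_erase Finset.univ _ (Finset.mem_univ i0),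
    ← Finset.mul_prod_erase Finset.univ _ (Finset.mem_univ i0), hi0, if_pos rfl]
  have h1 : ∏ i ∈ Finset.univ.erase i0, ev (toA (aS f S i)) (fst W X ≫ xo i)
      (Option.elim (σ i) (snd W X) (fun j => fst W X ≫ ya j)) =
      C.pull (fst W X) (∏ i ∈ Finset.univ.erase i0,
        ev (toA (if σ i = none then f ^ S.card * aS f S i else aS f S i)) (xo i)
          (Option.elim (σ i) y1 ya)) := by
    rw [map_prod]
    apply Finset.prod_congr rfl
    intro i hi
    have hne : σ i ≠ none := by
      intro h
      exact (Finset.mem_erase.1 hi).1 (σ.injective (h.trans hi0.symm))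
    rw [if_neg hne, pull_ev]
    obtain ⟨j, hj⟩ := Option.ne_none_iff_exists'.1 hne
    rw [hj]
    rfl
  rw [h1, mul_right_comm, C.proj_right, Option.elim_none, Option.elim_none, ← ev_comp, ← toA_mul]

/-- The contribution of a permutation not fixing `none` vanishes. -/
lemma sum_term_zero (f : R0 C X) (xo : Option κ → (W ⟶ X)) (ya : κ → (W ⟶ X)) (y1 : W ⟶ X)
    {σ : Equiv.Perm (Option κ)} (hσ : σ none ≠ none) :
    ∑ S : Finset κ, (-1 : ℚ) ^ S.card • Term f xo ya y1 S σ = 0 := by
  obtain ⟨i0, hi0⟩ := σ.surjective none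
  have hi0' : i0 ≠ none := by
    rintro rfl
    exact hσ hi0
  obtain ⟨b, rfl⟩ := Option.ne_none_iff_exists'.1 hi0'
  have key : ∀ S : Finset κ, b ∉ S → Term f xo ya y1 (insert b S) σ = Term f xo ya y1 S σ := by
    intro S hb
    unfold Term
    apply Finset.prod_congr rfl
    intro i _
    congr 2
    by_cases hi : σ i = none
    · have hib : i = some b := σ.injective (hi.trans hi0.symm)
      subst hib
      rw [if_pos hi0, if_pos hi0, Finset.card_insert_of_notMem hb]
      change f ^ (S.card + 1) * (if b ∈ insert b S then 1 else f) =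
        f ^ S.card * (if b ∈ S then 1 else f)
      rw [if_pos (Finset.mem_insert_self _ _), if_neg hb, mul_one, pow_succ]
    · rw [if_neg hi, if_neg hi]
      cases i with
      | none => rfl
      | some j =>
        have hjb : j ≠ b := by
          rintro rfl
          exact hi hi0
        change (if j ∈ insert b S then 1 else f) = (if j ∈ S then 1 else f)
        by_cases hj : j ∈ S
        · rw [if_pos hj, if_pos (Finset.mem_insert_of_mem hj)]
        · rw [if_neg hj, if_neg (by simp [hjb, hj])]
  refine Finset.sum_involution (fun S _ => if b ∈ S then S.erase b else insert b S) ?_ ?_ ?_ ?_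
  · intro S _
    by_cases hb : b ∈ S
    · rw [if_pos hb]
      have h1 := key (S.erase b) (Finset.notMem_erase b S)
      rw [Finset.insert_erase hb] at h1
      rw [h1, ← add_smul]
      have h2 : S.card = (S.erase b).card + 1 := (Finset.card_erase_add_one hb).symm
      rw [h2, pow_succ]
      have h3 : (-1 : ℚ) ^ (S.erase b).card * -1 + (-1) ^ (S.erase b).card = 0 := by ring
      rw [h3, zero_smul]
    · rw [if_neg hb, key S hb, ← add_smul, Finset.card_insert_of_notMem hb, pow_succ]
      have h3 : (-1 : ℚ) ^ S.card + (-1) ^ S.card * -1 = 0 := by ring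
      rw [h3, zero_smul]
  · intro S _ _
    by_cases hb : b ∈ S
    · rw [if_pos hb]
      intro h
      have := Finset.notMem_erase b S
      rw [h] at this
      exact this hb
    · rw [if_neg hb]
      intro h
      apply hb
      rw [← h]
      exact Finset.mem_insert_self _ _
  · intro S _
    exact Finset.mem_univ _
  · intro S _
    by_cases hb : b ∈ S
    · simp only [hb, if_true, Finset.mem_erase, ne_eq, not_true, false_and, if_false]
      exact Finset.insert_erase hb
    · simp only [hb, if_false, Finset.mem_insert_self, if_true]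
      exact Finset.erase_insert hb

/-- The contribution of a permutation fixing `none`. -/
lemma term_option (f : R0 C X) (xo : Option κ → (W ⟶ X)) (ya : κ → (W ⟶ X)) (y1 : W ⟶ X)
    (S : Finset κ) (τ : Equiv.Perm κ) :
    Term f xo ya y1 S (Equiv.optionCongr τ) = (∏ i, ev (toA (aS f S (some i))) (xo (some i))
      (ya (τ i))) * ev (toA (f ^ S.card)) (xo none) y1 := by
  have hoc : ∀ i : κ, (Equiv.optionCongr τ : Equiv.Perm (Option κ)) (some i) =
      some (τ i) := fun i => rfl
  have hoc0 : (Equiv.optionCongr τ : Equiv.Perm (Option κ)) none = none := rfl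
  have h0 : aS f S (none : Option κ) = 1 := rfl
  rw [Term, Fintype.prod_option, hoc0, if_pos rfl, h0, mul_one, Option.elim_none, mul_comm]
  congr 1

/-- The sum over all `S` and all permutations. -/
lemma total (f : R0 C X) (c : Equiv.Perm (Option κ) → ℚ) (xo : Option κ → (W ⟶ X))
    (ya : κ → (W ⟶ X)) (y1 : W ⟶ X) :
    ∑ S : Finset κ, (-1 : ℚ) ^ S.card • C.push (fst W X)
      (fc c (fun i => toA (aS f S i)) (fun i => fst W X ≫ xo i)
        (fun o => Option.elim o (snd W X) (fun j => fst W X ≫ ya j)) *
          ev (toA (f ^ S.card)) (snd W X) (fst W X ≫ y1)) =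
    ∑ S : Finset κ, (-1 : ℚ) ^ S.card •
      (fc (fun τ : Equiv.Perm κ => c (Equiv.optionCongr τ)) (fun i => toA (aS f S (some i)))
        (fun i => xo (some i)) ya * ev (toA (f ^ S.card)) (xo none) y1) := by
  have h1 : ∀ S : Finset κ, C.push (fst W X)
      (fc c (fun i => toA (aS f S i)) (fun i => fst W X ≫ xo i)
        (fun o => Option.elim o (snd W X) (fun j => fst W X ≫ ya j)) *
          ev (toA (f ^ S.card)) (snd W X) (fst W X ≫ y1)) =
      ∑ σ, c σ • Term f xo ya y1 S σ := by
    intro S
    rw [fc, Finset.sum_mul, map_sum]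
    apply Finset.sum_congr rfl
    intro σ _
    rw [smul_mul_assoc, map_smul, push_term]
  have hdec : ∀ (p : Option κ) (τ : Equiv.Perm κ), Equiv.Perm.decomposeOption.symm (p, τ) =
      Equiv.swap none p * Equiv.optionCongr τ := fun p τ => rfl
  have h2 : ∑ S : Finset κ, (-1 : ℚ) ^ S.card • ∑ σ, c σ • Term f xo ya y1 S σ =
      ∑ σ, c σ • ∑ S : Finset κ, (-1 : ℚ) ^ S.card • Term f xo ya y1 S σ := by
    simp only [Finset.smul_sum]
    rw [Finset.sum_comm]
    apply Finset.sum_congr rfl
    intro σ _
    apply Finset.sum_congr rfl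
    intro S _
    rw [smul_comm]
  rw [Finset.sum_congr rfl (fun S _ => by rw [h1 S]), h2,
    ← Equiv.sum_comp Equiv.Perm.decomposeOption.symm, Fintype.sum_prod_type_right]
  have h3 : ∀ τ : Equiv.Perm κ, ∑ p : Option κ, c (Equiv.Perm.decomposeOption.symm (p, τ)) •
      ∑ S : Finset κ, (-1 : ℚ) ^ S.card •
        Term f xo ya y1 S (Equiv.Perm.decomposeOption.symm (p, τ)) =
      c (Equiv.optionCongr τ) • ∑ S : Finset κ, (-1 : ℚ) ^ S.card •
        Term f xo ya y1 S (Equiv.optionCongr τ) := by
    intro τ
    rw [Fintype.sum_option]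
    have e1 : (Equiv.swap none none * Equiv.optionCongr τ : Equiv.Perm (Option κ)) =
        Equiv.optionCongr τ := by rw [Equiv.swap_self]; exact one_mul _
    have e2 : ∀ j ∈ (Finset.univ : Finset κ),
        c (Equiv.Perm.decomposeOption.symm (some j, τ)) • ∑ S : Finset κ, (-1 : ℚ) ^ S.card •
          Term f xo ya y1 S (Equiv.Perm.decomposeOption.symm (some j, τ)) = 0 := by
      intro j _
      rw [sum_term_zero, smul_zero]
      rw [hdec, Equiv.Perm.mul_apply]
      have e3 : (Equiv.optionCongr τ : Equiv.Perm (Option κ)) none = none := rfl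
      rw [e3, Equiv.swap_apply_left]
      exact Option.some_ne_none _
    rw [Finset.sum_eq_zero e2, add_zero, hdec, e1]
  rw [Finset.sum_congr rfl (fun τ _ => h3 τ)]
  simp only [Finset.smul_sum]
  rw [Finset.sum_comm]
  apply Finset.sum_congr rfl
  intro S _
  rw [fc, Finset.sum_mul, Finset.smul_sum]
  apply Finset.sum_congr rfl
  intro τ _
  rw [term_option, smul_comm, smul_mul_assoc]

/-- The values of a combination with a numerically trivial row. -/
lemma fc_num {I : Family C} (hI : IsAdequate C I) (c : Equiv.Perm κ → ℚ) {b : κ → R0 C X} {i0 : κ}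
    (h : toA (b i0) ∈ I (X.prod X) X.dim) (x y : κ → (W ⟶ X)) :
    fc c (fun i => toA (b i)) x y ∈ I W (Fintype.card κ * X.dim) := by
  rw [fc]
  apply Submodule.sum_mem
  intro σ _
  apply Submodule.smul_mem
  rw [← Finset.mul_prod_erase Finset.univ _ (Finset.mem_univ i0)]
  have h1 := hI.mul_mem (hI.pull_mem (Obj.lift (x i0) (y (σ i0))) h)
    (prod_mem (s := Finset.univ.erase i0) (f := fun i => ev (toA (b i)) (x i) (y (σ i)))
      (fun i _ => ev_mem (toA_mem _) _ _))
  refine hI.congr ?_ h1
  have h2 : (Finset.univ.erase i0).card + 1 = Fintype.card κ := by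
    rw [Finset.card_erase_add_one (Finset.mem_univ _), Finset.card_univ]
  rw [← h2]
  push_cast
  ring

/-- If a combination of permutations is equivalent to zero but its part fixing a letter is not
numerically trivial then numerically trivial self-correspondences are nilpotent. -/
theorem pow_mem (hne : ∀ X : 𝒱.Obj, (1 : C.A X) ≠ 0) {I : Family C} (hI : IsAdequate C I)
    {c : Equiv.Perm (Option κ) → ℚ} (hc : c ∈ KI I X (Option κ))
    (hc0 : (fun τ : Equiv.Perm κ => c (Equiv.optionCongr τ)) ∉ KI (numFam C) X κ)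
    {f : R0 C X} (hf : toA f ∈ numFam C (X.prod X) X.dim) :
    toA (f ^ Fintype.card κ) ∈ I (X.prod X) X.dim := by
  set c0 : Equiv.Perm κ → ℚ := fun τ => c (Equiv.optionCongr τ) with hc0def
  have h1 : ∃ (W : 𝒱.Obj) (x y : κ → (W ⟶ X)), fc c0 (fun _ => dg C X) x y ∉
      numFam C W (Fintype.card κ * X.dim) := by
    by_contra hcon
    push Not at hcon
    exact hc0 hcon
  obtain ⟨W0, x0, y0, hW0⟩ := h1
  have hdeg0 : fc c0 (fun _ => dg C X) x0 y0 ∈ C.gr W0 (Fintype.card κ * X.dim) :=
    fc_mem _ (fun _ => dg_mem C X) _ _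
  obtain ⟨b0, hb0, q, hq0, hq⟩ := exists_of_notMem_numFam hdeg0 hW0
  -- the points
  set W : 𝒱.Obj := (X.prod X).prod W0 with hW
  let pA : W ⟶ X.prod X := fst (X.prod X) W0
  let pB : W ⟶ W0 := snd (X.prod X) W0
  let xo : Option κ → (W ⟶ X) := fun o => Option.elim o (pA ≫ fst X X) (fun i => pB ≫ x0 i)
  let ya : κ → (W ⟶ X) := fun i => pB ≫ y0 i
  let y1 : W ⟶ X := pA ≫ snd X X
  -- the element of `I`
  have hmem : ∑ S : Finset κ, (-1 : ℚ) ^ S.card • C.push (fst W X)
      (fc c (fun i => toA (aS f S i)) (fun i => fst W X ≫ xo i)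
        (fun o => Option.elim o (snd W X) (fun j => fst W X ≫ ya j)) *
          ev (toA (f ^ S.card)) (snd W X) (fst W X ≫ y1)) ∈
      I W ((Fintype.card κ + 1) * X.dim) := by
    apply Submodule.sum_mem
    intro S _
    apply Submodule.smul_mem
    have h2 := hI.push_mem (fst W X) (hI.mul_mem (KI_rows hI hc (a := fun i => toA (aS f S i))
      (fun i => toA_mem _) (W.prod X) (fun i => fst W X ≫ xo i)
        (fun o => Option.elim o (snd W X) (fun j => fst W X ≫ ya j)))
      (ev_mem (toA_mem (f ^ S.card)) (snd W X) (fst W X ≫ y1)))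
    refine hI.congr ?_ h2
    have e0 : ((W.prod X).dim : ℤ) = W.dim + X.dim := by exact_mod_cast dim_prod W X
    rw [e0, Fintype.card_option]
    push_cast
    ring
  rw [total] at hmem
  -- multiplication by `b0` and push-forward
  have hmem2 := hI.push_mem pA (hI.mul_mem hmem (C.pull_mem pB hb0))
  have hval : C.push pA ((∑ S : Finset κ, (-1 : ℚ) ^ S.card •
      (fc c0 (fun i => toA (aS f S (some i)))
        (fun i => xo (some i)) ya * ev (toA (f ^ S.card)) (xo none) y1)) * C.pull pB b0) =
      ((-1 : ℚ) ^ (Fintype.card κ) * q) • toA (f ^ Fintype.card κ) := by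
    rw [Finset.sum_mul, map_sum]
    have h3 : ∀ S : Finset κ, C.push pA (((-1 : ℚ) ^ S.card •
        (fc c0 (fun i => toA (aS f S (some i))) (fun i => xo (some i)) ya *
          ev (toA (f ^ S.card)) (xo none) y1)) * C.pull pB b0) =
        (-1 : ℚ) ^ S.card • (C.push pA (C.pull pB
          (fc c0 (fun i => toA (aS f S (some i))) x0 y0 * b0)) * toA (f ^ S.card)) := by
      intro S
      have e1 : fc c0 (fun i => toA (aS f S (some i))) (fun i => xo (some i)) ya =
          C.pull pB (fc c0 (fun i => toA (aS f S (some i))) x0 y0) := by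
        rw [pull_fc]
        rfl
      have e2 : ev (toA (f ^ S.card)) (xo none) y1 = C.pull pA (toA (f ^ S.card)) := by
        conv_rhs => rw [← ev_univ (toA (f ^ S.card))]
        rw [pull_ev]
        rfl
      rw [e1, e2, smul_mul_assoc, map_smul, mul_right_comm, ← map_mul, C.proj_right]
    rw [Finset.sum_congr rfl (fun S _ => h3 S), Finset.sum_eq_single Finset.univ]
    · have e3 : (fun i => toA (aS f Finset.univ (some i) : R0 C X)) =
          (fun _ : κ => dg C X) := by
        funext i
        have : aS f Finset.univ (some i) = 1 := if_pos (Finset.mem_univ i)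
        rw [this, toA_one]
      rw [e3, (hq (X.prod X)).2, Finset.card_univ, smul_mul_assoc, one_mul, smul_smul]
    · intro S _ hS
      obtain ⟨i0, hi0⟩ : ∃ i, i ∉ S := by
        by_contra hcon
        push Not at hcon
        exact hS (Finset.eq_univ_iff_forall.2 hcon)
      have h4 : fc c0 (fun i => toA (aS f S (some i))) x0 y0 ∈
          numFam C W0 (Fintype.card κ * X.dim) := by
        apply fc_num (isAdequate_numFam hne) c0 (i0 := i0)
        have : aS f S (some i0) = f := if_neg hi0
        rw [this]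
        exact hf
      have h5 := (mem_numFam.1 h4).2 b0 hb0
      rw [(h5 (X.prod X)).2, zero_smul, zero_mul, smul_zero]
    · intro h; exact absurd (Finset.mem_univ _) h
  have hmem3 : ((-1 : ℚ) ^ (Fintype.card κ) * q) • toA (f ^ Fintype.card κ) ∈
      I (X.prod X) X.dim := by
    rw [← hval]
    refine hI.congr ?_ hmem2
    have e0 : (W.dim : ℤ) = X.dim + X.dim + W0.dim := by
      rw [hW, dim_prod, dim_prod]
      push_cast
      ring
    have e1 : ((X.prod X).dim : ℤ) = X.dim + X.dim := by exact_mod_cast dim_prod X X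
    rw [e0, e1]
    ring
  have hu : (-1 : ℚ) ^ (Fintype.card κ) * q ≠ 0 := mul_ne_zero (by simp) hq0
  have h6 := Submodule.smul_mem _ ((-1 : ℚ) ^ (Fintype.card κ) * q)⁻¹ hmem3
  rwa [smul_smul, inv_mul_cancel₀ hu, one_smul] at h6

end chow

end Pool.Agent.Q55.Nil
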