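import Pool.Agent.Q55.Nil.Ext

/-!
# Rectangles
-/

set_option linter.unusedSectionVars false

namespace Pool.Agent.Q55.Nil

open Finset Equiv

section rep

variable {L M : Type*} [Fintype L] [DecidableEq L] [AddCommGroup M] [Module ℚ M]
  (ρ : Perm L →* Module.End ℚ M)

lemma above_eq (r : L → ℕ) (i : ℕ) : above r i = num r (i + 1) + above r (i + 1) := by
  unfold above num
  rw [← card_union_of_disjoint]
  · congr 1
    ext x
    simp only [mem_filter, mem_univ, true_and, mem_union]
    omega
  · rw [disjoint_left]
    intro x hx hx'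
    simp only [mem_filter, mem_univ, true_and] at hx hx'
    omega

lemma card_eq_num_add (r : L → ℕ) : Fintype.card L = num r 0 + above r 0 := by
  unfold above num
  rw [← card_union_of_disjoint, ← card_univ]
  · congr 1
    ext x
    simp only [mem_filter, mem_univ, true_and, mem_union, true_iff]
    omega
  · rw [disjoint_left]
    intro x hx hx'
    simp only [mem_filter, mem_univ, true_and] at hx hx'
    omega

variable {ρ} in
/-- The colours of an extremal vector form a rectangle. -/
lemma Extremal.rect {ε κ : ℚ} (hε : ε * ε = 1) [Nonempty L] {r : L → ℕ} {w : M}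
    (h : Extremal ρ (fun _ => ε) r w) (hκ : ∀ y, jm ρ y w = κ • w) :
    ∃ a b : ℕ, 0 < a ∧ 0 < b ∧ (b : ℚ) = a + ε * κ ∧ Fintype.card L = a * b ∧
      (∀ x, r x < a) ∧ ∀ i < a, num r i = b := by
  obtain ⟨x0, hx0⟩ := Finite.exists_max r
  set m := r x0 with hm
  have hab : above r m = 0 := by
    unfold above
    rw [card_eq_zero, filter_eq_empty_iff]
    intro x _
    have := hx0 x
    omega
  have hb : 0 < num r m := card_pos.2 ⟨x0, by simp [hm]⟩
  set b := num r m with hbdef
  have hb' : (b : ℚ) ≠ 0 := by positivity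
  have heq := h.eq hκ
  simp only [sum_const, card_range, nsmul_eq_mul] at heq
  have e0 : ε * κ = b - 1 - m := by
    have h1 := heq m
    rw [hab, ← hbdef] at h1
    push_cast at h1
    have h2 : ε * (κ * b) = ε * ε * (b * (b - 1)) - ε * ε * (b * m) := by
      rw [h1]; ring
    rw [hε] at h2
    have h3 : (ε * κ) * b = (b - 1 - m) * b := by linarith
    exact mul_right_cancel₀ hb' h3
  have key : ∀ t i : ℕ, i + t = m → num r i = b ∧ above r i = t * b := by
    intro t
    induction t with
    | zero =>
      intro i hi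
      rw [Nat.add_zero] at hi
      subst hi
      exact ⟨rfl, by rw [hab, zero_mul]⟩
    | succ t ih =>
      intro i hi
      obtain ⟨h1, h2⟩ := ih (i + 1) (by omega)
      have h3 : above r i = (t + 1) * b := by
        rw [above_eq, h1, h2]
        ring
      refine ⟨?_, h3⟩
      have h4 := heq i
      rw [h3] at h4
      have h5 : (m : ℚ) = i + (t + 1) := by
        rw [← hi]
        push_cast
        ring
      have h6 : ε * (κ * num r i) = ε * ε * ((num r i : ℚ) * (num r i - 1)) -
          ε * ε * (num r i * i) - ε * ε * ((t + 1) * b) := by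
        rw [h4]
        push_cast
        ring
      rw [hε, ← mul_assoc, e0, h5] at h6
      have h7 : ((num r i : ℚ) - b) * (num r i + (t + 1)) = 0 := by linarith
      rcases mul_eq_zero.1 h7 with h8 | h8
      · have h9 : (num r i : ℚ) = b := by linarith
        exact_mod_cast h9
      · exfalso
        have : (0 : ℚ) < (num r i : ℚ) + (t + 1) := by positivity
        linarith
  refine ⟨m + 1, b, Nat.succ_pos m, hb, ?_, ?_, ?_, ?_⟩
  · rw [e0]
    push_cast
    ring
  · obtain ⟨h1, h2⟩ := key m 0 (by omega)
    rw [card_eq_num_add r, h1, h2]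
    ring
  · intro x
    have := hx0 x
    omega
  · intro i hi
    exact (key (m - i) i (by omega)).1

lemma RV.perm {s : ℕ → ℚ} {r : L → ℕ} {w : M} (h : RV ρ s r w) (g : Perm L) :
    RV ρ s (fun x => r (g x)) (ρ g⁻¹ w) := by
  intro x y hne hr
  have h1 := h (g x) (g y) (fun h0 => hne (g.injective h0)) hr
  have h2 : swap x y * g⁻¹ = g⁻¹ * swap (g x) (g y) := by
    rw [swap_apply_apply g x y]
    simp [mul_assoc]
  rw [rho_mul, h2, ← rho_mul, h1, map_smul]

/-- The invariance under all permutations preserving the colours. -/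
lemma RV.gen {ε : ℚ} {θ : Perm L → ℚ} (h1 : θ 1 = 1)
    (hθ : ∀ x y : L, x ≠ y → ∀ g : Perm L, θ (swap x y * g) = ε * θ g) {r : L → ℕ} {w : M}
    (h : RV ρ (fun _ => ε) r w) (hε : ε * ε = 1) (g : Perm L) (hg : ∀ x, r (g x) = r x) :
    ρ g w = θ g • w := by
  classical
  have key : ∀ n : ℕ, ∀ g : Perm L, (∀ x, r (g x) = r x) → g.support.card ≤ n →
      ρ g w = θ g • w := by
    intro n
    induction n with
    | zero =>
      intro g _ hn
      have : g.support.card = 0 := by omega
      rw [Finset.card_eq_zero, Equiv.Perm.support_eq_empty_iff] at this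
      rw [this, map_one, h1, one_smul, Module.End.one_apply]
    | succ n ih =>
      intro g hg hn
      by_cases hg1 : g = 1
      · rw [hg1, map_one, h1, one_smul, Module.End.one_apply]
      · obtain ⟨x, hx⟩ : ∃ x, g x ≠ x := by
          by_contra hcon
          push Not at hcon
          exact hg1 (Equiv.ext hcon)
        have hlt := Equiv.Perm.card_support_swap_mul hx
        have hg' : ∀ y, r ((swap x (g x) * g) y) = r y := by
          intro y
          rw [Equiv.Perm.mul_apply]
          by_cases hy : g y = x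
          · rw [hy, swap_apply_left, hg, ← hy, hg]
          · by_cases hy' : g y = g x
            · rw [hy', swap_apply_right]
              rw [g.injective hy']
            · rw [swap_apply_of_ne_of_ne hy hy', hg]
        have h3 := ih (swap x (g x) * g) hg' (by omega)
        have h4 : g = swap x (g x) * (swap x (g x) * g) := by
          rw [← mul_assoc, swap_mul_self, one_mul]
        have h5 := h x (g x) (Ne.symm hx) (hg x).symm
        have h6 : ρ g w = θ (swap x (g x) * g) • ε • w := by
          conv_lhs => rw [h4]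
          rw [← rho_mul, h3, map_smul, h5]
        rw [h6, hθ x (g x) (Ne.symm hx), smul_smul]
        congr 1
        linear_combination θ g * hε
  exact key _ g hg le_rfl

/-- Two colourings with the same numbers of letters of each colour. -/
lemma exists_perm_of_num {r r' : L → ℕ} (h : ∀ i, num r i = num r' i) :
    ∃ g : Perm L, ∀ x, r (g x) = r' x := by
  have h1 : ∀ i, Nonempty ({x // r' x = i} ≃ {x // r x = i}) := by
    intro i
    refine ⟨Fintype.equivOfCardEq ?_⟩
    rw [Fintype.card_subtype, Fintype.card_subtype]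
    exact (h i).symm
  have f := fun i => Classical.choice (h1 i)
  refine ⟨(Equiv.sigmaFiberEquiv r').symm.trans ((Equiv.sigmaCongrRight f).trans
    (Equiv.sigmaFiberEquiv r)), fun x => ?_⟩
  exact (f (r' x) ⟨x, rfl⟩).2

/-- In an invariant subspace on which all Jucys-Murphy elements act as `κ`: vectors with the
behaviour of the rows of a rectangle. -/
lemma exists_rows {ε κ : ℚ} (hε : ε * ε = 1) {θ : Perm L → ℚ} (h1 : θ 1 = 1)
    (hθ : ∀ x y : L, x ≠ y → ∀ g : Perm L, θ (swap x y * g) = ε * θ g) [Nonempty L]
    {W : Submodule ℚ M} (hW : ∀ g, ∀ w ∈ W, ρ g w ∈ W) (hκ : ∀ w ∈ W, ∀ y, jm ρ y w = κ • w)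
    (hne : W ≠ ⊥) : ∃ a b : ℕ, 0 < a ∧ 0 < b ∧ (b : ℚ) = a + ε * κ ∧ Fintype.card L = a * b ∧
      ∀ e : L ≃ Fin a × Fin b, ∃ w ∈ W, w ≠ 0 ∧ ∀ g : Perm L, (∀ x, (e (g x)).1 = (e x).1) →
        ρ g w = θ g • w := by
  obtain ⟨w0, hw0, hne0⟩ := Submodule.exists_mem_ne_zero_of_ne_bot hne
  obtain ⟨eL⟩ : Nonempty (L ≃ Fin (Fintype.card L)) := ⟨Fintype.equivFin L⟩
  have hr0 : RV ρ (fun _ => ε) (fun x => (eL x : ℕ)) w0 := by
    intro x y hxy hr
    exact absurd (eL.injective (Fin.ext hr)) hxy
  obtain ⟨r, w, -, hw, hext⟩ := exists_extremal ρ (s := fun _ => ε) (fun _ => hε)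
    (fun _ => True) (fun _ _ _ _ _ => trivial) W hW (r := fun x => (eL x : ℕ)) trivial hw0 hne0 hr0
  obtain ⟨a, b, ha, hb, hab, hcard, hlt, hnum⟩ := hext.rect hε (hκ w hw)
  refine ⟨a, b, ha, hb, hab, hcard, fun e => ?_⟩
  have h2 : ∀ i, num r i = num (fun x => ((e x).1 : ℕ)) i := by
    intro i
    by_cases hi : i < a
    · rw [hnum i hi]
      have h3 : univ.filter (fun x => ((e x).1 : ℕ) = i) =
          univ.image (fun j : Fin b => e.symm (⟨i, hi⟩, j)) := by
        ext x
        simp only [mem_filter, mem_univ, true_and, mem_image]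
        constructor
        · intro hx
          refine ⟨(e x).2, ?_⟩
          rw [Equiv.symm_apply_eq]
          exact Prod.ext (Fin.ext hx.symm) rfl
        · rintro ⟨j, rfl⟩
          rw [Equiv.apply_symm_apply]
      rw [num, h3, card_image_of_injective, card_univ, Fintype.card_fin]
      intro j j' hj
      have := e.symm.injective hj
      exact (Prod.mk.inj this).2
    · unfold num
      rw [filter_false_of_mem, filter_false_of_mem]
      · intro x _ hx
        have := (e x).1.2
        beta_reduce at hx
        omega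
      · intro x _ hx
        have := hlt x
        omega
  obtain ⟨g, hg⟩ := exists_perm_of_num h2
  refine ⟨ρ g⁻¹ w, hW _ _ hw, ?_, ?_⟩
  · intro h0
    apply hext.ne
    have h4 : ρ g (ρ g⁻¹ w) = w := by
      rw [rho_mul, mul_inv_cancel, map_one, Module.End.one_apply]
    rw [← h4, h0, map_zero]
  · intro g' hg'
    refine RV.gen ρ h1 hθ (hext.rv.perm ρ g) hε g' ?_
    intro x
    change r (g (g' x)) = r (g x)
    rw [hg, hg]
    exact congrArg _ (hg' x)

end rep

end Pool.Agent.Q55.Nil
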