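import Pool.Agent.TH829.Prime.Defs
import Pool.Agent.Y110.Gc

/-!
# Permutations of the factors of powers, phantoms, nilpotence: definitions

Everything is expressed by pull-backs `C.up`, push-forwards `C.down` and products `C.mul`. A
*relation* is a predicate `T W i z` on the classes `z` of codimension `i` on the varieties `W`,
read: `z` is equivalent to zero.
-/

open CategoryTheory AlgebraicGeometry

universe u v w

namespace Pool.Agent.Q55.Nil.S

open Pool.Agent.H914 Pool.Agent.H914.VarClass Pool.Agent.H914.VarClass.Obj Pool.Agent.W492.BB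
  Pool.Agent.TH829.Prime

variable {k : Type u} [Field k] {𝒱 : VarClass k}

section chow

variable (C : TheoryData.{u, v, 0} 𝒱 ℚ)

/-- The class of the diagonal of `X`. -/
noncomputable def diag (X : 𝒱.Obj) : C.A (X.prod X) := C.down (Obj.lift (𝟙 X) (𝟙 X)) 1

/-- The composition `b ∘ a` of the correspondences `a` from `X` to `Y` and `b` from `Y` to `Z`: the
push-forward to `X × Z` of the product of the pull-backs of `b` and `a` to `X × Y × Z`. -/
noncomputable def cmp {X Y Z : 𝒱.Obj} (a : C.A (X.prod Y)) (b : C.A (Y.prod Z)) :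
    C.A (X.prod Z) :=
  C.down (prodMap (fst X Y) (𝟙 Z))
    (C.mul (C.up (prodMap (snd X Y) (𝟙 Z)) b) (C.up (fst (X.prod Y) Z) a))

/-- The degree of the class `z` of codimension `dim X` on `X` is the integer `d`: the push-forward
of `X × z` to `X` is `d` times the fundamental class of `X`. -/
def DegreeIs {X : 𝒱.Obj} (z : C.A X) (d : ℤ) : Prop := C.down (fst X X) (C.up (snd X X) z) = d

/-- The class `a` of codimension `i` on `X` is numerically trivial: the degree of `a b` is zero for
all classes `b` of codimension `dim X - i`. -/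
def NumTriv {X : 𝒱.Obj} (i : ℤ) (a : C.A X) : Prop :=
  ∀ b : C.A X, C.Deg (X.dim - i) b → DegreeIs C (C.mul a b) 0

/-- A relation: a predicate on the classes of codimension `i` on the varieties `W`. -/
abbrev Rel : Type _ := ∀ W : 𝒱.Obj, ℤ → C.A W → Prop

/-- Numerical equivalence. -/
def num : Rel C := fun _ i z => NumTriv C i z

/-- Rational equivalence. -/
def rat : Rel C := fun _ _ z => z = 0

/-- The relation given by a family of subspaces. -/
def rel (I : Family C) : Rel C := fun W i z => z ∈ I W i

/-- The class `∑_σ c(σ) Δ(x_1, y_{σ 1}) ⋯ Δ(x_n, y_{σ n})` on `W`, where `Δ` is the class of the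
diagonal of `X` and `x_i`, `y_i` are points of `X` with values in `W`. For `W = X^n × X^n` and the
`2n` projections this is the linear combination `∑_σ c(σ) Γ_σ` of the graphs of the permutations of
the factors of `X^n`. -/
noncomputable def permClass {X W : 𝒱.Obj} {n : ℕ} (c : Equiv.Perm (Fin n) → ℚ)
    (x y : Fin n → (W ⟶ X)) : C.A W :=
  ∑ σ, c σ • (List.ofFn fun i => C.up (Obj.lift (x i) (y (σ i))) (diag C X)).prod

/-- The linear combination `∑_σ c(σ) Γ_σ` of the graphs of the permutations of the factors of `X^n`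
is equivalent to zero with respect to `T`. -/
def Relation (T : Rel C) (X : 𝒱.Obj) {n : ℕ} (c : Equiv.Perm (Fin n) → ℚ) : Prop :=
  ∀ (W : 𝒱.Obj) (x y : Fin n → (W ⟶ X)), T W (n * X.dim) (permClass C c x y)

/-- The permutations of the factors of `X^n` are linearly dependent modulo `T`. -/
def Dep (T : Rel C) (X : 𝒱.Obj) (n : ℕ) : Prop :=
  ∃ c : Equiv.Perm (Fin n) → ℚ, c ≠ 0 ∧ Relation C T X c

/-- `X` has type `(p | q)` modulo `T`: the permutations of the factors of `X^n` are linearly
dependent modulo `T` for `n = (p + 1) (q + 1)`, and independent for all smaller `n`. -/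
def HasType (T : Rel C) (X : 𝒱.Obj) (p q : ℕ) : Prop :=
  Dep C T X ((p + 1) * (q + 1)) ∧ ∀ n < (p + 1) * (q + 1), ¬ Dep C T X n

/-- Numerically trivial idempotent self-correspondences of degree zero of `Y` (phantoms) are
equivalent to zero with respect to `T`. -/
def NoPhantoms (T : Rel C) (Y : 𝒱.Obj) : Prop :=
  ∀ f : C.A (Y.prod Y), C.Deg Y.dim f → cmp C f f = f → NumTriv C Y.dim f →
    T (Y.prod Y) Y.dim f

/-- The composition of a list of self-correspondences of `Y`. -/
noncomputable def cmpl (Y : 𝒱.Obj) (l : List (C.A (Y.prod Y))) : C.A (Y.prod Y) :=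
  l.foldr (cmp C) (diag C Y)

/-- The numerically trivial self-correspondences of degree zero of `Y` form, modulo `T`, a nil ideal
of exponent `r` and a nilpotent ideal of exponent `2 ^ r - 1`: the `r`-fold composition
`f ∘ ⋯ ∘ f` of each one, and the compositions of any `2 ^ r - 1` of them, are equivalent to zero. -/
def NilpotentWith (T : Rel C) (Y : 𝒱.Obj) (r : ℕ) : Prop :=
  (∀ f : C.A (Y.prod Y), C.Deg Y.dim f → NumTriv C Y.dim f →
    T (Y.prod Y) Y.dim (cmpl C Y (List.replicate r f))) ∧
  ∀ l : List (C.A (Y.prod Y)), l.length = 2 ^ r - 1 →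
    (∀ f ∈ l, C.Deg Y.dim f ∧ NumTriv C Y.dim f) → T (Y.prod Y) Y.dim (cmpl C Y l)

/-- The motive of `Y` is a direct summand of a Tate twist of the motive of `P`: there are
correspondences `a` from `Y` to `P` of degree `e` and `b` from `P` to `Y` of degree `-e` with
`b ∘ a` the identity. -/
def IsSummand (Y P : 𝒱.Obj) : Prop :=
  ∃ (e : ℤ) (a : C.A (Y.prod P)) (b : C.A (P.prod Y)), C.Deg (Y.dim + e) a ∧
    C.Deg (P.dim - e) b ∧ cmp C a b = diag C Y

/-- The trace (the degree of the intersection with the diagonal) of every self-correspondence `e` of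
degree zero of `X` with `e ∘ e` numerically equivalent to `e` is an integer `z`, `-q ≤ z ≤ p`. -/
def TracesBetween (X : 𝒱.Obj) (q p : ℕ) : Prop :=
  ∀ e : C.A (X.prod X), C.Deg X.dim e → NumTriv C X.dim (cmp C e e - e) →
    ∃ z : ℤ, DegreeIs C (C.up (Obj.lift (𝟙 X) (𝟙 X)) e) z ∧ -(q : ℤ) ≤ z ∧ z ≤ p

end chow

section weil

variable {C : TheoryData.{u, v, 0} 𝒱 ℚ} {K : Type w} [Field K]
  (H : WeilTheoryData.{u, v, w} C K)

/-- The sum of the Betti numbers `b_i(X)` over the `i` with the property `P`. -/
noncomputable def bet (P : ℤ → Prop) (X : 𝒱.Obj) : ℕ :=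
  Module.finrank K (Submodule.span K {a : H.A X | ∃ i : ℤ, P i ∧ H.Deg i a})

/-- The number `(b^+(X) + 1) (b^-(X) + 1) - 1`, where `b^+(X)` and `b^-(X)` are the sums of the
Betti numbers of even and of odd degree. -/
noncomputable def bN (X : 𝒱.Obj) : ℕ := (bet H Even X + 1) * (bet H Odd X + 1) - 1

/-- The correspondence `e` acts on the cohomology of `X` as the projector to the sum of the groups
`H^i(X)` for the `i` with the property `P`. -/
def ActsAs {X : 𝒱.Obj} (e : C.A (X.prod X)) (P : ℤ → Prop) : Prop :=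
  (∀ (i : ℤ) (a : H.A X), P i → H.Deg i a → H.act (H.cl e) a = a) ∧
    ∀ (i : ℤ) (a : H.A X), ¬ P i → H.Deg i a → H.act (H.cl e) a = 0

/-- The sign conjecture for `X`: the projector to the even cohomology of `X` is algebraic. -/
def SignAt (X : 𝒱.Obj) : Prop := ∃ e : C.A (X.prod X), C.Deg X.dim e ∧ ActsAs H e Even

/-- Grothendieck's Künneth standard conjecture for `X`: the Künneth components of the diagonal are
algebraic. -/
def KunnethAt (X : 𝒱.Obj) : Prop :=
  ∀ m : ℕ, ∃ e : C.A (X.prod X), C.Deg X.dim e ∧ ActsAs H e (· = m)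

/-- `X` has a Chow-Künneth decomposition: mutually orthogonal idempotent self-correspondences
`π 0, …, π (2 dim X)` of degree zero with sum the diagonal, such that `π j` acts on the
cohomology as the projector to `H^j(X)`. -/
def HasCK (X : 𝒱.Obj) : Prop :=
  ∃ π : ℕ → C.A (X.prod X), (∀ j, C.Deg X.dim (π j)) ∧ (∀ j, cmp C (π j) (π j) = π j) ∧
    (∀ i j, i ≠ j → cmp C (π i) (π j) = 0) ∧
    ∑ j ∈ Finset.range (2 * X.dim + 1), π j = diag C X ∧ ∀ j : ℕ, ActsAs H (π j) (· = j)

/-- Numerically trivial self-correspondences of degree zero of `Y` are homologically trivial. -/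
def NumEqHomAt (Y : 𝒱.Obj) : Prop :=
  ∀ f : C.A (Y.prod Y), C.Deg Y.dim f → NumTriv C Y.dim f → H.cl f = 0

end weil

end Pool.Agent.Q55.Nil.S
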