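import Pool.Agent.Q55.Nil.Stmt

/-!
# Relations between the permutations of the powers of a motive, splittings: definitions
-/

open CategoryTheory AlgebraicGeometry

universe u v w

namespace Pool.Agent.Q55.Nil.S

open Pool.Agent.H914 Pool.Agent.H914.VarClass Pool.Agent.H914.VarClass.Obj Pool.Agent.W492.BB
  Pool.Agent.TH829.Prime

variable {k : Type u} [Field k] {𝒱 : VarClass k}

section chow

variable (C : TheoryData.{u, v, 0} 𝒱 ℚ)

/-- The class `z` on `Z × X` is a linear combination of external products `a × b` of classes `a` on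
`Z` and `b` on `X`. -/
def Splits {Z X : 𝒱.Obj} (z : C.A (Z.prod X)) : Prop :=
  z ∈ Submodule.span ℚ
    {w | ∃ (a : C.A Z) (b : C.A X), w = C.mul (C.up (fst Z X) a) (C.up (snd Z X) b)}

/-- The linear combination `∑_σ c(σ) Γ_σ ∘ (e × ⋯ × e)` of the permutations of the factors of the
`n`-th power of the motive `(X, e)` vanishes modulo rational equivalence. It is evaluated at points
`x_i`, `y_i` of `X` with values in `W`: for `W = X^n × X^n` and the `2n` projections the sum is this
correspondence. -/
def RelOf {X : 𝒱.Obj} (e : C.A (X.prod X)) {n : ℕ} (c : Equiv.Perm (Fin n) → ℚ) : Prop :=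
  ∀ (W : 𝒱.Obj) (x y : Fin n → (W ⟶ X)),
    ∑ σ, c σ • (List.ofFn fun i => C.up (Obj.lift (x i) (y (σ i))) e).prod = 0

/-- `(X, π)` is the phantom part of the motive of `X`: `π` is a numerically trivial idempotent
self-correspondence of degree zero, and the class of the diagonal minus `π` is a linear combination
of external products. -/
structure IsPhantomPart (X : 𝒱.Obj) (π : C.A (X.prod X)) : Prop where
  deg : C.Deg X.dim π
  idem : cmp C π π = π
  num : NumTriv C X.dim π
  splits : Splits C (diag C X - π)

end chow

/-- The permutation `σ` of `n` letters is a cycle of length `n`: it has no proper nonempty invariant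
subset. -/
def IsLong {n : ℕ} (σ : Equiv.Perm (Fin n)) : Prop :=
  ∀ s : Set (Fin n), s.Nonempty → (∀ x ∈ s, σ x ∈ s) → s = Set.univ

open Classical in
/-- The sum of the coefficients of the cycles of length `n`. -/
noncomputable def longSum {n : ℕ} (c : Equiv.Perm (Fin n) → ℚ) : ℚ :=
  ∑ σ, if IsLong σ then c σ else 0

/-- The cohomology of `X` is spanned by classes of algebraic cycles. -/
def AlgCoh {C : TheoryData.{u, v, 0} 𝒱 ℚ} {K : Type w} [Field K]
    (H : WeilTheoryData.{u, v, w} C K) (X : 𝒱.Obj) : Prop :=
  ∀ a : H.A X, a ∈ Submodule.span K {b | ∃ z : C.A X, H.cl z = b}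

end Pool.Agent.Q55.Nil.S
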