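import Pool.Agent.Q55.Nil.Grid

/-!
# Families of subspaces stable under lifts and partial traces
-/

set_option linter.unusedSectionVars false

namespace Pool.Agent.Q55.Nil

open Finset Equiv

section via

variable {κ ι : Type*} [Fintype κ] [DecidableEq κ] [Fintype ι] [DecidableEq ι]

/-- The extension of a permutation by the identity outside the image of the embedding. -/
abbrev via (f : κ ↪ ι) (τ : Perm κ) : Perm ι := τ.viaFintypeEmbedding f

lemma via_img (f : κ ↪ ι) (τ : Perm κ) (x : κ) : via f τ (f x) = f (τ x) :=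
  Perm.viaFintypeEmbedding_apply_image _ _ _

lemma via_out (f : κ ↪ ι) (τ : Perm κ) {y : ι} (hy : y ∉ Set.range f) : via f τ y = y :=
  Perm.viaFintypeEmbedding_apply_notMem_range _ _ hy

lemma via_or (f : κ ↪ ι) (y : ι) : (∃ x, y = f x) ∨ y ∉ Set.range f := by
  by_cases hy : y ∈ Set.range f
  · obtain ⟨x, rfl⟩ := hy
    exact Or.inl ⟨x, rfl⟩
  · exact Or.inr hy

lemma via_one (f : κ ↪ ι) : via f 1 = 1 := by
  ext y
  rcases via_or f y with ⟨x, rfl⟩ | hy
  · rw [via_img]; rfl
  · rw [via_out f _ hy]; rfl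

lemma via_mul (f : κ ↪ ι) (σ τ : Perm κ) : via f (σ * τ) = via f σ * via f τ := by
  ext y
  rcases via_or f y with ⟨x, rfl⟩ | hy
  · rw [Perm.mul_apply, via_img, via_img, via_img]
    rfl
  · rw [Perm.mul_apply, via_out f _ hy, via_out f _ hy, via_out f _ hy]

lemma via_inj (f : κ ↪ ι) : Function.Injective (via f) := by
  intro σ τ h
  ext x
  have := congrArg (fun g : Perm ι => g (f x)) h
  simp only [via_img] at this
  exact f.injective this

/-- The extension of functions by the identity. -/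
def liftE (f : κ ↪ ι) : (Perm κ → ℚ) →ₗ[ℚ] (Perm ι → ℚ) where
  toFun c σ := ∑ τ, if via f τ = σ then c τ else 0
  map_add' c c' := by
    funext σ
    simp only [Pi.add_apply]
    rw [← sum_add_distrib]
    apply sum_congr rfl
    intro τ _
    split_ifs <;> simp
  map_smul' q c := by
    funext σ
    simp only [Pi.smul_apply, smul_eq_mul, RingHom.id_apply]
    rw [mul_sum]
    apply sum_congr rfl
    intro τ _
    split_ifs <;> simp

lemma liftE_apply (f : κ ↪ ι) (c : Perm κ → ℚ) (σ : Perm ι) :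
    liftE f c σ = ∑ τ, if via f τ = σ then c τ else 0 := rfl

lemma sum_liftE {M : Type*} [AddCommGroup M] [Module ℚ M] (f : κ ↪ ι) (c : Perm κ → ℚ)
    (G : Perm ι → M) : ∑ σ, liftE f c σ • G σ = ∑ τ, c τ • G (via f τ) := by
  simp only [liftE_apply, sum_smul]
  rw [sum_comm]
  apply sum_congr rfl
  intro τ _
  rw [sum_eq_single (via f τ)]
  · rw [if_pos rfl]
  · intro σ _ hσ
    rw [if_neg (Ne.symm hσ), zero_smul]
  · intro h; exact absurd (mem_univ _) h

lemma pr_liftE (f : κ ↪ ι) (w : Perm ι → ℚ) (c : Perm κ → ℚ) :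
    pr w (liftE f c) = ∑ τ, w (via f τ) * c τ := by
  have h := sum_liftE f c w
  unfold pr
  simp only [smul_eq_mul] at h
  rw [sum_congr rfl (fun τ _ => mul_comm (w τ) _), h]
  exact sum_congr rfl (fun τ _ => mul_comm _ _)

lemma liftE_via (f : κ ↪ ι) (c : Perm κ → ℚ) (τ : Perm κ) : liftE f c (via f τ) = c τ := by
  rw [liftE_apply, sum_eq_single τ]
  · rw [if_pos rfl]
  · intro σ _ hσ
    rw [if_neg (fun h => hσ (via_inj f h))]
  · intro h; exact absurd (mem_univ _) h

lemma liftE_ne_zero {f : κ ↪ ι} {c : Perm κ → ℚ} (h : c ≠ 0) : liftE f c ≠ 0 := by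
  obtain ⟨τ, hτ⟩ := Function.ne_iff.1 h
  intro h0
  apply hτ
  rw [← liftE_via f c τ, h0]
  rfl

lemma liftE_equiv (e : κ ≃ ι) (c : Perm κ → ℚ) :
    liftE e.symm.toEmbedding (liftE e.toEmbedding c) = c := by
  have h1 : ∀ τ : Perm κ, via e.symm.toEmbedding (via e.toEmbedding τ) = τ := by
    intro τ
    ext x
    obtain ⟨y, rfl⟩ := e.symm.surjective x
    have h2 := via_img e.symm.toEmbedding (via e.toEmbedding τ) y
    rw [Equiv.coe_toEmbedding] at h2
    rw [h2]
    obtain ⟨x, rfl⟩ := e.surjective y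
    have h3 := via_img e.toEmbedding τ x
    rw [Equiv.coe_toEmbedding] at h3
    rw [h3, Equiv.symm_apply_apply, Equiv.symm_apply_apply]
  funext τ
  rw [← h1 τ, liftE_via, liftE_via, h1]

end via

section ptr

variable {κ : Type*} [Fintype κ] [DecidableEq κ]

/-- The partial trace. -/
def ptr (χ : ℚ) (c : Perm (Option κ) → ℚ) (τ : Perm κ) : ℚ :=
  χ * c (optionCongr τ) + ∑ u : κ, c (swap none (some u) * optionCongr τ)

lemma via_some (τ : Perm κ) : via Function.Embedding.some τ = optionCongr τ := by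
  ext1 x
  cases x with
  | none =>
    rw [via_out]
    · rfl
    · rintro ⟨x, hx⟩
      cases hx
  | some x =>
    exact via_img Function.Embedding.some τ x

/-- The adjoint of the partial trace. -/
def ptrAdj (χ : ℚ) (z : Perm κ → ℚ) : Perm (Option κ) → ℚ :=
  χ • liftE Function.Embedding.some z + ∑ u : κ, Lt (swap none (some u))
    (liftE Function.Embedding.some z)

lemma pr_Lt {L : Type*} [Fintype L] [DecidableEq L] (g : Perm L) (u v : Perm L → ℚ) :
    pr u (Lt g v) = pr (Lt g⁻¹ u) v := by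
  unfold pr
  rw [← Equiv.sum_comp (Equiv.mulLeft g)]
  apply sum_congr rfl
  intro τ _
  rw [Lt_apply, Lt_apply, Equiv.coe_mulLeft, inv_inv, inv_mul_cancel_left]

lemma pr_Rt {L : Type*} [Fintype L] [DecidableEq L] (g : Perm L) (u v : Perm L → ℚ) :
    pr u (Rt g v) = pr (Rt g⁻¹ u) v := by
  unfold pr
  rw [← Equiv.sum_comp (Equiv.mulRight g⁻¹)]
  apply sum_congr rfl
  intro τ _
  rw [Rt_apply, Rt_apply, Equiv.coe_mulRight, inv_mul_cancel_right]

lemma pr_add {L : Type*} [Fintype L] [DecidableEq L] (u v w : Perm L → ℚ) :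
    pr u (v + w) = pr u v + pr u w := by
  unfold pr
  simp only [Pi.add_apply, mul_add, sum_add_distrib]

lemma pr_smul {L : Type*} [Fintype L] [DecidableEq L] (q : ℚ) (u v : Perm L → ℚ) :
    pr u (q • v) = q * pr u v := by
  unfold pr
  rw [mul_sum]
  apply sum_congr rfl
  intro τ _
  rw [Pi.smul_apply, smul_eq_mul]
  ring

lemma pr_comm {L : Type*} [Fintype L] [DecidableEq L] (u v : Perm L → ℚ) :
    pr u v = pr v u := sum_congr rfl fun _ _ => mul_comm _ _

lemma pr_sum {L J : Type*} [Fintype L] [DecidableEq L] (s : Finset J) (u : Perm L → ℚ)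
    (v : J → Perm L → ℚ) : pr u (∑ j ∈ s, v j) = ∑ j ∈ s, pr u (v j) := by
  classical
  induction s using Finset.induction_on with
  | empty => simp [pr]
  | insert j s hj ih => rw [sum_insert hj, sum_insert hj, pr_add, ih]

lemma pr_ptr (χ : ℚ) (w : Perm (Option κ) → ℚ) (z : Perm κ → ℚ) :
    pr (ptr χ w) z = pr w (ptrAdj χ z) := by
  rw [ptrAdj, pr_add, pr_smul, pr_sum, pr_liftE]
  have h1 : ∀ u ∈ (univ : Finset κ), pr w (Lt (swap none (some u))
      (liftE Function.Embedding.some z)) =
      ∑ τ, w (swap none (some u) * optionCongr τ) * z τ := by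
    intro u _
    rw [pr_Lt, pr_liftE]
    apply sum_congr rfl
    intro τ _
    rw [Lt_apply, inv_inv, via_some]
  rw [sum_congr rfl h1, sum_comm, mul_sum, ← sum_add_distrib]
  unfold pr ptr
  apply sum_congr rfl
  intro τ _
  rw [via_some, add_mul, sum_mul]
  ring

variable {L M : Type*} [Fintype L] [DecidableEq L] [AddCommGroup M] [Module ℚ M] in
lemma jm_perm (ρ : Perm L →* Module.End ℚ M) (g : Perm L) (y : L) (w : M) :
    ρ g (jm ρ y w) = jm ρ (g y) (ρ g w) := by
  unfold jm
  rw [map_sum]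
  refine sum_bij (fun x _ => g x) ?_ ?_ ?_ ?_
  · intro x hx
    rw [mem_erase] at hx ⊢
    exact ⟨fun h => hx.1 (g.injective h), mem_univ _⟩
  · intro x _ x' _ h
    exact g.injective h
  · intro x hx
    rw [mem_erase] at hx
    refine ⟨g.symm x, ?_, by simp⟩
    rw [mem_erase]
    refine ⟨?_, mem_univ _⟩
    rintro h
    apply hx.1
    rw [← h, Equiv.apply_symm_apply]
  · intro x _
    rw [rho_mul, rho_mul]
    congr 2
    rw [swap_apply_apply g x y]
    simp [mul_assoc]

/-- If the partial traces of a two-sided invariant subspace vanish then the Jucys-Murphy elements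
act as `-χ`. -/
lemma jm_of_ptr {χ : ℚ} {W : Submodule ℚ (Perm (Option κ) → ℚ)} (hW : TwoSided W)
    (h : ∀ w ∈ W, ptr χ w = 0) : ∀ w ∈ W, ∀ y, jm Lt y w = (-χ) • w := by
  have h0 : ∀ w ∈ W, jm Lt none w = (-χ) • w := by
    intro w hw
    funext σ
    have h1 := congrFun (h _ (hW.rt σ w hw)) 1
    unfold ptr at h1
    rw [Pi.zero_apply, Equiv.optionCongr_one, Rt_apply, one_mul] at h1
    have h2 : jm Lt none w σ = ∑ u : κ, w (swap none (some u) * σ) := by
      unfold jm
      rw [Finset.sum_apply]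
      have h3 : (univ.erase none : Finset (Option κ)) = univ.image some := by
        ext x
        cases x <;> simp
      rw [h3, sum_image (fun _ _ _ _ h => Option.some_injective _ h)]
      apply sum_congr rfl
      intro u _
      rw [Lt_apply, swap_inv, swap_comm]
    rw [h2, Pi.smul_apply, smul_eq_mul]
    have h4 : ∀ u : κ, Rt σ w (swap none (some u) * 1) = w (swap none (some u) * σ) := by
      intro u
      rw [Rt_apply, mul_one]
    rw [sum_congr rfl (fun u _ => h4 u)] at h1
    linarith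
  intro w hw y
  have h1 : Lt (swap none y) (Lt (swap none y) w) = w := by
    rw [rho_mul, swap_mul_self, map_one, Module.End.one_apply]
  have h2 := jm_perm Lt (swap none y) none (Lt (swap none y) w)
  rw [swap_apply_left, h1, h0 _ (hW.lt _ _ hw), map_smul, h1] at h2
  exact h2.symm

end ptr

/-- A family of subspaces of the spaces of functions on all finite symmetric groups, stable under
translations, lifts and partial traces. -/
structure PFam (χ : ℚ) where
  K : ∀ (ι : Type) [Fintype ι] [DecidableEq ι], Submodule ℚ (Perm ι → ℚ)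
  two : ∀ (ι : Type) [Fintype ι] [DecidableEq ι], TwoSided (K ι)
  lift : ∀ {κ ι : Type} [Fintype κ] [DecidableEq κ] [Fintype ι] [DecidableEq ι] (f : κ ↪ ι)
    {c : Perm κ → ℚ}, c ∈ K κ → liftE f c ∈ K ι
  ptr : ∀ {κ : Type} [Fintype κ] [DecidableEq κ] {c : Perm (Option κ) → ℚ}, c ∈ K (Option κ) →
    ptr χ c ∈ K κ

section fam

variable {χ : ℚ}

lemma PFam.ptrAdj_mem (𝒦 : PFam χ) {κ : Type} [Fintype κ] [DecidableEq κ] {z : Perm κ → ℚ}
    (h : z ∈ 𝒦.K κ) : ptrAdj χ z ∈ 𝒦.K (Option κ) :=
  Submodule.add_mem _ (Submodule.smul_mem _ _ (𝒦.lift _ h))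
    (Submodule.sum_mem _ fun _ _ => (𝒦.two _).lt _ _ (𝒦.lift _ h))

lemma PFam.eq_bot_iff (𝒦 : PFam χ) {κ ι : Type} [Fintype κ] [DecidableEq κ] [Fintype ι]
    [DecidableEq ι] (e : κ ≃ ι) : 𝒦.K κ = ⊥ ↔ 𝒦.K ι = ⊥ := by
  constructor
  · intro h
    rw [Submodule.eq_bot_iff]
    intro c hc
    by_contra hne
    have h1 := 𝒦.lift e.symm.toEmbedding hc
    rw [h, Submodule.mem_bot] at h1
    exact liftE_ne_zero hne h1
  · intro h
    rw [Submodule.eq_bot_iff]
    intro c hc
    by_contra hne
    have h1 := 𝒦.lift e.toEmbedding hc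
    rw [h, Submodule.mem_bot] at h1
    exact liftE_ne_zero hne h1

lemma PFam.le_of_equiv {𝒦 𝓛 : PFam χ} {κ ι : Type} [Fintype κ] [DecidableEq κ] [Fintype ι]
    [DecidableEq ι] (e : κ ≃ ι) (h : 𝒦.K κ ≤ 𝓛.K κ) : 𝒦.K ι ≤ 𝓛.K ι := by
  intro c hc
  have h1 := 𝓛.lift e.toEmbedding (h (𝒦.lift e.symm.toEmbedding hc))
  have h2 := liftE_equiv e.symm c
  rw [Equiv.symm_symm] at h2
  rwa [h2] at h1

/-- The orthogonal complement. -/
def perp {L : Type*} [Fintype L] [DecidableEq L] (W : Submodule ℚ (Perm L → ℚ)) :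
    Submodule ℚ (Perm L → ℚ) where
  carrier := {w | ∀ c ∈ W, pr c w = 0}
  zero_mem' := fun c _ => by simp [pr]
  add_mem' := fun h1 h2 c hc => by rw [pr_add, h1 c hc, h2 c hc, add_zero]
  smul_mem' := fun q w h c hc => by rw [pr_smul, h c hc, mul_zero]

lemma twoSided_perp {L : Type*} [Fintype L] [DecidableEq L] {W : Submodule ℚ (Perm L → ℚ)}
    (h : TwoSided W) : TwoSided (perp W) := by
  constructor
  · intro g c hc d hd
    rw [pr_Lt]
    exact hc _ (h.lt _ _ hd)
  · intro g c hc d hd
    rw [pr_Rt]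
    exact hc _ (h.rt _ _ hd)

/-- Orthogonal decomposition. -/
lemma le_of_inf_perp {L : Type*} [Fintype L] [DecidableEq L] {V W : Submodule ℚ (Perm L → ℚ)}
    (hVW : V ≤ W) (h : W ⊓ perp V = ⊥) : W ≤ V := by
  let B : LinearMap.BilinForm ℚ (Perm L → ℚ) := LinearMap.mk₂ ℚ pr
    (fun u v w => by rw [pr_comm, pr_add, pr_comm w u, pr_comm w v])
    (fun q u v => by rw [pr_comm, pr_smul, pr_comm v u, smul_eq_mul])
    (fun u v w => pr_add u v w) (fun q u v => by rw [pr_smul, smul_eq_mul])
  have hB : ∀ u v, B u v = pr u v := fun _ _ => rfl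
  have hrefl : B.IsRefl := by
    intro u v huv
    rw [hB, pr_comm]
    exact huv
  have hdis : Disjoint V (B.orthogonal V) := by
    rw [Submodule.disjoint_def]
    intro v hv hv'
    by_contra h0
    have h1 : pr v v = 0 := hv' v hv
    exact absurd h1 (pr_self_pos h0).ne'
  have hc := (LinearMap.BilinForm.isCompl_orthogonal_iff_disjoint hrefl).2 hdis
  intro w hw
  have h1 : w ∈ V ⊔ B.orthogonal V := by rw [hc.sup_eq_top]; exact Submodule.mem_top
  obtain ⟨v, hv, p, hp, rfl⟩ := Submodule.mem_sup.1 h1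
  have hp' : p ∈ perp V := fun c hcV => by
    have := hp c hcV
    exact this
  have hpW : p ∈ W := by
    have := W.sub_mem hw (hVW hv)
    rwa [add_sub_cancel_left] at this
  have : p ∈ W ⊓ perp V := ⟨hpW, hp'⟩
  rw [h, Submodule.mem_bot] at this
  rw [this, add_zero]
  exact hv

/-- The grids of the least degree. -/
lemma PFam.grid (𝒦 : PFam χ) {κ : Type} [Fintype κ] [DecidableEq κ] (h0 : 𝒦.K κ = ⊥)
    (h1 : 𝒦.K (Option κ) ≠ ⊥) : ∃ a b : ℕ, 0 < a ∧ 0 < b ∧ (b : ℚ) = a - χ ∧
      Fintype.card (Option κ) = a * b ∧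
      ∀ e : Option κ ≃ Fin a × Fin b, ∃ y ∈ 𝒦.K (Option κ), y 1 = 1 ∧ RC e y := by
  have h2 : ∀ w ∈ 𝒦.K (Option κ), Nil.ptr χ w = 0 := by
    intro w hw
    have := 𝒦.ptr hw
    rwa [h0, Submodule.mem_bot] at this
  obtain ⟨a, b, ha, hb, hab, hcard, h⟩ := exists_grid (κ := -χ) (𝒦.two _)
    (jm_of_ptr (𝒦.two _) h2) h1
  exact ⟨a, b, ha, hb, by linarith, hcard, h⟩

/-- A family with the same least degree as a larger family is equal to it. -/
theorem PFam.unique {𝓛 𝒦 : PFam χ}
    (hle : ∀ (ι : Type) [Fintype ι] [DecidableEq ι], 𝓛.K ι ≤ 𝒦.K ι) {N : ℕ}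
    (h0 : ∀ n ≤ N, 𝒦.K (Fin n) = ⊥) (h1 : 𝓛.K (Fin (N + 1)) ≠ ⊥) (ι : Type) [Fintype ι]
    [DecidableEq ι] : 𝓛.K ι = 𝒦.K ι := by
  have eN : Fin (N + 1) ≃ Option (Fin N) := finSuccEquiv N
  have h2 : 𝓛.K (Option (Fin N)) ≠ ⊥ := fun h => h1 ((𝓛.eq_bot_iff eN).2 h)
  have h3 : 𝓛.K (Fin N) = ⊥ := le_bot_iff.1 ((hle _).trans_eq (h0 N le_rfl))
  obtain ⟨a0, b0, ha0, hb0, hab0, hcard0, hy0⟩ := 𝓛.grid h3 h2
  rw [Fintype.card_option, Fintype.card_fin] at hcard0
  have key : ∀ n : ℕ, 𝒦.K (Fin n) ≤ 𝓛.K (Fin n) := by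
    intro n
    induction n with
    | zero => rw [h0 0 (Nat.zero_le _)]; exact bot_le
    | succ n ih =>
      by_cases hn : n + 1 ≤ N
      · rw [h0 _ hn]; exact bot_le
      · refine PFam.le_of_equiv (finSuccEquiv n).symm ?_
        apply le_of_inf_perp (hle _)
        set W := 𝒦.K (Option (Fin n)) ⊓ perp (𝓛.K (Option (Fin n))) with hWdef
        have hW2 : TwoSided W := by
          constructor
          · rintro g c ⟨hc1, hc2⟩
            exact ⟨(𝒦.two _).lt _ _ hc1, (twoSided_perp (𝓛.two _)).lt _ _ hc2⟩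
          · rintro g c ⟨hc1, hc2⟩
            exact ⟨(𝒦.two _).rt _ _ hc1, (twoSided_perp (𝓛.two _)).rt _ _ hc2⟩
        have hWptr : ∀ w ∈ W, Nil.ptr χ w = 0 := by
          rintro w ⟨hw1, hw2⟩
          have h4 := ih (𝒦.ptr hw1)
          have h5 := hw2 _ (𝓛.ptrAdj_mem h4)
          rw [pr_comm, ← pr_ptr] at h5
          by_contra hne
          exact absurd h5 (pr_self_pos hne).ne'
        by_contra hW0
        obtain ⟨a, b, ha, hb, hab, hcard, hy⟩ := exists_grid (κ := -χ) hW2
          (jm_of_ptr hW2 hWptr) hW0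
        rw [Fintype.card_option, Fintype.card_fin] at hcard
        have haa : a0 ≤ a := by
          by_contra hcon
          have hlt : a < a0 := by omega
          have hlt2 : b < b0 := by
            have h4 : (a : ℚ) < a0 := by exact_mod_cast hlt
            have h5 : (b : ℚ) < b0 := by rw [hab, hab0]; linarith
            exact_mod_cast h5
          have h6 : a * b < a0 * b0 := Nat.mul_lt_mul'' hlt hlt2
          omega
        have hbb : b0 ≤ b := by
          have h4 : (a0 : ℚ) ≤ a := by exact_mod_cast haa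
          have h5 : (b0 : ℚ) ≤ b := by rw [hab, hab0]; linarith
          exact_mod_cast h5
        have e : Option (Fin n) ≃ Fin a × Fin b := Fintype.equivOfCardEq (by
          rw [Fintype.card_option, Fintype.card_fin, Fintype.card_prod, Fintype.card_fin,
            Fintype.card_fin, hcard])
        have e0 : Option (Fin N) ≃ Fin a0 × Fin b0 := Fintype.equivOfCardEq (by
          rw [Fintype.card_option, Fintype.card_fin, Fintype.card_prod, Fintype.card_fin,
            Fintype.card_fin, hcard0])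
        obtain ⟨y, hyW, hy1, hyRC⟩ := hy e
        obtain ⟨y0, hyL, hy01, hyRC0⟩ := hy0 e0
        let f : Option (Fin N) ↪ Option (Fin n) :=
          ⟨fun x => e.symm (Fin.castLE haa (e0 x).1, Fin.castLE hbb (e0 x).2), by
            intro x x' h
            have h4 := Prod.mk.inj (e.symm.injective h)
            apply e0.injective
            exact Prod.ext (Fin.castLE_injective _ h4.1) (Fin.castLE_injective _ h4.2)⟩
        have hef : ∀ x, e (f x) = (Fin.castLE haa (e0 x).1, Fin.castLE hbb (e0 x).2) := fun x =>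
          Equiv.apply_symm_apply _ _
        have hres : (fun τ => y (via f τ)) = y0 := by
          apply RC.eq (e := e0) _ hyRC0
          · rw [via_one, hy1, hy01]
          · constructor
            · intro ρ hρ σ
              rw [via_mul]
              apply hyRC.row
              intro z
              rcases via_or f z with ⟨x, rfl⟩ | hz
              · rw [via_img, hef, hef, hρ]
              · rw [via_out f _ hz]
            · intro κ hκ σ
              rw [via_mul, ← Perm.viaFintypeEmbedding_sign κ f]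
              apply hyRC.col
              intro z
              rcases via_or f z with ⟨x, rfl⟩ | hz
              · rw [via_img, hef, hef, hκ]
              · rw [via_out f _ hz]
        have h6 := hyW.2 _ (𝓛.lift f hyL)
        rw [pr_comm, pr_liftE] at h6
        have h7 : ∑ τ, y (via f τ) * y0 τ = pr y0 y0 := by
          unfold pr
          apply sum_congr rfl
          intro τ _
          rw [← hres]
        rw [h7] at h6
        have h8 : y0 ≠ 0 := by
          intro h0
          rw [h0] at hy01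
          exact zero_ne_one hy01
        exact absurd h6 (pr_self_pos h8).ne'
  apply le_antisymm (hle ι)
  exact PFam.le_of_equiv (Fintype.equivFin ι).symm (key _)

end fam

end Pool.Agent.Q55.Nil
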