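import Pool.Agent.Q55.Nil.Alg

/-!
# The transcendental projector of a variety with algebraic cohomology
-/

open CategoryTheory AlgebraicGeometry

universe u v w

namespace Pool.Agent.Q55.Nil

open Pool.Agent.H914 Pool.Agent.H914.VarClass Pool.Agent.H914.VarClass.Obj Pool.Agent.W492.BB
  Pool.Agent.W550.Corr Pool.Agent.TH133 Pool.Agent.TH829.Prime Pool.Agent.TH829.Kim
open Pool.Agent.Y110 (GradedCommutative)

set_option linter.unusedSectionVars false

variable {k : Type u} [Field k] {𝒱 : VarClass k}

section weil

variable {C : TheoryData.{u, v, 0} 𝒱 ℚ} [hC : IsChowProj C] {K : Type w} [Field K]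
  {H : WeilTheoryData.{u, v, w} C K} [hH : IsWeilProj H] {X Y Z W V P : 𝒱.Obj}

/-- The cohomology of `X` is spanned by classes of cycles. -/
def AlgCoh (H : WeilTheoryData.{u, v, w} C K) (X : 𝒱.Obj) : Prop :=
  ∀ a : H.A X, a ∈ Submodule.span K (Set.range (H.cl : C.A X → H.A X))

include hC hH

lemma AlgCoh.span_hom (h : AlgCoh H X) :
    Submodule.span K {a : H.A X | ∃ (i : ℤ) (z : C.A X), z ∈ C.gr X i ∧ a = H.cl z} = ⊤ := by
  rw [eq_top_iff]
  intro a _
  refine Submodule.span_le.2 ?_ (h a)
  rintro _ ⟨z, rfl⟩
  have h1 : z ∈ ⨆ i, C.gr X i := span_grC X z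
  induction h1 using Submodule.iSup_induction' with
  | mem i z hz => exact Submodule.subset_span ⟨i, z, hz, rfl⟩
  | zero => rw [map_zero]; exact Submodule.zero_mem _
  | add x y _ _ hx hy => rw [map_add]; exact Submodule.add_mem _ hx hy

/-- The odd cohomology vanishes. -/
lemma AlgCoh.odd (h : AlgCoh H X) : oddPart H X = ⊥ := by
  rw [oddPart, Submodule.span_eq_bot]
  rintro a ⟨i, hi, ha⟩
  apply H.nondeg
  intro b
  have hb : b ∈ Submodule.span K {a : H.A X | ∃ (i : ℤ) (z : C.A X), z ∈ C.gr X i ∧ a = H.cl z} := by
    rw [h.span_hom]; trivial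
  induction hb using Submodule.span_induction with
  | mem b hb =>
    obtain ⟨j, z, hz, rfl⟩ := hb
    apply tr_zero H (H.mul_mem ha (H.cl_mem hz))
    intro h1
    have h2 : Even (i + 2 * j) := by rw [h1]; exact even_two_mul _
    have h3 : Even i := by
      have := h2.sub (even_two_mul j)
      rwa [add_sub_cancel_right] at this
    exact (Int.not_even_iff_odd.2 hi) h3
  | zero => rw [mul_zero, map_zero]
  | add x y _ _ hx hy => rw [mul_add, map_add, hx, hy, add_zero]
  | smul q x _ hx => rw [mul_smul_comm, map_smul, hx, smul_zero]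

lemma AlgCoh.bO (h : AlgCoh H X) : bO H X = 0 := by
  unfold Nil.bO
  rw [h.odd, finrank_bot]

/-- The degree in terms of the cohomology. -/
lemma tr_of_hasDegree {z : C.A X} {τ : K} {r : ℚ} (hz : HasDegree C z r)
    (hτ : ∀ a : H.A X, τ • H.push (fst X X) (H.pull (snd X X) a) = H.tr X a • (1 : H.A X))
    [CharZero K] : H.tr X (H.cl z) = τ * (r : K) := by
  have h1 := hτ (H.cl z)
  rw [← H.cl_pull, ← H.cl_push, (hz X).2, cl_rat, smul_smul] at h1
  have h2 : (H.tr X (H.cl z) - τ * (r : K)) • (1 : H.A X) = 0 := by rw [sub_smul, ← h1, sub_self]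
  rcases smul_eq_zero.1 h2 with h3 | h3
  · exact sub_eq_zero.1 h3
  · exact absurd h3 (hH.one_ne_zero X)

/-- A decomposition of the diagonal up to homological equivalence. -/
theorem AlgCoh.exists_dual (h : AlgCoh H X) [Module.Finite K (H.A X)] :
    ∃ (e e' : Fin (Module.finrank K (H.A X)) → C.A X),
      (∑ i, C.ext (e i) (e' i)) ∈ C.gr (X.prod X) X.dim ∧
      C.comp (∑ i, C.ext (e i) (e' i)) (∑ i, C.ext (e i) (e' i)) = ∑ i, C.ext (e i) (e' i) ∧
      H.cl (∑ i, C.ext (e i) (e' i)) = H.cl (dg C X) := by
  classical
  have := charZero H X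
  have hne := one_ne H
  obtain ⟨τ, hτ, hpush⟩ := push_tr (H := H) X X
  obtain ⟨f, hf, hspan, hli⟩ := Submodule.exists_fun_fin_finrank_span_eq K
    {a : H.A X | ∃ (i : ℤ) (z : C.A X), z ∈ C.gr X i ∧ a = H.cl z}
  replace hspan := hspan.trans h.span_hom
  have hn : Module.finrank K (Submodule.span K
      {a : H.A X | ∃ (i : ℤ) (z : C.A X), z ∈ C.gr X i ∧ a = H.cl z}) =
      Module.finrank K (H.A X) := by
    rw [h.span_hom, finrank_top]
  rw [← hn]
  generalize Module.finrank K (Submodule.span K
      {a : H.A X | ∃ (i : ℤ) (z : C.A X), z ∈ C.gr X i ∧ a = H.cl z}) = n at f hf hspan hli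
  choose p z hz hfz using hf
  -- the intersection matrix
  have hdeg : ∀ i j, ∃ q : ℚ, HasDegree C (z i * z j) q := fun i j =>
    exists_hasDegree' (C.mul_mem (hz i) (hz j))
  choose q hq using hdeg
  have hq0 : ∀ i j, p i + p j ≠ X.dim → q i j = 0 := fun i j hij =>
    hasDegree_uniq (hne X) (hq i j) (hasDegree_hom (C.mul_mem (hz i) (hz j)) hij)
  have hqs : ∀ i j, q i j = q j i := fun i j =>
    hasDegree_uniq (hne X) (hq i j) (by rw [ch_comm C]; exact hq j i)
  let M : Matrix (Fin n) (Fin n) ℚ := Matrix.of q
  have hM : ∀ i j, M i j = q i j := fun i j => rfl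
  have hdet : M.det ≠ 0 := by
    intro h0
    have h1 : (M.map (Rat.castHom K)).det = 0 := by
      have := RingHom.map_det (Rat.castHom K) M
      rw [h0, map_zero] at this
      exact this.symm
    obtain ⟨v, hv0, hv⟩ := Matrix.exists_mulVec_eq_zero_iff.2 h1
    apply hv0
    have h2 : ∑ j, v j • f j = 0 := by
      apply H.nondeg
      intro b
      have hb : b ∈ Submodule.span K (Set.range f) := by rw [hspan]; trivial
      induction hb using Submodule.span_induction with
      | mem b hb =>
        obtain ⟨i, rfl⟩ := hb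
        rw [Finset.sum_mul, map_sum]
        have h3 := congrFun hv i
        rw [Matrix.mulVec, dotProduct, Pi.zero_apply] at h3
        have h4 : ∀ j, H.tr X (v j • f j * f i) = τ * (M.map (Rat.castHom K) i j * v j) := by
          intro j
          rw [smul_mul_assoc, map_smul, hfz j, hfz i, ← map_mul, ch_comm C,
            tr_of_hasDegree (hq i j) hpush, Matrix.map_apply, hM, smul_eq_mul,
            Rat.coe_castHom]
          ring
        rw [Finset.sum_congr rfl (fun j _ => h4 j), ← Finset.mul_sum, h3, mul_zero]
      | zero => rw [mul_zero, map_zero]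
      | add x y _ _ hx hy => rw [mul_add, map_add, hx, hy, add_zero]
      | smul q x _ hx => rw [mul_smul_comm, map_smul, hx, smul_zero]
    funext j
    exact (Fintype.linearIndependent_iff.1 hli) v h2 j
  have hunit : IsUnit M.det := isUnit_iff_ne_zero.2 hdet
  set N := M⁻¹ with hN
  have hMN : M * N = 1 := Matrix.mul_nonsing_inv M hunit
  -- the inverse matrix has the same shape
  have hN0 : ∀ i j, p i + p j ≠ X.dim → N i j = 0 := by
    let N' : Matrix (Fin n) (Fin n) ℚ := Matrix.of fun i j => if p i + p j = X.dim then N i j else 0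
    have h1 : M * N' = 1 := by
      ext k j
      rw [Matrix.mul_apply]
      by_cases hkj : p k = p j
      · have h2 : ∀ i, M k i * N' i j = M k i * N i j := by
          intro i
          change _ * (if p i + p j = X.dim then N i j else 0) = _
          split_ifs with h3
          · rfl
          · rw [hM, hq0 k i (by rw [hkj, add_comm]; exact h3), zero_mul, zero_mul]
        rw [Finset.sum_congr rfl (fun i _ => h2 i), ← Matrix.mul_apply, hMN]
      · have h2 : ∀ i, M k i * N' i j = 0 := by
          intro i
          change _ * (if p i + p j = X.dim then N i j else 0) = _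
          split_ifs with h3
          · rw [hM, hq0 k i (by omega), zero_mul]
          · rw [mul_zero]
        rw [Finset.sum_congr rfl (fun i _ => h2 i), Finset.sum_const_zero, Matrix.one_apply,
          if_neg]
        rintro rfl
        exact hkj rfl
    have h2 : N' = N := by
      have h3 := congrArg (fun A => M⁻¹ * A) (h1.trans hMN.symm)
      simp only [← Matrix.mul_assoc, Matrix.nonsing_inv_mul M hunit, Matrix.one_mul] at h3
      exact h3
    intro i j hij
    have h3 := congrFun (congrFun h2 i) j
    rw [← h3]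
    exact if_neg hij
  let e' : Fin n → C.A X := fun i => ∑ j, N i j • z j
  set w := ∑ i, C.ext (z i) (e' i) with hw
  have hact : ∀ k, C.act w (z k) = z k := by
    intro k
    have h1 : C.act w (z k) = ∑ i, C.act (C.ext (z i) (e' i)) (z k) := by
      rw [hw]
      exact act_sum C Finset.univ _ _
    rw [h1, Finset.sum_congr rfl (fun i _ => act_ext' (hq i k))]
    simp only [e', Finset.smul_sum, smul_smul]
    rw [Finset.sum_comm]
    have h2 : ∀ j, ∑ i, (q i k * N i j) • z j = (if k = j then (1 : ℚ) else 0) • z j := by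
      intro j
      rw [← Finset.sum_smul]
      congr 1
      have h3 := congrFun (congrFun hMN k) j
      rw [Matrix.mul_apply, Matrix.one_apply] at h3
      rw [← h3]
      apply Finset.sum_congr rfl
      intro i _
      rw [hM, hqs]
    rw [Finset.sum_congr rfl (fun j _ => h2 j)]
    simp
  have hact' : ∀ i, C.act w (e' i) = e' i := by
    intro i
    have h1 : C.act w (e' i) = ∑ j, N i j • C.act w (z j) := by
      change C.actL w (∑ j, N i j • z j) = _
      rw [map_sum]
      apply Finset.sum_congr rfl
      intro j _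
      rw [map_smul]
      rfl
    rw [h1]
    apply Finset.sum_congr rfl
    intro j _
    rw [hact]
  refine ⟨z, e', ?_, ?_, ?_⟩
  · apply Submodule.sum_mem
    intro i _
    have h1 : C.ext (z i) (e' i) = ∑ j, N i j • C.ext (z i) (z j) := by
      rw [TheoryData.ext, map_sum, Finset.mul_sum]
      apply Finset.sum_congr rfl
      intro j _
      rw [map_smul, mul_smul_comm]
      rfl
    rw [h1]
    apply Submodule.sum_mem
    intro j _
    by_cases hij : p i + p j = X.dim
    · apply Submodule.smul_mem
      have := ext_mem' (hz i) (hz j)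
      rwa [hij] at this
    · rw [hN0 i j hij, zero_smul]
      exact Submodule.zero_mem _
  · change C.comp w w = w
    conv_lhs => rw [hw]
    rw [sum_comp]
    apply Finset.sum_congr rfl
    intro i _
    rw [comp_ext_left, hact']
  · change H.cl w = _
    rw [← sub_eq_zero, ← map_sub]
    apply hom_zero_of_act
    intro a
    have ha : a ∈ Submodule.span K (Set.range f) := by rw [hspan]; trivial
    have h1 : Submodule.span K (Set.range f) ≤ LinearMap.ker (H.actL (H.cl (w - dg C X))) := by
      rw [Submodule.span_le]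
      rintro _ ⟨i, rfl⟩
      change H.act (H.cl (w - dg C X)) (f i) = 0
      rw [hfz i, ← cl_act, C.act_sub, hact, act_dg, sub_self, map_zero]
    exact h1 ha

end weil

end Pool.Agent.Q55.Nil
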